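import Pool.Agent.WDB.Ow

set_option autoImplicit false

/-!
# WB-Bud: a point with small variation

`budget`: sum over `x`: `∑ x, |lam x z - lam x z'| = ∑ x, |lam z x - lam z' x| = n rho z z' ≤ n η W` if `d z z' ≤ W` (`rle`), and for every
`z` at most `41 W η n` points `z'` have `d z z' ≤ W` (`vol`, `pm.symm`). So the average over `x` is at most `41 W² η² n²`.
-/

namespace Pool.Agent.WDB

open Finset Pool.Agent.WD

variable {V : Type} [Fintype V] [DecidableEq V] {lam : V → V → ℝ} {d : V → V → ℕ}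
  {side : V → V → Bool} {K ε η : ℝ} {h C : ℕ}

theorem budget (hW : Ow V lam d side K ε η h C) (W : ℕ) (hW1 : 1 ≤ W) : ∃ x₀ : V,
    ∑ z, ∑ z', (if d z z' ≤ W then |lam x₀ z - lam x₀ z'| else 0) ≤
      41 * W ^ 2 * η ^ 2 * (Fintype.card V : ℝ) ^ 2 := by
  have hne : Nonempty V := by
    obtain ⟨x, -⟩ := hW.top
    exact ⟨x⟩
  have hη : 0 ≤ η := by
    have h1 := hW.heta
    have h2 := hW.hK
    have h3 := hW.heps
    have h4 : 0 ≤ 200 * K * ε := by positivity
    exact h4.trans h1
  set n : ℝ := (Fintype.card V : ℝ) with hn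
  have hn0 : 0 ≤ n := Nat.cast_nonneg _
  -- the sum over all `x`
  have hxsum : ∀ z z' : V, ∑ x, (if d z z' ≤ W then |lam x z - lam x z'| else 0) ≤
      if d z z' ≤ W then η * W * n else 0 := by
    intro z z'
    by_cases hz : d z z' ≤ W
    · simp only [if_pos hz]
      have h1 : ∑ x, |lam x z - lam x z'| = rho lam z z' * n := by
        rw [← rho_sum lam z z']
        refine Finset.sum_congr rfl fun x _ => ?_
        rw [hW.symm x z, hW.symm x z']
      rw [h1]
      have h2 : rho lam z z' ≤ η * W := by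
        refine (hW.rle z z').trans ?_
        exact mul_le_mul_of_nonneg_left (by exact_mod_cast hz) hη
      exact mul_le_mul_of_nonneg_right h2 hn0
    · simp only [if_neg hz, Finset.sum_const_zero, le_refl]
  have hzsum : ∀ z : V, ∑ z', (if d z z' ≤ W then η * W * n else 0) ≤
      41 * W ^ 2 * η ^ 2 * n ^ 2 := by
    intro z
    rw [← Finset.sum_filter, Finset.sum_const, nsmul_eq_mul]
    have h1 := hW.vol z W hW1
    have h2 : ((Finset.univ.filter fun z' => d z z' ≤ W).card : ℝ) ≤ 41 * W * η * n := h1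
    have h3 : 0 ≤ η * W * n := by positivity
    calc ((Finset.univ.filter fun z' => d z z' ≤ W).card : ℝ) * (η * W * n)
        ≤ (41 * W * η * n) * (η * W * n) := mul_le_mul_of_nonneg_right h2 h3
      _ = 41 * W ^ 2 * η ^ 2 * n ^ 2 := by ring
  have htot : ∑ x, ∑ z, ∑ z', (if d z z' ≤ W then |lam x z - lam x z'| else 0) ≤
      ∑ _x : V, 41 * (W : ℝ) ^ 2 * η ^ 2 * n ^ 2 := by
    calc ∑ x, ∑ z, ∑ z', (if d z z' ≤ W then |lam x z - lam x z'| else 0)
        = ∑ z, ∑ z', ∑ x, (if d z z' ≤ W then |lam x z - lam x z'| else 0) := by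
          rw [Finset.sum_comm]
          refine Finset.sum_congr rfl fun z _ => ?_
          rw [Finset.sum_comm]
      _ ≤ ∑ z, ∑ z', (if d z z' ≤ W then η * W * n else 0) :=
          Finset.sum_le_sum fun z _ => Finset.sum_le_sum fun z' _ => hxsum z z'
      _ ≤ ∑ _z : V, 41 * (W : ℝ) ^ 2 * η ^ 2 * n ^ 2 := Finset.sum_le_sum fun z _ => hzsum z
  obtain ⟨x₀, -, hx₀⟩ := Finset.exists_le_of_sum_le (Finset.univ_nonempty (α := V)) htot
  exact ⟨x₀, hx₀⟩

end Pool.Agent.WDB
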