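import Pool.Agent.WDB.Ow

set_option autoImplicit false

/-!
# WB-Cln: a clean shell

`clean_shell`: suppose that for every `i < N` the shell `[a + i w, a + (i + 1) w)` of `x₀` is not clean: there is `z₀` such that the sets
`P i` (level `< s`) and `Q i` (level `> s`) of points of the shell within `L` of `z₀` have more than `t` points each. For
`z ∈ P i`, `z' ∈ Q i`: `d z z' ≤ 2 L = W` and `lam x₀ z' - lam x₀ z ≥ 2 c` by the gap. The sets `P i × Q i` are disjoint for different `i`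
(the shells are disjoint), so the sum of the budget is at least `N t² (2 c)`.
-/

namespace Pool.Agent.WDB

open Finset Pool.Agent.WD

variable {V : Type} [Fintype V] [DecidableEq V] {lam : V → V → ℝ} {d : V → V → ℕ}
  {side : V → V → Bool} {K ε η : ℝ} {h C : ℕ}

theorem clean_shell (hW : Ow V lam d side K ε η h C) {s c : ℝ} (hc : 0 < c)
    (hgap : ∀ x z, 8 * d x z ≤ 15 * h → c ≤ |lam x z - s|) {x₀ : V} {L : ℕ}
    (hx₀ : ∑ z, ∑ z', (if d z z' ≤ 2 * L then |lam x₀ z - lam x₀ z'| else 0) ≤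
      41 * (2 * L : ℝ) ^ 2 * η ^ 2 * (Fintype.card V : ℝ) ^ 2)
    {a w N : ℕ} (hab : 8 * (a + N * w) ≤ 15 * h) {θ : ℝ} (hθ : 0 < θ)
    (hN : 41 * (2 * L : ℝ) ^ 2 < N * θ ^ 2 * (2 * c)) :
    ∃ i, i < N ∧ Clean lam d s x₀ (a + i * w) (a + (i + 1) * w) L (θ * (η * Fintype.card V)) := by
  classical
  by_contra hcon
  have hη : 0 < η := by
    by_contra hη
    have h1 : η ≤ 0 := not_lt.1 hη
    have h2 : η * (h : ℝ) ≤ 0 := mul_nonpos_of_nonpos_of_nonneg h1 (Nat.cast_nonneg _)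
    have h3 := hW.hbig
    linarith
  have hn : (0 : ℝ) < Fintype.card V := by
    have : 0 < Fintype.card V := Fintype.card_pos_iff.2 ⟨x₀⟩
    exact_mod_cast this
  set t : ℝ := θ * (η * Fintype.card V) with ht
  have ht0 : 0 < t := by positivity
  have hex : ∀ i : ℕ, ∃ z₀ : V, i < N →
      t < ((univ.filter fun z => (a + i * w ≤ d x₀ z ∧ d x₀ z < a + (i + 1) * w ∧
        d z z₀ ≤ L) ∧ lam x₀ z < s).card : ℝ) ∧
      t < ((univ.filter fun z => (a + i * w ≤ d x₀ z ∧ d x₀ z < a + (i + 1) * w ∧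
        d z z₀ ≤ L) ∧ s < lam x₀ z).card : ℝ) := by
    intro i
    by_cases hi : i < N
    · by_contra hno
      refine hcon ⟨i, hi, fun z₀ => ?_⟩
      by_contra hno2
      rw [not_or, not_le, not_le] at hno2
      exact hno ⟨z₀, fun _ => hno2⟩
    · exact ⟨x₀, fun h => absurd h hi⟩
  choose z₀ hz₀ using hex
  set P : ℕ → Finset V := fun i => univ.filter fun z => (a + i * w ≤ d x₀ z ∧
    d x₀ z < a + (i + 1) * w ∧ d z (z₀ i) ≤ L) ∧ lam x₀ z < s with hP
  set Q : ℕ → Finset V := fun i => univ.filter fun z => (a + i * w ≤ d x₀ z ∧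
    d x₀ z < a + (i + 1) * w ∧ d z (z₀ i) ≤ L) ∧ s < lam x₀ z with hQ
  set F : V × V → ℝ := fun q => if d q.1 q.2 ≤ 2 * L then |lam x₀ q.1 - lam x₀ q.2| else 0 with hF
  have hF0 : ∀ q, 0 ≤ F q := by
    intro q
    simp only [hF]
    split_ifs
    · exact abs_nonneg _
    · exact le_rfl
  have hmemP : ∀ i z, z ∈ P i ↔ ((a + i * w ≤ d x₀ z ∧ d x₀ z < a + (i + 1) * w ∧
      d z (z₀ i) ≤ L) ∧ lam x₀ z < s) := by
    intro i z
    simp only [hP, mem_filter, mem_univ, true_and]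
  have hmemQ : ∀ i z, z ∈ Q i ↔ ((a + i * w ≤ d x₀ z ∧ d x₀ z < a + (i + 1) * w ∧
      d z (z₀ i) ≤ L) ∧ s < lam x₀ z) := by
    intro i z
    simp only [hQ, mem_filter, mem_univ, true_and]
  -- the shells are disjoint
  have hdisj : ∀ i j : ℕ, i < j → Disjoint (P i ×ˢ Q i) (P j ×ˢ Q j) := by
    intro i j hij
    rw [disjoint_left]
    intro q hq hq'
    rw [mem_product, hmemP] at hq hq'
    have h1 := hq.1.1.2.1
    have h2 := hq'.1.1.1
    have h3 : (i + 1) * w ≤ j * w := Nat.mul_le_mul_right w hij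
    omega
  have hpw : (↑(range N) : Set ℕ).PairwiseDisjoint fun i => P i ×ˢ Q i := by
    intro i _ j _ hij
    rcases lt_or_gt_of_ne hij with h1 | h1
    · exact hdisj i j h1
    · exact (hdisj j i h1).symm
  -- lower bound of the terms
  have hterm : ∀ i ∈ range N, ∀ q ∈ P i ×ˢ Q i, 2 * c ≤ F q := by
    intro i hi q hq
    rw [mem_range] at hi
    rw [mem_product, hmemP, hmemQ] at hq
    obtain ⟨⟨⟨h1, h2, h3⟩, h4⟩, ⟨h5, h6, h7⟩, h8⟩ := hq
    have hiw : (i + 1) * w ≤ N * w := Nat.mul_le_mul_right w hi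
    have h9 := hgap x₀ q.1 (by omega)
    have h10 := hgap x₀ q.2 (by omega)
    rw [abs_of_neg (by linarith)] at h9
    rw [abs_of_pos (by linarith)] at h10
    have h11 : d q.1 q.2 ≤ 2 * L := by
      have h12 := hW.pm.tri q.1 (z₀ i) q.2
      have h13 := hW.pm.symm (z₀ i) q.2
      omega
    simp only [hF]
    rw [if_pos h11, abs_of_neg (by linarith)]
    linarith
  have hlow : (N : ℝ) * (t ^ 2 * (2 * c)) ≤
      ∑ z, ∑ z', (if d z z' ≤ 2 * L then |lam x₀ z - lam x₀ z'| else 0) := by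
    have e1 : ∑ z, ∑ z', (if d z z' ≤ 2 * L then |lam x₀ z - lam x₀ z'| else 0) =
        ∑ q : V × V, F q := by
      rw [← univ_product_univ, sum_product]
    rw [e1]
    calc (N : ℝ) * (t ^ 2 * (2 * c)) = ∑ i ∈ range N, t ^ 2 * (2 * c) := by
          rw [sum_const, card_range, nsmul_eq_mul]
      _ ≤ ∑ i ∈ range N, ∑ q ∈ P i ×ˢ Q i, F q := by
          refine sum_le_sum fun i hi => ?_
          have hz := hz₀ i (mem_range.1 hi)
          have h1 : t < ((P i).card : ℝ) := hz.1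
          have h2 : t < ((Q i).card : ℝ) := hz.2
          calc t ^ 2 * (2 * c) ≤ ((P i).card : ℝ) * ((Q i).card : ℝ) * (2 * c) := by
                refine mul_le_mul_of_nonneg_right ?_ (by linarith)
                rw [sq]
                exact mul_le_mul h1.le h2.le ht0.le (Nat.cast_nonneg _)
            _ = ∑ q ∈ P i ×ˢ Q i, 2 * c := by
                rw [sum_const, card_product, nsmul_eq_mul]
                push_cast
                ring
            _ ≤ _ := sum_le_sum fun q hq => hterm i hi q hq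
      _ = ∑ q ∈ (range N).biUnion fun i => P i ×ˢ Q i, F q := (sum_biUnion hpw).symm
      _ ≤ ∑ q : V × V, F q :=
          sum_le_sum_of_subset_of_nonneg (subset_univ _) fun q _ _ => hF0 q
  have hpos : 0 < η ^ 2 * (Fintype.card V : ℝ) ^ 2 := by positivity
  have hbig : 41 * (2 * L : ℝ) ^ 2 * (η ^ 2 * (Fintype.card V : ℝ) ^ 2) <
      N * θ ^ 2 * (2 * c) * (η ^ 2 * (Fintype.card V : ℝ) ^ 2) :=
    mul_lt_mul_of_pos_right hN hpos
  have hfin := hlow.trans hx₀
  have e2 : (N : ℝ) * (t ^ 2 * (2 * c)) =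
      N * θ ^ 2 * (2 * c) * (η ^ 2 * (Fintype.card V : ℝ) ^ 2) := by
    rw [ht]
    ring
  rw [e2] at hfin
  have e3 : 41 * (2 * L : ℝ) ^ 2 * η ^ 2 * (Fintype.card V : ℝ) ^ 2 =
      41 * (2 * L : ℝ) ^ 2 * (η ^ 2 * (Fintype.card V : ℝ) ^ 2) := by ring
  rw [e3] at hfin
  linarith

end Pool.Agent.WDB
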