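import Pool.Agent.WDB.Gap

set_option autoImplicit false

/-!
# WB-ColHi: the high colour occurs at every distance

Put `τ = η / (2 K)` and `s = lam p q`.

`col_hi`: choose the pair `(u, v)` with `s ≤ lam u v`, `r + C ≤ d u v` and the greatest level `s₂`. `s₂ ≤ 1 - τ`: let `x₀, y₀, z₀` be as in the
field `top`: the three distances differ by at most `C` (`lip`, levels in `[1 - ε, 1]`), so with `r₀ = d x₀ y₀ - C`:
`3 (d x₀ y₀ - C) ≤ 4 h + 3 C` (`sided.top`), `3 d x₀ y₀ ≤ 4 h + 6 C < 3 r`. If `s₂ > 1 - τ` then `lip` gives `r + C ≤ d u v ≤ d x₀ y₀ + C < r + C`.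
Now the `z` with `s₂ < lam x z ≤ s₂ + τ`.

`col_hi_wide`: disjoint shells `[r + i C, r + (i + 1) C)`, `i < J` (induction on `J`).
-/

namespace Pool.Agent.WDB

open Finset Pool.Agent.WD

variable {V : Type} [Fintype V] [DecidableEq V] {lam : V → V → ℝ} {d : V → V → ℕ}
  {side : V → V → Bool} {K ε η : ℝ} {h C : ℕ}

theorem col_hi (hW : Ow V lam d side K ε η h C) {p q : V} (hpq : 2 * h ≤ d p q) {r : ℕ}
    (hr : 4 * h + 6 * C < 3 * r) (hr' : r + C ≤ 2 * h) (x : V) :
    η / (4 * K) * Fintype.card V ≤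
      (univ.filter fun z => (r ≤ d x z ∧ d x z < r + C) ∧ lam p q < lam x z).card := by
  classical
  have hK := hW.hK
  have hK0 : 0 < K := by linarith
  have heps := hW.heps
  have heta := hW.heta
  have hKe : ε ≤ K * ε := by nlinarith
  have hη0 : 0 < η := by nlinarith
  obtain ⟨τ, hτ⟩ : ∃ τ : ℝ, τ = η / (2 * K) := ⟨_, rfl⟩
  have hτe : 100 * ε ≤ τ := by
    rw [hτ, le_div_iff₀ (by positivity)]
    nlinarith
  have hτ2 : η / (4 * K) = τ / 2 := by
    rw [hτ]
    field_simp
    norm_num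
  have hlip : ∀ x y x' y', |lam x y - lam x' y'| ≤ τ → d x y ≤ d x' y' + C := by
    rw [hτ]
    exact hW.lip
  -- the pair with the greatest level
  obtain ⟨S, hS⟩ : ∃ S : Finset (V × V), S = univ.filter
    (fun w : V × V => lam p q ≤ lam w.1 w.2 ∧ r + C ≤ d w.1 w.2) := ⟨_, rfl⟩
  have hSne : S.Nonempty := ⟨(p, q), by
    rw [hS, mem_filter]
    exact ⟨mem_univ _, le_rfl, hr'.trans hpq⟩⟩
  obtain ⟨⟨u, v⟩, huv, hmax⟩ := S.exists_max_image (fun w => lam w.1 w.2) hSne
  rw [hS, mem_filter] at huv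
  obtain ⟨_, huv1, huv2⟩ := huv
  simp only at huv1 huv2 hmax
  have hmax' : ∀ y z, lam p q ≤ lam y z → r + C ≤ d y z → lam y z ≤ lam u v := by
    intro y z h1 h2
    exact hmax (y, z) (by rw [hS, mem_filter]; exact ⟨mem_univ _, h1, h2⟩)
  have hs2 : lam u v ≤ 1 - τ := by
    by_contra hcon
    push Not at hcon
    obtain ⟨x₀, y₀, z₀, h1, h2, h3⟩ := hW.top
    have g1 := hW.le_one x₀ y₀
    have g2 := hW.le_one y₀ z₀
    have g3 := hW.le_one x₀ z₀
    have g4 := hW.le_one u v
    have d1 : d x₀ y₀ ≤ d y₀ z₀ + C := hlip _ _ _ _ (by rw [abs_le]; constructor <;> linarith)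
    have d2 : d x₀ y₀ ≤ d x₀ z₀ + C := hlip _ _ _ _ (by rw [abs_le]; constructor <;> linarith)
    have d3 : d u v ≤ d x₀ y₀ + C := hlip _ _ _ _ (by rw [abs_le]; constructor <;> linarith)
    have h4 := hW.sided.top x₀ y₀ z₀ (d x₀ y₀ - C) (by omega) (by omega) (by omega)
    omega
  have hnn : 0 ≤ lam u v := hW.nonneg u v
  have hcount := ow_count hW x hnn (by linarith : lam u v ≤ lam u v + τ) (by linarith)
  have hcard : (0 : ℝ) ≤ Fintype.card V := Nat.cast_nonneg _
  have h1 : η / (4 * K) * Fintype.card V ≤ (lam u v + τ - lam u v - 2 * ε) * Fintype.card V := by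
    apply mul_le_mul_of_nonneg_right _ hcard
    rw [hτ2]
    linarith
  refine h1.trans (hcount.trans ?_)
  have hsub : (univ.filter fun z => lam u v < lam x z ∧ lam x z ≤ lam u v + τ) ⊆
      univ.filter fun z => (r ≤ d x z ∧ d x z < r + C) ∧ lam p q < lam x z := by
    intro z hz
    rw [mem_filter] at hz ⊢
    obtain ⟨_, hz1, hz2⟩ := hz
    refine ⟨mem_univ _, ⟨?_, ?_⟩, ?_⟩
    · have h2 := hlip u v x z (by rw [abs_le]; constructor <;> linarith)
      omega
    · by_contra hcon
      push Not at hcon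
      have h2 := hmax' x z (by linarith) hcon
      linarith
    · linarith
  exact_mod_cast card_le_card hsub

theorem col_hi_wide (hW : Ow V lam d side K ε η h C) {p q : V} (hpq : 2 * h ≤ d p q) {r : ℕ}
    (J : ℕ) (hr : 4 * h + 6 * C < 3 * r) (hr' : r + C * J ≤ 2 * h) (x : V) :
    J * (η / (4 * K) * Fintype.card V) ≤
      (univ.filter fun z => (r ≤ d x z ∧ d x z < r + C * J) ∧ lam p q < lam x z).card := by
  classical
  induction J with
  | zero =>
    rw [Nat.cast_zero, zero_mul]
    exact Nat.cast_nonneg _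
  | succ J ih =>
    have e1 : C * (J + 1) = C * J + C := Nat.mul_succ C J
    have h1 := ih (by rw [e1] at hr'; omega)
    have h2 := col_hi hW hpq (r := r + C * J) (by omega) (by rw [e1] at hr'; omega) x
    have hdisj : Disjoint
        (univ.filter fun z => (r ≤ d x z ∧ d x z < r + C * J) ∧ lam p q < lam x z)
        (univ.filter fun z => (r + C * J ≤ d x z ∧ d x z < r + C * J + C) ∧
          lam p q < lam x z) := by
      rw [disjoint_left]
      intro z hz hz'
      rw [mem_filter] at hz hz'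
      have h3 := hz.2.1.2
      have h4 := hz'.2.1.1
      omega
    have hsub : (univ.filter fun z => (r ≤ d x z ∧ d x z < r + C * J) ∧ lam p q < lam x z) ∪
        (univ.filter fun z => (r + C * J ≤ d x z ∧ d x z < r + C * J + C) ∧
          lam p q < lam x z) ⊆
        univ.filter fun z => (r ≤ d x z ∧ d x z < r + C * (J + 1)) ∧ lam p q < lam x z := by
      intro z hz
      rw [mem_union, mem_filter, mem_filter] at hz
      rw [mem_filter, e1]
      rcases hz with hz | hz
      · exact ⟨hz.1, ⟨hz.2.1.1, by have := hz.2.1.2; omega⟩, hz.2.2⟩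
      · exact ⟨hz.1, ⟨by have := hz.2.1.1; omega, by have := hz.2.1.2; omega⟩, hz.2.2⟩
    have h3 := card_le_card hsub
    rw [card_union_of_disjoint hdisj] at h3
    have h4 : (((univ.filter fun z => (r ≤ d x z ∧ d x z < r + C * J) ∧
        lam p q < lam x z).card : ℝ) +
        ((univ.filter fun z => (r + C * J ≤ d x z ∧ d x z < r + C * J + C) ∧
          lam p q < lam x z).card : ℝ)) ≤
        ((univ.filter fun z => (r ≤ d x z ∧ d x z < r + C * (J + 1)) ∧
          lam p q < lam x z).card : ℝ) := by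
      exact_mod_cast h3
    push_cast
    linarith

end Pool.Agent.WDB
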