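import Pool.Agent.WDB.Tra

set_option autoImplicit false

/-!
# WB-Typ: the side of the high colour; the contradiction

For a point `x` the high colour of a clean shell lies on one side of `x`, the low colour on the other
side (types A and B). The type does not change along short steps, hence it is constant, but exchanging
the two points of a pair exchanges the sides.
-/

namespace Pool.Agent.WDB

open Finset Pool.Agent.WD

variable {V : Type} [Fintype V] [DecidableEq V] {lam : V → V → ℝ} {d : V → V → ℕ}
  {side : V → V → Bool} {K ε η : ℝ} {h C : ℕ}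

open Classical in
/-- the points of the shell with property `P` on the side `σ` -/
private noncomputable def typ_S (d : V → V → ℕ) (side : V → V → Bool) (a b : ℕ)
    (P : V → V → Prop) (x : V) (σ : Bool) : Finset V :=
  univ.filter fun z => ((a ≤ d x z ∧ d x z < b) ∧ P x z) ∧ side x z = σ

omit [DecidableEq V] in
private theorem typ_mem {a b : ℕ} {P : V → V → Prop} {x z : V} {σ : Bool} :
    z ∈ typ_S d side a b P x σ ↔ ((a ≤ d x z ∧ d x z < b) ∧ P x z) ∧ side x z = σ := by
  classical
  unfold typ_S
  rw [mem_filter]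
  exact ⟨fun h => h.2, fun h => ⟨mem_univ _, h⟩⟩

private theorem typ_add {a b : ℕ} {P : V → V → Prop} [∀ x, DecidablePred (P x)] {Γ : ℝ} {x : V}
    (hΓ : Γ ≤ (univ.filter fun z => (a ≤ d x z ∧ d x z < b) ∧ P x z).card) :
    Γ ≤ (typ_S d side a b P x true).card + (typ_S d side a b P x false).card := by
  classical
  have h1 : (univ.filter fun z => (a ≤ d x z ∧ d x z < b) ∧ P x z) ⊆
      typ_S d side a b P x true ∪ typ_S d side a b P x false := by
    intro z hz
    rw [mem_filter] at hz
    rw [mem_union, typ_mem, typ_mem]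
    cases hs : side x z
    · exact Or.inr ⟨hz.2, rfl⟩
    · exact Or.inl ⟨hz.2, rfl⟩
  have h2 := (card_le_card h1).trans (card_union_le _ _)
  have h3 : ((univ.filter fun z => (a ≤ d x z ∧ d x z < b) ∧ P x z).card : ℝ) ≤
      (typ_S d side a b P x true).card + (typ_S d side a b P x false).card := by
    exact_mod_cast h2
  exact hΓ.trans h3

theorem no_clean (hW : Ow V lam d side K ε η h C) {s c : ℝ} (hc : 0 < c)
    (hgap : ∀ x z, 8 * d x z ≤ 15 * h → c ≤ |lam x z - s|) (hε : ε ≤ c * η) {a b L : ℕ}
    (hab : a < b) (ha : C + 1 ≤ a) (hb : 8 * (b + 1) ≤ 15 * h) (hb' : b + 1 + C ≤ 2 * h)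
    (hL : b - a + C ≤ L) {t Γ : ℝ} (hΓ : 0 < Γ) (ht : 5 * t ≤ Γ)
    (hΓ' : 5 * ((164 * C + 1) * (η * Fintype.card V)) < 3 * Γ)
    (hcl : ∀ x, Clean lam d s x a b L t)
    (hlo : ∀ x, Γ ≤ (univ.filter fun z => (a ≤ d x z ∧ d x z < b) ∧ lam x z < s).card)
    (hhi : ∀ x, Γ ≤ (univ.filter fun z => (a ≤ d x z ∧ d x z < b) ∧ s < lam x z).card) :
    False := by
  classical
  have hn : Nonempty V := by
    obtain ⟨x, _⟩ := hW.top
    exact ⟨x⟩
  have hn0 : (0 : ℝ) < Fintype.card V := by exact_mod_cast Fintype.card_pos
  have hK1 := hW.hK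
  have hε0 := hW.heps
  have hεη : ε ≤ η := by
    have h1 := hW.heta
    have h2 : ε * 1 ≤ 200 * K * ε := by nlinarith
    linarith
  have hη0 : 0 < η := by linarith
  obtain ⟨HiP, hHiP⟩ : ∃ P : V → V → Prop, P = fun x z => s < lam x z := ⟨_, rfl⟩
  obtain ⟨LoP, hLoP⟩ : ∃ P : V → V → Prop, P = fun x z => lam x z < s := ⟨_, rfl⟩
  -- all points of the shell on one side are near each other
  have hside : ∀ x z z', (a ≤ d x z ∧ d x z < b) → (a ≤ d x z' ∧ d x z' < b) →
      side x z = side x z' → d z z' ≤ L := by
    intro x z z' hz hz' hs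
    rcases le_total (d x z) (d x z') with h1 | h1
    · have := hW.sided.same x z z' (by omega) h1 (by omega) hs
      omega
    · have := hW.sided.same x z' z (by omega) h1 (by omega) hs.symm
      rw [hW.pm.symm z z']
      omega
  have ht0 : 0 ≤ t := by
    obtain ⟨x⟩ := hn
    rcases hcl x x with h1 | h1
    · exact le_trans (Nat.cast_nonneg _) h1
    · exact le_trans (Nat.cast_nonneg _) h1
  -- step 1
  have hmin : ∀ x σ, ((typ_S d side a b HiP x σ).card : ℝ) ≤ t ∨
      ((typ_S d side a b LoP x σ).card : ℝ) ≤ t := by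
    intro x σ
    rcases (typ_S d side a b HiP x σ).eq_empty_or_nonempty with h1 | ⟨z₀, hz₀⟩
    · left
      rw [h1, card_empty, Nat.cast_zero]
      exact ht0
    · rw [typ_mem] at hz₀
      rcases hcl x z₀ with h1 | h1
      · right
        refine le_trans ?_ h1
        have h2 : (typ_S d side a b LoP x σ) ⊆
            univ.filter fun z => (a ≤ d x z ∧ d x z < b ∧ d z z₀ ≤ L) ∧ lam x z < s := by
          intro z hz
          rw [typ_mem, hLoP] at hz
          rw [mem_filter]
          exact ⟨mem_univ _, ⟨hz.1.1.1, hz.1.1.2, hside x z z₀ hz.1.1 hz₀.1.1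
            (hz.2.trans hz₀.2.symm)⟩, hz.1.2⟩
        exact_mod_cast card_le_card h2
      · left
        refine le_trans ?_ h1
        have h2 : (typ_S d side a b HiP x σ) ⊆
            univ.filter fun z => (a ≤ d x z ∧ d x z < b ∧ d z z₀ ≤ L) ∧ s < lam x z := by
          intro z hz
          rw [typ_mem, hHiP] at hz
          rw [mem_filter]
          exact ⟨mem_univ _, ⟨hz.1.1.1, hz.1.1.2, hside x z z₀ hz.1.1 hz₀.1.1
            (hz.2.trans hz₀.2.symm)⟩, hz.1.2⟩
        exact_mod_cast card_le_card h2
  -- step 2
  have hHi2 : ∀ x, Γ ≤ ((typ_S d side a b HiP x true).card : ℝ) +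
      (typ_S d side a b HiP x false).card := by
    intro x
    rw [hHiP]
    exact typ_add (hhi x)
  have hLo2 : ∀ x, Γ ≤ ((typ_S d side a b LoP x true).card : ℝ) +
      (typ_S d side a b LoP x false).card := by
    intro x
    rw [hLoP]
    exact typ_add (hlo x)
  have htype : ∀ x, (4 * Γ ≤ 5 * ((typ_S d side a b HiP x true).card : ℝ) ∧
        5 * ((typ_S d side a b HiP x false).card : ℝ) ≤ Γ) ∨
      (5 * ((typ_S d side a b HiP x true).card : ℝ) ≤ Γ ∧
        4 * Γ ≤ 5 * ((typ_S d side a b HiP x false).card : ℝ)) := by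
    intro x
    have h1 := hHi2 x
    have h2 := hLo2 x
    rcases hmin x true with h3 | h3
    · right
      constructor <;> linarith
    · rcases hmin x false with h4 | h4
      · left
        constructor <;> linarith
      · exfalso
        linarith
  -- step 3
  have hstep : ∀ x x', rho lam x x' ≤ ε → ((typ_S d side a b HiP x true).card : ℝ) ≤
      (typ_S d side a b HiP x' true).card + (164 * C + 1) * (η * Fintype.card V) := by
    intro x x' hxx
    have hd : d x x' ≤ 1 := hW.near x x' (hxx.trans hεη)
    -- points at a given distance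
    have hS : ∀ r, C ≤ r → r + C ≤ 2 * h →
        ((univ.filter fun z => d x z = r ∧ side x z = true).card : ℝ) ≤
          41 * C * η * Fintype.card V := by
      intro r hr1 hr2
      rcases (univ.filter fun z => d x z = r ∧ side x z = true).eq_empty_or_nonempty with
        h1 | ⟨z₀, hz₀⟩
      · rw [h1, card_empty, Nat.cast_zero]
        positivity
      · rw [mem_filter] at hz₀
        refine le_trans ?_ (hW.vol z₀ C hW.hC)
        have h2 : (univ.filter fun z => d x z = r ∧ side x z = true) ⊆
            univ.filter fun z => d z₀ z ≤ C := by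
          intro z hz
          rw [mem_filter] at hz ⊢
          refine ⟨mem_univ _, ?_⟩
          have h3 := hW.sided.same x z₀ z (by omega) (by omega) (by omega)
            (hz₀.2.2.trans hz.2.2.symm)
          omega
        exact_mod_cast card_le_card h2
    have h1 := hS a (by omega) (by omega)
    have h2 := hS (b - 1) (by omega) (by omega)
    have h3 : ((univ.filter fun z => (8 * d x z ≤ 15 * h ∧ 8 * d x' z ≤ 15 * h) ∧
        s < lam x z ∧ lam x' z < s).card : ℝ) ≤ ε / (2 * c) * Fintype.card V := by
      refine changes (lam x) (lam x') hc ?_ _ ?_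
      · rw [rho_sum]
        gcongr
      · intro z hz
        rw [mem_filter] at hz
        obtain ⟨_, ⟨h3, h4⟩, h5, h6⟩ := hz
        have h7 := hgap x z h3
        have h8 := hgap x' z h4
        rw [abs_of_pos (by linarith)] at h7
        rw [abs_of_neg (by linarith)] at h8
        exact le_trans (by linarith) (le_abs_self _)
    have h4 : typ_S d side a b HiP x true ⊆ ((typ_S d side a b HiP x' true ∪
        (univ.filter fun z => d x z = a ∧ side x z = true)) ∪
        (univ.filter fun z => d x z = b - 1 ∧ side x z = true)) ∪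
        (univ.filter fun z => (8 * d x z ≤ 15 * h ∧ 8 * d x' z ≤ 15 * h) ∧
        s < lam x z ∧ lam x' z < s) := by
      intro z hz
      rw [typ_mem, hHiP] at hz
      obtain ⟨⟨⟨z1, z2⟩, z3⟩, z4⟩ := hz
      have e1 := hW.pm.tri x x' z
      have e2 := hW.pm.tri x' x z
      rw [hW.pm.symm x' x] at e2
      rw [mem_union, mem_union, mem_union, typ_mem, mem_filter, mem_filter, mem_filter]
      by_cases c1 : d x z = a
      · exact Or.inl (Or.inl (Or.inr ⟨mem_univ _, c1, z4⟩))
      by_cases c2 : d x z = b - 1
      · exact Or.inl (Or.inr ⟨mem_univ _, c2, z4⟩)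
      have e3 : side x z = side x' z := hW.sided.move x x' z hd (by omega) (by omega)
      by_cases c3 : s < lam x' z
      · rw [hHiP]
        exact Or.inl (Or.inl (Or.inl ⟨⟨⟨by omega, by omega⟩, c3⟩, e3.symm.trans z4⟩))
      · refine Or.inr ⟨mem_univ _, ⟨by omega, by omega⟩, z3, ?_⟩
        have e4 := hgap x' z (by omega)
        rcases lt_or_eq_of_le (not_lt.1 c3) with h5 | h5
        · exact h5
        · rw [h5, sub_self, abs_zero] at e4
          linarith
    have h5 := card_le_card h4
    have h6 := card_union_le ((typ_S d side a b HiP x' true ∪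
        (univ.filter fun z => d x z = a ∧ side x z = true)) ∪
        (univ.filter fun z => d x z = b - 1 ∧ side x z = true))
        (univ.filter fun z => (8 * d x z ≤ 15 * h ∧ 8 * d x' z ≤ 15 * h) ∧
        s < lam x z ∧ lam x' z < s)
    have h7 := card_union_le (typ_S d side a b HiP x' true ∪
        (univ.filter fun z => d x z = a ∧ side x z = true))
        (univ.filter fun z => d x z = b - 1 ∧ side x z = true)
    have h8 := card_union_le (typ_S d side a b HiP x' true)
        (univ.filter fun z => d x z = a ∧ side x z = true)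
    have h9 : ((typ_S d side a b HiP x true).card : ℝ) ≤ (typ_S d side a b HiP x' true).card +
        (univ.filter fun z => d x z = a ∧ side x z = true).card +
        (univ.filter fun z => d x z = b - 1 ∧ side x z = true).card +
        (univ.filter fun z => (8 * d x z ≤ 15 * h ∧ 8 * d x' z ≤ 15 * h) ∧
        s < lam x z ∧ lam x' z < s).card := by
      exact_mod_cast (by omega : (typ_S d side a b HiP x true).card ≤
        (typ_S d side a b HiP x' true).card +
        (univ.filter fun z => d x z = a ∧ side x z = true).card +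
        (univ.filter fun z => d x z = b - 1 ∧ side x z = true).card +
        (univ.filter fun z => (8 * d x z ≤ 15 * h ∧ 8 * d x' z ≤ 15 * h) ∧
        s < lam x z ∧ lam x' z < s).card)
    have h10 : ε / (2 * c) * Fintype.card V ≤ η * Fintype.card V := by
      have h11 : ε / (2 * c) ≤ η := by
        rw [div_le_iff₀ (by linarith)]
        nlinarith
      gcongr
    have h12 : 0 ≤ (C : ℝ) * η * Fintype.card V := by positivity
    nlinarith
  -- step 4
  have hall : (∀ x, 4 * Γ ≤ 5 * ((typ_S d side a b HiP x true).card : ℝ) ∧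
        5 * ((typ_S d side a b HiP x false).card : ℝ) ≤ Γ) ∨
      (∀ x, 5 * ((typ_S d side a b HiP x true).card : ℝ) ≤ Γ ∧
        4 * Γ ≤ 5 * ((typ_S d side a b HiP x false).card : ℝ)) := by
    by_contra hcon
    rw [not_or] at hcon
    obtain ⟨h1, h2⟩ := hcon
    push Not at h1 h2
    obtain ⟨y, hy⟩ := h1
    obtain ⟨x, hx⟩ := h2
    let S : Finset V := univ.filter fun x => 4 * Γ ≤ 5 * ((typ_S d side a b HiP x true).card : ℝ)
    have hxS : x ∈ S := by
      rw [mem_filter]
      refine ⟨mem_univ _, ?_⟩
      rcases htype x with h3 | h3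
      · exact h3.1
      · exact absurd h3.2 (not_le.2 (hx h3.1))
    have hyS : y ∉ S := by
      intro h3
      rw [mem_filter] at h3
      rcases htype y with h4 | h4
      · exact absurd h4.2 (not_le.2 (hy h4.1))
      · linarith [h3.2, h4.1]
    obtain ⟨p, hp, q, hq, hpq⟩ := hW.w3 S ⟨x, hxS⟩ fun h3 => hyS (h3 ▸ mem_univ y)
    rw [mem_filter] at hp
    have hq' : 5 * ((typ_S d side a b HiP q true).card : ℝ) ≤ Γ := by
      rcases htype q with h4 | h4
      · exact absurd (show q ∈ S from mem_filter.2 ⟨mem_univ q, h4.1⟩) hq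
      · exact h4.1
    have h5 := hstep p q hpq
    linarith [hp.2]
  -- step 5
  have hcount : ∑ x, ((typ_S d side a b HiP x true).card : ℝ) =
      ∑ z, ((typ_S d side a b HiP z false).card : ℝ) := by
    have h1 : ∀ x z, z ∈ typ_S d side a b HiP x true ↔ x ∈ typ_S d side a b HiP z false := by
      intro x z
      rw [typ_mem, typ_mem, hHiP]
      beta_reduce
      rw [hW.pm.symm z x, hW.symm z x]
      constructor
      · rintro ⟨h2, h3⟩
        refine ⟨h2, ?_⟩
        rw [hW.sided.anti x z (by omega) (by omega), h3]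
        rfl
      · rintro ⟨h2, h3⟩
        refine ⟨h2, ?_⟩
        rw [hW.sided.anti x z (by omega) (by omega)] at h3
        cases h4 : side x z
        · rw [h4] at h3
          exact absurd h3 (by decide)
        · rfl
    have h2 : ∑ x, (typ_S d side a b HiP x true).card = ∑ z, (typ_S d side a b HiP z false).card := by
      have h3 : ∀ x, (typ_S d side a b HiP x true).card =
          ∑ z, if z ∈ typ_S d side a b HiP x true then 1 else 0 := by
        intro x
        rw [sum_ite_mem, univ_inter, sum_const, smul_eq_mul, mul_one]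
      have h4 : ∀ z, (typ_S d side a b HiP z false).card =
          ∑ x, if x ∈ typ_S d side a b HiP z false then 1 else 0 := by
        intro x
        rw [sum_ite_mem, univ_inter, sum_const, smul_eq_mul, mul_one]
      rw [sum_congr rfl fun x _ => h3 x, sum_congr rfl fun z _ => h4 z, sum_comm]
      refine sum_congr rfl fun z _ => sum_congr rfl fun x _ => ?_
      simp only [h1]
    exact_mod_cast h2
  rcases hall with h1 | h1
  · have h2 : ∑ x : V, (4 * Γ / 5) ≤ ∑ x, ((typ_S d side a b HiP x true).card : ℝ) :=
      sum_le_sum fun x _ => by linarith [(h1 x).1]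
    have h3 : ∑ x, ((typ_S d side a b HiP x false).card : ℝ) ≤ ∑ x : V, (Γ / 5) :=
      sum_le_sum fun x _ => by linarith [(h1 x).2]
    rw [sum_const, card_univ, nsmul_eq_mul] at h2 h3
    have h4 : (Fintype.card V : ℝ) * (4 * Γ / 5) ≤ Fintype.card V * (Γ / 5) := by linarith
    have h5 := le_of_mul_le_mul_left h4 hn0
    linarith
  · have h2 : ∑ x : V, (4 * Γ / 5) ≤ ∑ x, ((typ_S d side a b HiP x false).card : ℝ) :=
      sum_le_sum fun x _ => by linarith [(h1 x).2]
    have h3 : ∑ x, ((typ_S d side a b HiP x true).card : ℝ) ≤ ∑ x : V, (Γ / 5) :=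
      sum_le_sum fun x _ => by linarith [(h1 x).1]
    rw [sum_const, card_univ, nsmul_eq_mul] at h2 h3
    have h4 : (Fintype.card V : ℝ) * (4 * Γ / 5) ≤ Fintype.card V * (Γ / 5) := by linarith
    have h5 := le_of_mul_le_mul_left h4 hn0
    linarith

end Pool.Agent.WDB
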