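import Pool.Agent.WDB.ColLo
import Pool.Agent.WDB.ColHi
import Pool.Agent.WDB.Bud
import Pool.Agent.WDB.Cln
import Pool.Agent.WDB.Typ

set_option autoImplicit false

/-!
# No world at a good scale with a large diameter
-/

namespace Pool.Agent.WDB

open Finset Pool.Agent.WD

theorem no_ow (K : ℝ) (hK : 1 ≤ K) (C : ℕ) (hC : 1 ≤ C) : ∃ H : ℕ,
    ∀ (V : Type) [Fintype V] [DecidableEq V] (lam : V → V → ℝ) (d : V → V → ℕ)
      (side : V → V → Bool) (ε η : ℝ) (h : ℕ), ε ≤ 1 / (3200 * C * K) * η → H ≤ h →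
        ¬ Ow V lam d side K ε η h C := by
  have hC' : (1 : ℝ) ≤ C := by exact_mod_cast hC
  obtain ⟨J, hJ⟩ := exists_nat_ge (4000 * K * C)
  set c : ℝ := 1 / (3200 * C * K) with hc
  have hc0 : 0 < c := by positivity
  set L : ℕ := C * J + C with hLdef
  obtain ⟨N, hN⟩ := exists_nat_gt (41 * (2 * ((L + 4 : ℕ) : ℝ)) ^ 2 / ((199 : ℝ) ^ 2 * (2 * c)))
  have hN' : 41 * (2 * ((L + 4 : ℕ) : ℝ)) ^ 2 < N * (199 : ℝ) ^ 2 * (2 * c) := by
    rw [div_lt_iff₀ (by positivity)] at hN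
    linarith
  have hJ1 : 1 ≤ J := by
    rcases Nat.eq_zero_or_pos J with h0 | h0
    · exfalso
      rw [h0] at hJ
      have : 0 < 4000 * K * C := by positivity
      simp at hJ
      linarith
    · exact h0
  obtain ⟨w, hw⟩ : ∃ w, w = C * J + 10 := ⟨_, rfl⟩
  refine ⟨8 * (N * w) + 100 * C + 100, ?_⟩
  intro V _ _ lam d side ε η h hε hh hW
  have hη0 : 0 < η := by
    have h1 := hW.heta
    have h2 := hW.heps
    have : 0 < 200 * K * ε := by positivity
    linarith
  have := ow_nonempty hW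
  have hn : (0 : ℝ) < Fintype.card V := by exact_mod_cast Fintype.card_pos
  obtain ⟨p, q, hpq⟩ := hW.diam
  have hgap : ∀ x z, 8 * d x z ≤ 15 * h → c ≤ |lam x z - lam p q| :=
    fun x z hd => gap hW (by omega) hpq x z hd
  obtain ⟨x₀, hx₀⟩ := budget hW (2 * (L + 4)) (by omega)
  obtain ⟨a, ha⟩ : ∃ a, a = (4 * h + 6 * C) / 3 + 1 := ⟨_, rfl⟩
  have ha1 : 4 * h + 6 * C < 3 * a := by omega
  have ha2 : 3 * a ≤ 4 * h + 6 * C + 3 := by omega
  have hab : 8 * (a + N * w) ≤ 15 * h := by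
    generalize N * w = M at *
    omega
  have hx₀' : ∑ z, ∑ z', (if d z z' ≤ 2 * (L + 4) then |lam x₀ z - lam x₀ z'| else 0) ≤
      41 * (2 * ((L + 4 : ℕ) : ℝ)) ^ 2 * η ^ 2 * (Fintype.card V : ℝ) ^ 2 := by
    refine hx₀.trans (le_of_eq ?_)
    push_cast
    ring
  obtain ⟨i, hi, hcl⟩ := clean_shell hW hc0 hgap hx₀' hab (θ := 199) (by norm_num) hN'
  -- the shell
  have hiw : a + (i + 1) * w ≤ a + N * w := by
    have : (i + 1) * w ≤ N * w := Nat.mul_le_mul_right _ (by omega)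
    omega
  have hstep : a + (i + 1) * w = a + i * w + w := by ring
  obtain ⟨A, hA⟩ : ∃ A, A = a + i * w := ⟨_, rfl⟩
  rw [hstep, ← hA] at hcl hiw
  have hcl' : ∀ x, Clean lam d (lam p q) x (A + 5) (A + w - 5) L
      (199 * (η * Fintype.card V) + η * Fintype.card V) :=
    fun x => transfer hW hc0 hgap hε (by omega) hcl x
  have hAa : a ≤ A := by omega
  have hCh : 16 * C ≤ h := by omega
  have hb1 : 8 * (A + w) ≤ 15 * h := by omega
  have hbb : A + w - 5 = A + 5 + C * J := by omega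
  rw [hbb] at hcl'
  set Γ : ℝ := J * (η / (4 * K) * Fintype.card V) with hΓ
  have hΓ1 : 1000 * C * (η * Fintype.card V) ≤ Γ := by
    have h1 : (1000 * C : ℝ) ≤ J / (4 * K) := by
      rw [le_div_iff₀ (by positivity)]
      linarith
    calc 1000 * C * (η * Fintype.card V) ≤ J / (4 * K) * (η * Fintype.card V) :=
          mul_le_mul_of_nonneg_right h1 (by positivity)
      _ = Γ := by rw [hΓ]; ring
  have hu : 0 < η * Fintype.card V := by positivity
  have hCu : η * Fintype.card V ≤ C * (η * Fintype.card V) := le_mul_of_one_le_left hu.le hC'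
  refine no_clean hW hc0 hgap hε (a := A + 5) (b := A + 5 + C * J) (L := L) ?_ ?_ ?_ ?_ ?_
    (t := 199 * (η * Fintype.card V) + η * Fintype.card V) (Γ := Γ) ?_ ?_ ?_ hcl' ?_ ?_
  · have : 1 ≤ C * J := Nat.one_le_iff_ne_zero.mpr (by positivity)
    omega
  · omega
  · omega
  · omega
  · omega
  · nlinarith
  · nlinarith
  · nlinarith
  · exact fun x => col_lo_wide hW hpq J (by omega) (by omega) x
  · exact fun x => col_hi_wide hW hpq J (by omega) (by omega) x

end Pool.Agent.WDB
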