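import Pool.Agent.WDB.Geo

set_option autoImplicit false

/-!
# WB-Two: geodesics; every point is the middle of a long geodesic

Geodesics of the graph metric (`PM.geod`), two opposite rays from every point (`two_of_geo`) and
comparison of the balls around two points (`vol_transfer`).
-/

namespace Pool.Agent.WDB

open Finset

variable {V : Type} [Fintype V] {d : V → V → ℕ}

omit [Fintype V] in
private theorem two_step (hP : PM V d) {γ : ℕ → V} {n : ℕ}
    (h : ∀ i, i < n → d (γ i) (γ (i + 1)) ≤ 1) (i k : ℕ) (hk : i + k ≤ n) :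
    d (γ i) (γ (i + k)) ≤ k := by
  induction k with
  | zero => rw [add_zero, hP.self]
  | succ k ih =>
    have h1 := ih (by omega)
    have h2 := h (i + k) (by omega)
    have h3 := hP.tri (γ i) (γ (i + k)) (γ (i + (k + 1)))
    rw [← add_assoc] at h3 ⊢
    omega

omit [Fintype V] in
theorem PM.geod (hP : PM V d) (x y : V) : ∃ γ : ℕ → V, Ray d x (d x y) γ ∧ γ (d x y) = y := by
  obtain ⟨γ, h0, h1, h2⟩ := hP.path x y
  refine ⟨γ, ⟨h0, ?_⟩, h1⟩
  intro i j hij hj
  have e1 := two_step hP h2 i (j - i) (by omega)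
  have e2 := two_step hP h2 0 i (by omega)
  have e3 := two_step hP h2 j (d x y - j) (by omega)
  rw [show i + (j - i) = j by omega] at e1
  rw [zero_add, h0] at e2
  rw [show j + (d x y - j) = d x y by omega, h1] at e3
  have e4 := hP.tri x (γ i) y
  have e5 := hP.tri (γ i) (γ j) y
  omega

omit [Fintype V] in
private theorem two_ray {x : V} {h k : ℕ} {a : ℕ → V} (ha : Ray d x h a) (hk : k ≤ h) :
    Ray d x k a :=
  ⟨ha.zero, fun i j hij hj => ha.dist i j hij (hj.trans hk)⟩

theorem two_of_geo {A β : ℝ} (hG : Geo V d A β) {D : ℕ} (hD : IsDiam d D) :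
    Two d (D / 2 - 5) := by
  intro x
  have hP : PM V d := hG.toPM
  by_cases hR : D / 2 < 5
  · have h0 : D / 2 - 5 = 0 := by omega
    rw [h0]
    have hr : Ray d x 0 (fun _ => x) := by
      refine ⟨rfl, fun i j hij hj => ?_⟩
      rw [hP.self]
      omega
    exact ⟨fun _ => x, fun _ => x, hr, hr, fun s t hs ht => by omega⟩
  · obtain ⟨⟨p, q, hpq⟩, -⟩ := hD
    obtain ⟨γ, hγ, -⟩ := hP.geod p q
    rw [hpq] at hγ
    obtain ⟨g, hg1, hg2⟩ := hG.hom (γ (D / 2)) x
    have e1 := hγ.dist 0 (D / 2) (by omega) (by omega)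
    have e2 := hγ.dist (D / 2) (2 * (D / 2)) (by omega) (by omega)
    have e3 := hγ.dist 0 (2 * (D / 2)) (by omega) (by omega)
    rw [hP.symm] at e1
    -- the distances of the images
    have f1 := hg2 (γ (D / 2)) (γ 0)
    have f2 := hg2 (γ (D / 2)) (γ (2 * (D / 2)))
    have f3 := hg2 (γ 0) (γ (2 * (D / 2)))
    obtain ⟨a, ha, ha'⟩ := hP.geod x (g (γ 0))
    obtain ⟨b, hb, hb'⟩ := hP.geod x (g (γ (2 * (D / 2))))
    have k1 := hP.tri (g (γ (D / 2))) x (g (γ 0))
    have k2 := hP.tri x (g (γ (D / 2))) (g (γ 0))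
    have k3 := hP.tri (g (γ (D / 2))) x (g (γ (2 * (D / 2))))
    have k4 := hP.tri x (g (γ (D / 2))) (g (γ (2 * (D / 2))))
    have k5 := hP.symm x (g (γ (D / 2)))
    refine ⟨a, b, two_ray ha (by omega), two_ray hb (by omega), ?_⟩
    intro s t hs ht
    have m1 := ha.dist s (d x (g (γ 0))) (by omega) le_rfl
    have m2 := hb.dist t (d x (g (γ (2 * (D / 2))))) (by omega) le_rfl
    rw [ha', hP.symm] at m1
    rw [hb'] at m2
    have m3 := hP.tri (g (γ 0)) (a s) (g (γ (2 * (D / 2))))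
    have m4 := hP.tri (a s) (b t) (g (γ (2 * (D / 2))))
    omega

theorem vol_transfer {A β : ℝ} (hG : Geo V d A β) (x y : V) (k : ℕ) :
    vol d x k ≤ vol d y (k + 5) := by
  obtain ⟨g, hg1, hg2⟩ := hG.hom x y
  unfold vol
  refine card_le_card_of_injOn g ?_ g.injective.injOn
  intro z hz
  rw [coe_filter, Set.mem_ofPred_eq] at hz ⊢
  refine ⟨mem_univ _, ?_⟩
  have h1 := hG.tri y (g x) (g z)
  have h2 := hG.symm y (g x)
  have h3 := (hg2 x z).1
  have h4 := hz.2
  omega

end Pool.Agent.WDB
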