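import Pool.Agent.WDB.Ivt
import Pool.Agent.WDB.Two

set_option autoImplicit false

/-!
# WB-Rig: a bijection which moves neighbours by a bounded amount is a near-isometry

`rigid`. Let `m = 4 h`, `h = D / 2 - 5`, `k = d x y`, `γ` a geodesic from `x` to `y`, `u i = g (γ i)`; `d (u i) (u (i + 1)) ≤ C₁`, so
`cyc m (pos (u (i + 1)) - pos (u i)) ≤ s := C₁ + C`. Lift to `P`. Let `k' = d (g x) (g y)`, `l = k' - C` (if `k' ≤ C` nothing to do);
`|P k - P 0| ≥ cyc m (pos (g y) - pos (g x)) ≥ l` (`cyc_le`). Say `P 0 ≤ P k` (the other case is symmetric: replace `P` and `pos` by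
their negatives, or argue with `min` and `max`). Let `t₀ = P 0 + l / 2`, `w₀ = u i₀` with `|P i₀ - t₀| ≤ s` (`ivt`), `r = l / 2 - 1 - C - s`
(if this is negative, nothing to do). Every `w` in the ball of radius `r` around `w₀` has a lift `t` (`t ≡ pos w`) with `|t - P i₀| ≤ r + C`,
so `P 0 ≤ t ≤ P 0 + l ≤ P k`, so there is `i` with `|P i - t| ≤ s`, `cyc m (pos (u i) - pos w) ≤ s`, `d (u i) w ≤ s + C`, and
`d (γ i) (g⁻¹ w) ≤ C₁ (s + C) =: c₀` (apply `g.symm` to a geodesic from `u i` to `w`). Hence `g⁻¹ w` is in the ball of radius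
`k / 2 + 1 + c₀` around `γ (k / 2)`. So `vol d w₀ r ≤ vol d (γ (k / 2)) (k / 2 + 1 + c₀)` (`g⁻¹` is injective) and by `Lin`:
`r n ≤ D vol d w₀ r + C' n ≤ (k / 2 + 1 + c₀ + C') n + C' n`, i.e. `r ≤ k / 2 + 1 + c₀ + 2 C'`, so `k' ≤ k + C₂`.
(`n > 0`, `r ≤ D` since `k' ≤ D`.)
-/

namespace Pool.Agent.WDB

open Finset

/-- a map which moves neighbours by at most `c` -/
private theorem rig_lip {V : Type} {d : V → V → ℕ} (hP : PM V d) (f : V → V) (c : ℕ)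
    (hf : ∀ p q, d p q ≤ 1 → d (f p) (f q) ≤ c) (p q : V) : d (f p) (f q) ≤ c * d p q := by
  obtain ⟨γ, h0, h1, h2⟩ := hP.path p q
  have key : ∀ i, i ≤ d p q → d (f (γ 0)) (f (γ i)) ≤ c * i := by
    intro i
    induction i with
    | zero =>
      intro _
      rw [hP.self]
      exact Nat.zero_le _
    | succ i ih =>
      intro hi
      have h3 := ih (by omega)
      have h4 := hf _ _ (h2 i (by omega))
      have h5 := hP.tri (f (γ 0)) (f (γ i)) (f (γ (i + 1)))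
      rw [Nat.mul_succ]
      omega
  have h3 := key (d p q) le_rfl
  rw [h0, h1] at h3
  exact h3

/-- a geodesic path is short -/
private theorem rig_path {V : Type} {d : V → V → ℕ} (hP : PM V d) (γ : ℕ → V) (k : ℕ)
    (h : ∀ i, i < k → d (γ i) (γ (i + 1)) ≤ 1) (i j : ℕ) (hij : i ≤ j) (hj : j ≤ k) :
    d (γ i) (γ j) ≤ j - i := by
  induction j, hij using Nat.le_induction with
  | base =>
    rw [hP.self]
    exact Nat.zero_le _
  | succ j hij ih =>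
    have h1 := ih (by omega)
    have h2 := h j (by omega)
    have h3 := hP.tri (γ i) (γ j) (γ (j + 1))
    omega

theorem rigid (C C₁ C' : ℕ) : ∃ C₂ H : ℕ, ∀ (V : Type) [Fintype V] (d : V → V → ℕ) (D : ℕ)
    (pos : V → ℤ) (g : Equiv.Perm V), PM V d → IsDiam d D → H ≤ D → Loop d (D / 2 - 5) C pos →
      Lin d D C' → (∀ p q, d p q ≤ 1 → d (g p) (g q) ≤ C₁) →
        (∀ p q, d p q ≤ 1 → d (g.symm p) (g.symm q) ≤ C₁) →
          ∀ x y, d (g x) (g y) ≤ d x y + C₂ := by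
  refine ⟨2 * (C₁ * (C₁ + C + C)) + 4 * C' + 5 + 3 * C + 2 * (C₁ + C), 12, ?_⟩
  intro V _ d D pos g hP hD hH hL hLin hg hg' x y
  classical
  obtain ⟨h, hh⟩ : ∃ h : ℕ, h = D / 2 - 5 := ⟨_, rfl⟩
  rw [← hh] at hL
  have hh1 : 1 ≤ h := by omega
  have hm : (0 : ℤ) < 4 * (h : ℤ) := by
    have : (1 : ℤ) ≤ (h : ℤ) := by exact_mod_cast hh1
    linarith
  obtain ⟨m, hmm⟩ : ∃ m : ℤ, m = 4 * (h : ℤ) := ⟨_, rfl⟩
  have hup := hL.upper
  have hlo := hL.lower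
  rw [← hmm] at hup hlo hm
  obtain ⟨γ, hγ0, hγ1, hγ2⟩ := hP.path x y
  obtain ⟨k, hk⟩ : ∃ k : ℕ, k = d x y := ⟨_, rfl⟩
  rw [← hk] at hγ1 hγ2 ⊢
  obtain ⟨k', hk'⟩ : ∃ k' : ℕ, k' = d (g x) (g y) := ⟨_, rfl⟩
  rw [← hk']
  obtain ⟨s, hs⟩ : ∃ s : ℕ, s = C₁ + C := ⟨_, rfl⟩
  obtain ⟨c₀, hc₀⟩ : ∃ c₀ : ℕ, c₀ = C₁ * (C₁ + C + C) := ⟨_, rfl⟩
  rw [← hc₀, ← hs]
  by_contra hcon
  push Not at hcon
  -- the lift
  have hstep : ∀ i, i < k → cyc m (pos (g (γ (i + 1))) - pos (g (γ i))) ≤ (s : ℤ) := by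
    intro i hi
    have h1 := hlo (g (γ (i + 1))) (g (γ i))
    have h2 := hg _ _ (hγ2 i hi)
    rw [hP.symm] at h1
    have h3 : ((d (g (γ i)) (g (γ (i + 1))) : ℕ) : ℤ) ≤ (C₁ : ℤ) := by exact_mod_cast h2
    have h4 : (s : ℤ) = (C₁ : ℤ) + (C : ℤ) := by exact_mod_cast hs
    linarith
  obtain ⟨P, hP0, hP1, hP2⟩ := exists_lift hm (fun i => pos (g (γ i))) k s hstep
  have hPk : (k' : ℤ) ≤ |P k - P 0| + C := by
    obtain ⟨j, hj⟩ := hP1 k le_rfl
    have h1 := hup (g y) (g x)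
    rw [hP.symm, ← hk'] at h1
    have h2 := cyc_le hm (pos (g y) - pos (g x)) j
    have h3 : P k - P 0 = pos (g y) - pos (g x) + j * m := by
      rw [hj, hP0, hγ1, hγ0]
      ring
    rw [← h3] at h2
    linarith
  obtain ⟨a, ha⟩ : ∃ a : ℤ, a = min (P 0) (P k) := ⟨_, rfl⟩
  obtain ⟨l, hl⟩ : ∃ l : ℤ, l = (k' : ℤ) - C := ⟨_, rfl⟩
  have hmax : a + l ≤ max (P 0) (P k) := by
    rw [ha]
    rcases le_total (P 0) (P k) with h1 | h1
    · rw [min_eq_left h1, max_eq_right h1]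
      rw [abs_of_nonneg (by linarith)] at hPk
      linarith
    · rw [min_eq_right h1, max_eq_left h1]
      rw [abs_of_nonpos (by linarith)] at hPk
      linarith
  have hconZ : (k : ℤ) + (2 * c₀ + 4 * C' + 5 + 3 * C + 2 * s) < k' := by exact_mod_cast hcon
  have hc0n : (0 : ℤ) ≤ (c₀ : ℤ) := Int.natCast_nonneg _
  have hC'n : (0 : ℤ) ≤ (C' : ℤ) := Int.natCast_nonneg _
  have hCn : (0 : ℤ) ≤ (C : ℤ) := Int.natCast_nonneg _
  have hsn : (0 : ℤ) ≤ (s : ℤ) := Int.natCast_nonneg _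
  have hkn : (0 : ℤ) ≤ (k : ℤ) := Int.natCast_nonneg _
  obtain ⟨e, he⟩ : ∃ e : ℤ, e = l / 2 := ⟨_, rfl⟩
  have he1 : 2 * e ≤ l := by omega
  have he2 : l ≤ 2 * e + 1 := by omega
  -- the middle
  obtain ⟨i₀, hi₀, hi₁⟩ := ivt P k s hsn hP2 (a + e) (by rw [← ha]; omega) (by omega)
  obtain ⟨r, hr⟩ : ∃ r : ℕ, (r : ℤ) = e - 1 - C - s := ⟨(e - 1 - C - s).toNat, by omega⟩
  have hmap : ∀ w, d (g (γ i₀)) w ≤ r → d (γ (k / 2)) (g.symm w) ≤ k / 2 + 1 + c₀ := by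
    intro w hw
    obtain ⟨k₁, hk₁⟩ := cyc_exists hm (pos w - pos (g (γ i₀)))
    have h1 := hlo w (g (γ i₀))
    rw [hk₁, hP.symm] at h1
    obtain ⟨j, hj⟩ := hP1 i₀ hi₀
    have hj' : P i₀ = pos (g (γ i₀)) + j * m := hj
    have hw' : ((d (g (γ i₀)) w : ℕ) : ℤ) ≤ (r : ℤ) := by exact_mod_cast hw
    obtain ⟨t, ht⟩ : ∃ t : ℤ, t = pos w + (k₁ + j) * m := ⟨_, rfl⟩
    have h2 : t - P i₀ = pos w - pos (g (γ i₀)) + k₁ * m := by
      rw [ht, hj']
      ring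
    rw [← h2] at h1
    have h3 := abs_le.1 (h1.trans (add_le_add_left hw' _))
    have h4 := abs_le.1 hi₁
    obtain ⟨i, hi, hi2⟩ := ivt P k s hsn hP2 t (by rw [← ha]; omega) (by omega)
    obtain ⟨j', hj2⟩ := hP1 i hi
    have hj3 : P i = pos (g (γ i)) + j' * m := hj2
    have h5 := cyc_le hm (pos (g (γ i)) - pos w) (j' - (k₁ + j))
    have h6 : pos (g (γ i)) - pos w + (j' - (k₁ + j)) * m = P i - t := by
      rw [hj3, ht]
      ring
    rw [h6] at h5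
    have h7 := hup (g (γ i)) w
    have h8 : d (g (γ i)) w ≤ s + C := by
      have : ((d (g (γ i)) w : ℕ) : ℤ) ≤ (s : ℤ) + C := by linarith
      exact_mod_cast this
    have h9 := rig_lip hP g.symm C₁ hg' (g (γ i)) w
    rw [Equiv.symm_apply_apply] at h9
    have h10 : d (γ i) (g.symm w) ≤ c₀ := by
      refine h9.trans ?_
      rw [hc₀]
      apply Nat.mul_le_mul_left
      omega
    have h11 : d (γ (k / 2)) (γ i) ≤ k / 2 + 1 := by
      rcases le_total (k / 2) i with h12 | h12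
      · have h13 := rig_path hP γ k hγ2 (k / 2) i h12 hi
        omega
      · have h13 := rig_path hP γ k hγ2 i (k / 2) h12 (by omega)
        rw [hP.symm]
        omega
    have h12 := hP.tri (γ (k / 2)) (γ i) (g.symm w)
    omega
  have hvol : vol d (g (γ i₀)) r ≤ vol d (γ (k / 2)) (k / 2 + 1 + c₀) := by
    unfold vol
    apply card_le_card_of_injOn (fun w => g.symm w)
    · intro w hw
      have h1 : d (g (γ i₀)) w ≤ r := by simpa using hw
      have h2 := hmap w h1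
      simpa using h2
    · intro w _ w' _ hww
      exact g.symm.injective hww
  have hkD : k' ≤ D := by
    rw [hk']
    exact hD.2 _ _
  have hrD : r ≤ D := by
    have h1 : ((k' : ℕ) : ℤ) ≤ (D : ℤ) := by exact_mod_cast hkD
    have h2 : (r : ℤ) ≤ (D : ℤ) := by omega
    exact_mod_cast h2
  have h1 := hLin.lo (g (γ i₀)) r hrD
  have h2 := hLin.up (γ (k / 2)) (k / 2 + 1 + c₀)
  have h3 : D * vol d (g (γ i₀)) r ≤ D * vol d (γ (k / 2)) (k / 2 + 1 + c₀) :=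
    Nat.mul_le_mul_left _ hvol
  have hn : 0 < Fintype.card V := Fintype.card_pos_iff.2 ⟨x⟩
  have h4 : r * Fintype.card V ≤ (k / 2 + 1 + c₀ + C' + C') * Fintype.card V := by
    have : (k / 2 + 1 + c₀ + C' + C') * Fintype.card V =
        (k / 2 + 1 + c₀ + C') * Fintype.card V + C' * Fintype.card V := by ring
    rw [this]
    omega
  have h5 : r ≤ k / 2 + 1 + c₀ + C' + C' := Nat.le_of_mul_le_mul_right h4 hn
  omega

end Pool.Agent.WDB
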