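import Pool.Agent.WDB.Cyc

set_option autoImplicit false

/-!
# WB-Side: the two sides of a point on a loop

The side of `z` seen from `x` is given by the half circle which contains `pos z - pos x`.
-/

namespace Pool.Agent.WDB

variable {V : Type} {d : V → V → ℕ}

private theorem emod_of_eq {m s t k : ℤ} (h : s = t + m * k) (h0 : 0 ≤ t) (h1 : t < m) :
    s % m = t := by
  rw [h, Int.add_mul_emod_self_left]
  exact Int.emod_eq_of_lt h0 h1

private theorem side_pos {h C : ℕ} (hh : 0 < h) {pos : V → ℤ} (hL : Loop d h C pos) (x z : V) :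
    ∃ t q : ℤ, (pos z - pos x) % (4 * h) = t ∧ pos z - pos x = t + 4 * h * q ∧ 0 ≤ t ∧
      t < 4 * h ∧ (d x z : ℤ) ≤ min t (4 * h - t) + C ∧ min t (4 * h - t) ≤ (d x z : ℤ) + C := by
  have hm : (0 : ℤ) < 4 * h := by omega
  have h1 := hL.upper x z
  have h2 := hL.lower x z
  rw [← neg_sub (pos z) (pos x), cyc_neg hm] at h1 h2
  refine ⟨(pos z - pos x) % (4 * h), (pos z - pos x) / (4 * h), rfl, ?_,
    Int.emod_nonneg _ hm.ne', Int.emod_lt_of_pos _ hm, h1, h2⟩
  exact (Int.emod_add_mul_ediv _ _).symm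

theorem sided_of_loop (hs : ∀ x y, d x y = d y x) {h C : ℕ} (hh : 0 < h) {pos : V → ℤ}
    (hL : Loop d h C pos) : ∃ side : V → V → Bool, Sided d h (3 * C + 2) side := by
  classical
  have hm : (0 : ℤ) < 4 * h := by omega
  refine ⟨fun x z => decide ((pos z - pos x) % (4 * h) < 2 * h), ⟨?_, ?_, ?_, ?_⟩⟩
  · intro x z h1 h2
    obtain ⟨t, q, e1, e2, e3, e4, e5, e6⟩ := side_pos hh hL x z
    have e7 : (pos x - pos z) % (4 * h) = 4 * h - t := by
      refine emod_of_eq (k := -q - 1) ?_ (by omega) (by omega)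
      linear_combination -e2
    simp only [e1, e7]
    rw [← decide_not, decide_eq_decide]
    omega
  · intro x z z' h1 h2 h3 h4
    obtain ⟨t, q, e1, e2, e3, e4, e5, e6⟩ := side_pos hh hL x z
    obtain ⟨s, r, f1, f2, f3, f4, f5, f6⟩ := side_pos hh hL x z'
    simp only [e1, f1, decide_eq_decide] at h4
    have g1 := hL.upper z z'
    have g2 : cyc (4 * h) (pos z - pos z') = cyc (4 * h) (t - s) := by
      refine cyc_congr hm (k := q - r) ?_
      linear_combination e2 - f2
    have g3 := cyc_le_abs hm (t - s)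
    rw [g2] at g1
    have g4 : |t - s| ≤ (d x z' : ℤ) - d x z + 2 * C := by
      rw [abs_le]
      omega
    omega
  · intro x x' z h1 h2 h3
    obtain ⟨t, q, e1, e2, e3, e4, e5, e6⟩ := side_pos hh hL x z
    obtain ⟨k, hk⟩ := cyc_exists hm (pos x - pos x')
    have g1 := hL.lower x x'
    obtain ⟨δ, hδ⟩ : ∃ δ, δ = pos x - pos x' + k * (4 * h) := ⟨_, rfl⟩
    rw [← hδ] at hk
    have g2 : |δ| ≤ C + 1 := by
      rw [← hk]
      omega
    rw [abs_le] at g2
    have e7 : (pos z - pos x') % (4 * h) = t + δ := by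
      refine emod_of_eq (k := q - k) ?_ (by omega) (by omega)
      linear_combination e2 - hδ
    simp only [e1, e7, decide_eq_decide]
    omega
  · intro x y z r h1 h2 h3
    have g1 := hL.upper x y
    have g2 := hL.upper y z
    have g3 := hL.upper x z
    have g4 := cyc_three hm (pos x) (pos y) (pos z)
    omega

end Pool.Agent.WDB
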