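import Pool.Agent.WDB.Seq
import Pool.Agent.WDB.Rig
import Pool.Agent.WDB.Side
import Pool.Agent.WDB.NoOw

set_option autoImplicit false

/-!
# There is no world of high precision
-/

namespace Pool.Agent.WDB

open Finset Pool.Agent.WD

/-- worlds are monotone in the constants -/
def worldMono {V : Type} [Fintype V] [DecidableEq V] {K K' ε ε' : ℝ} (w : World V K ε)
    (hK : K ≤ K') (hε : ε ≤ ε') : World V K' ε' where
  lam := w.lam
  nonneg := w.nonneg
  le_one := w.le_one
  self := w.self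
  symm := w.symm
  w1 x s h1 h2 := (w.w1 x s h1 h2).trans (mul_le_mul_of_nonneg_right hε (by positivity))
  w2 x y := (w.w2 x y).trans
    (add_le_add (mul_le_mul_of_nonneg_right hK (w.nonneg x y)) hε)
  w3 S h1 h2 := by
    obtain ⟨x, hx, y, hy, hxy⟩ := w.w3 S h1 h2
    exact ⟨x, hx, y, hy, hxy.trans hε⟩
  w4 x y := by
    obtain ⟨g, h1, h2, h3⟩ := w.w4 x y
    exact ⟨g, h1.trans hε, fun p q => (h2 p q).trans hε, fun p => (h3 p).trans hε⟩
  w5 x y x' y' := by
    obtain ⟨g, h1, h2, h3⟩ := w.w5 x y x' y'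
    have h4 : K * |w.lam x y - w.lam x' y'| + ε ≤ K' * |w.lam x y - w.lam x' y'| + ε' :=
      add_le_add (mul_le_mul_of_nonneg_right hK (abs_nonneg _)) hε
    exact ⟨g, fun p q => (h1 p q).trans h4, fun p => (h2 p).trans h4,
      h3.imp (fun h => ⟨h.1.trans h4, h.2.trans h4⟩) fun h => ⟨h.1.trans h4, h.2.trans h4⟩⟩
  w6 := by
    obtain ⟨x, y, z, h1, h2, h3⟩ := w.w6
    exact ⟨x, y, z, by linarith, by linarith, by linarith⟩

theorem sided_mono {V : Type} {d : V → V → ℕ} {h C C' : ℕ} {side : V → V → Bool}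
    (hS : Sided d h C side) (hC : C ≤ C') : Sided d h C' side where
  anti x z h1 h2 := hS.anti x z (by omega) (by omega)
  same x z z' h1 h2 h3 h4 := by
    have := hS.same x z z' (by omega) h2 (by omega) h4
    omega
  move x x' z h1 h2 h3 := hS.move x x' z h1 (by omega) (by omega)
  top x y z r h1 h2 h3 := by
    have := hS.top x y z r h1 h2 h3
    omega

theorem lip_of_rigid {V : Type} [Fintype V] [DecidableEq V] {K ε : ℝ} (w : World V K ε)
    (hK : 1 ≤ K) (hε : 0 < ε) {η : ℝ} (hη : 200 * K * ε ≤ η) {C C₂ : ℕ}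
    (hm : ∀ p q, rho w.lam p q ≤ 2 * η → dG w.lam η p q ≤ C)
    (hr : ∀ g : Equiv.Perm V, (∀ p q, dG w.lam η p q ≤ 1 → dG w.lam η (g p) (g q) ≤ C) →
      (∀ p q, dG w.lam η p q ≤ 1 → dG w.lam η (g.symm p) (g.symm q) ≤ C) →
        ∀ x y, dG w.lam η (g x) (g y) ≤ dG w.lam η x y + C₂)
    (x y x' y' : V) (h : |w.lam x y - w.lam x' y'| ≤ η / (2 * K)) :
    dG w.lam η x y ≤ dG w.lam η x' y' + (C₂ + 2) := by
  have hε2 : 2 * ε ≤ η := by nlinarith
  have hεη : ε ≤ η := by linarith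
  obtain ⟨g, h1, -, h3⟩ := w.w5 x' y' x y
  rw [abs_sub_comm] at h
  have h4 : K * |w.lam x' y' - w.lam x y| + ε ≤ η := by
    have h5 : K * |w.lam x' y' - w.lam x y| ≤ K * (η / (2 * K)) :=
      mul_le_mul_of_nonneg_left h (by linarith)
    have h6 : K * (η / (2 * K)) = η / 2 := by
      field_simp
    linarith
  have h5 : ∀ p q, |rho w.lam (g p) (g q) - rho w.lam p q| ≤ η := fun p q => (h1 p q).trans h4
  have hP := pm_dG w hεη
  have h6 := hr g
    (fun p q hpq => hm _ _ (by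
      have := abs_le.mp (h5 p q)
      have := (dG_le_one w hεη p q).mp hpq
      linarith))
    (fun p q hpq => hm _ _ (by
      have := abs_le.mp (iso_symm w.lam h5 p q)
      have := (dG_le_one w hεη p q).mp hpq
      linarith)) x' y'
  have h7 : ∀ p q, rho w.lam p q ≤ K * |w.lam x' y' - w.lam x y| + ε → dG w.lam η p q ≤ 1 :=
    fun p q hpq => (dG_le_one w hεη p q).mpr (hpq.trans h4)
  rcases h3 with ⟨ha, hb⟩ | ⟨ha, hb⟩
  · have ha' := h7 _ _ ha
    have hb' := h7 _ _ hb
    have t1 := hP.tri x (g x') y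
    have t2 := hP.tri (g x') (g y') y
    have t3 := hP.symm x (g x')
    omega
  · have ha' := h7 _ _ ha
    have hb' := h7 _ _ hb
    have t1 := hP.tri x (g y') y
    have t2 := hP.tri (g y') (g x') y
    have t3 := hP.symm x (g y')
    have t4 := hP.symm (g y') (g x')
    omega

theorem no_world (K : ℝ) : ∃ e₀ : ℝ, 0 < e₀ ∧
    ∀ (V : Type) [Fintype V] [DecidableEq V] (e : ℝ), e ≤ e₀ → IsEmpty (World V K e) := by
  obtain ⟨K', hK'⟩ : ∃ K', K' = max K 1 := ⟨_, rfl⟩
  have hK1 : 1 ≤ K' := hK' ▸ le_max_right _ _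
  have hKK : K ≤ K' := hK' ▸ le_max_left _ _
  obtain ⟨C, hgood⟩ := good_scale K' hK1
  obtain ⟨C₂, H₂, hrig⟩ := rigid C C C
  obtain ⟨F, hF⟩ : ∃ F, F = 3 * C + 2 + (C₂ + 2) := ⟨_, rfl⟩
  have hF1 : 1 ≤ F := by omega
  obtain ⟨H, hno⟩ := no_ow K' hK1 F hF1
  obtain ⟨ηm, ε₁, hηm, hε₁, hex⟩ := hgood (2 * H + H₂ + 100)
  have hF0 : (0 : ℝ) < F := by exact_mod_cast hF1
  refine ⟨min (min ε₁ (1 / 1000)) (1 / (3200 * F * K') * ηm), by positivity, ?_⟩
  intro V _ _ e he
  refine ⟨fun w₀ => ?_⟩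
  set ε := min (min ε₁ (1 / 1000)) (1 / (3200 * F * K') * ηm) with hεdef
  have hε0 : 0 < ε := by positivity
  have hε1 : ε ≤ ε₁ := (min_le_left _ _).trans (min_le_left _ _)
  have hε2 : ε ≤ 1 / 1000 := (min_le_left _ _).trans (min_le_right _ _)
  have hε3 : ε ≤ 1 / (3200 * F * K') * ηm := min_le_right _ _
  have w : World V K' ε := worldMono w₀ hKK he
  obtain ⟨η, D, pos, hη, hHD, hG⟩ := hex V ε w hε0 hε1
  have hη0 : 0 < η := by linarith
  have hsm := hG.small
  have hεη : ε ≤ η := by nlinarith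
  have hP := pm_dG w hεη
  obtain ⟨h, hh⟩ : ∃ h, h = D / 2 - 5 := ⟨_, rfl⟩
  have hloop := hG.loop
  rw [← hh] at hloop
  obtain ⟨side, hside⟩ := sided_of_loop hP.symm (by omega) hloop
  refine hno V w.lam (dG w.lam η) side ε η h ?_ (by omega) ?_
  · exact hε3.trans (mul_le_mul_of_nonneg_left hη (by positivity))
  obtain ⟨p, q, hpq⟩ := hG.diam.1
  exact
    { hK := hK1
      hC := hF1
      heps := hε0
      heta := hsm
      hbig := by
        have h1 := diam_large w hε2 hεη hη0 hG.diam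
        have h2 : 2 * D ≤ 5 * h := by omega
        have h3 : (2 * D : ℝ) ≤ 5 * h := by exact_mod_cast h2
        nlinarith
      self := w.self
      nonneg := w.nonneg
      le_one := w.le_one
      symm := w.symm
      w1 := w.w1
      w3 := w.w3
      top := w.w6
      pm := hP
      near := fun x y hxy => (dG_le_one w hεη x y).mpr hxy
      rle := rho_le_dG w hεη
      diam := ⟨p, q, by omega⟩
      vol := vol_dG_up w hK1 hε0 hsm hG.le_one
      hom := fun x y => by
        obtain ⟨g, h1, h2, h3⟩ := w.w4 x y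
        refine ⟨g, h1, h3, fun p q => ⟨?_, ?_⟩⟩
        · exact (hG.sel _ _).trans (Nat.add_le_add_right (dG_iso w hεη h2 p q) 4)
        · refine (hG.sel _ _).trans (Nat.add_le_add_right ?_ 4)
          have h4 := dG_iso w hεη (iso_symm w.lam h2) (g p) (g q)
          simpa using h4
      lip := fun x y x' y' hxy => by
        have h1 := lip_of_rigid w hK1 hε0 hsm hG.merge
          (fun g hg1 hg2 => hrig V (dG w.lam η) D pos g hP hG.diam (by omega) hG.loop hG.lin
            hg1 hg2) x y x' y' hxy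
        omega
      sided := sided_mono hside (by omega) }

end Pool.Agent.WDB
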