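import Pool.Agent.WDB.Shell

set_option autoImplicit false

/-!
# WB-Add: the volume of balls is additive up to a constant

`m = 4 h`, `h = D / 2 - 5`, so `m + 22 ≥ 2 D` (`D ≤ 2 h + 11`).

(1) Shells: `shell`.

(2) Upper bound: by `Loop.surj` choose `y` with `cyc (pos y - (pos x + s)) ≤ C` and `z` with `cyc (pos z - (pos x - r)) ≤ C`. For
`w` with `d x w ≤ r + s` let `t` be a representative of `pos w - pos x` modulo `m` with `|t| ≤ r + s + C` (`cyc_exists`). If `t ≥ s - r` then
`|t - s| ≤ r + C`, so `d w y ≤ r + 3 C`; otherwise `|t + r| ≤ s + C` and `d w z ≤ s + 3 C`. So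
`vol x (r + s) ≤ vol y (r + 3 C) + vol z (s + 3 C) ≤ vol x (r + 3 C + 5) + vol x (s + 3 C + 5)` (`vol_transfer`), then (1).

(3) Lower bound (`r + s ≤ D`), `q = 3 C + 12`: if `r ≥ q` and `s ≥ q`, the balls of radius `r - q` around `y` and `s - q` around `z` are
disjoint and contained in the ball of radius `r + s` around `x`. Containment: representative `t` of `pos w - pos x` with
`|t - s| ≤ r - q + 2 C`, so `|t| ≤ r + s - q + 2 C` and `d x w ≤ r + s - q + 3 C`. Disjoint: `|t - s| ≤ r - q + 2 C`, `|t' + r| ≤ s - q + 2 C`,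
`t' - t = k m`: `t' < t` since `q > 2 C`, so `t - t' ≥ m = 4 h`, but `t - t' ≤ 2 (r + s) - 2 q + 4 C ≤ 2 D - 2 q + 4 C ≤ 4 h + 22 - 2 q + 4 C`.
Then `vol_transfer` and (1) again; if `r < q` then `vol x r ≤ A (q + 1) β` and `vol x s ≤ vol x (r + s)`.
-/

namespace Pool.Agent.WDB

open Finset

section

variable {V : Type} [Fintype V] {d : V → V → ℕ} {A β : ℝ} {h C : ℕ} {pos : V → ℤ}

/-- the distance from a point near `pos x + e` -/
private theorem near_le (hL : Loop d h C pos) (hm : (0 : ℤ) < 4 * h) {x y w : V} {e : ℤ}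
    (hy : cyc (4 * h) (pos y - (pos x + e)) ≤ C) {k t : ℤ} (ht : t = pos w - pos x + k * (4 * h)) :
    (d y w : ℤ) ≤ |t - e| + 2 * C := by
  have h1 := hL.upper y w
  have h2 := cyc_tri hm (pos y - (pos x + e)) (pos x + e - pos w)
  have h3 : pos y - (pos x + e) + (pos x + e - pos w) = pos y - pos w := by ring
  rw [h3] at h2
  have h4 : cyc (4 * h) (pos x + e - pos w) = cyc (4 * h) (pos w - pos x - e) := by
    rw [← cyc_neg hm]
    congr 1
    ring
  have h5 := cyc_le hm (pos w - pos x - e) k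
  have h6 : pos w - pos x - e + k * (4 * h) = t - e := by rw [ht]; ring
  rw [h6] at h5
  omega

/-- representatives of the points near `pos x + e` -/
private theorem near_ex (hG : PM V d) (hL : Loop d h C pos) (hm : (0 : ℤ) < 4 * h) {x y w : V}
    {e : ℤ} (hy : cyc (4 * h) (pos y - (pos x + e)) ≤ C) :
    ∃ k t : ℤ, t = pos w - pos x + k * (4 * h) ∧ |t - e| ≤ d y w + 2 * C := by
  have h1 := hL.lower w y
  rw [hG.symm w y] at h1
  have h2 := cyc_tri hm (pos w - pos y) (pos y - (pos x + e))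
  have h3 : pos w - pos y + (pos y - (pos x + e)) = pos w - pos x - e := by ring
  rw [h3] at h2
  obtain ⟨k, hk⟩ := cyc_exists hm (pos w - pos x - e)
  refine ⟨k, pos w - pos x + k * (4 * h), rfl, ?_⟩
  have h4 : pos w - pos x + k * (4 * h) - e = pos w - pos x - e + k * (4 * h) := by ring
  rw [h4, ← hk]
  omega

private theorem upper_add (hG : Geo V d A β) (hL : Loop d h C pos) (hh : 0 < h) (x : V)
    (r s : ℕ) : ∃ y z : V, vol d x (r + s) ≤ vol d y (r + 3 * C) + vol d z (s + 3 * C) := by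
  classical
  have hm : (0 : ℤ) < 4 * h := by omega
  obtain ⟨y, hy⟩ := hL.surj (pos x + s)
  obtain ⟨z, hz⟩ := hL.surj (pos x + (-(r : ℤ)))
  refine ⟨y, z, ?_⟩
  unfold vol
  refine le_trans (card_le_card ?_) (card_union_le _ _)
  intro w hw
  rw [mem_filter] at hw
  rw [mem_union, mem_filter, mem_filter]
  have hx : cyc (4 * h) (pos x - (pos x + 0)) ≤ 0 := by
    have h1 := cyc_le_abs hm (pos x - (pos x + 0))
    have h2 : pos x - (pos x + 0) = 0 := by ring
    rw [h2, abs_zero] at h1
    rw [h2]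
    exact h1
  obtain ⟨k, hk⟩ := cyc_exists hm (pos w - pos x)
  obtain ⟨t, ht⟩ : ∃ t : ℤ, t = pos w - pos x + k * (4 * h) := ⟨_, rfl⟩
  have h1 := hL.lower w x
  rw [hG.symm w x, hk, ← ht] at h1
  have h2 := hw.2
  have ht1 : |t| ≤ r + s + C := by omega
  rw [abs_le] at ht1
  rcases le_or_gt ((s : ℤ) - r) t with hc | hc
  · left
    refine ⟨mem_univ _, ?_⟩
    have h3 := near_le hL hm hy ht
    have h4 : |t - s| ≤ r + C := by
      rw [abs_le]
      constructor <;> omega
    omega
  · right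
    refine ⟨mem_univ _, ?_⟩
    have h3 := near_le hL hm hz ht
    have h4 : |t - -(r : ℤ)| ≤ s + C := by
      rw [abs_le]
      constructor <;> omega
    omega

private theorem lower_add (hG : Geo V d A β) (hL : Loop d h C pos) (hh : 0 < h) {D : ℕ}
    (hD : D ≤ 2 * h + 11) (x : V) {r s : ℕ} (hrs : r + s ≤ D) (hr : 3 * C + 12 ≤ r)
    (hs : 3 * C + 12 ≤ s) : ∃ y z : V,
    vol d y (r - (3 * C + 12)) + vol d z (s - (3 * C + 12)) ≤ vol d x (r + s) := by
  classical
  have hm : (0 : ℤ) < 4 * h := by omega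
  obtain ⟨y, hy⟩ := hL.surj (pos x + s)
  obtain ⟨z, hz⟩ := hL.surj (pos x + (-(r : ℤ)))
  refine ⟨y, z, ?_⟩
  have hxw : ∀ (w : V) (k t : ℤ), t = pos w - pos x + k * (4 * h) →
      |t| ≤ r + s - C → d x w ≤ r + s := by
    intro w k t ht h1
    have h2 := hL.upper x w
    have h3 := cyc_le hm (pos w - pos x) k
    rw [← ht] at h3
    have h4 : cyc (4 * h) (pos x - pos w) = cyc (4 * h) (pos w - pos x) := by
      rw [← cyc_neg hm]
      congr 1
      ring
    omega
  have hdisj : Disjoint (univ.filter fun w => d y w ≤ r - (3 * C + 12))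
      (univ.filter fun w => d z w ≤ s - (3 * C + 12)) := by
    rw [Finset.disjoint_left]
    intro w hw1 hw2
    rw [mem_filter] at hw1 hw2
    obtain ⟨k, t, ht, h1⟩ := near_ex (w := w) hG.toPM hL hm hy
    obtain ⟨k', t', ht', h1'⟩ := near_ex (w := w) hG.toPM hL hm hz
    have h2 := hw1.2
    have h2' := hw2.2
    rw [abs_le] at h1 h1'
    have h3 : 0 < t - t' := by omega
    have h4 : t - t' = (k - k') * (4 * h) := by rw [ht, ht']; ring
    have h5 : 1 ≤ k - k' := by
      by_contra hcon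
      have h6 : k - k' ≤ 0 := by omega
      have h7 : (k - k') * (4 * h) ≤ 0 := mul_nonpos_of_nonpos_of_nonneg h6 hm.le
      omega
    have h6 : 1 * (4 * (h : ℤ)) ≤ (k - k') * (4 * h) := mul_le_mul_of_nonneg_right h5 hm.le
    omega
  unfold vol
  rw [← card_union_of_disjoint hdisj]
  refine card_le_card ?_
  intro w hw
  rw [mem_union, mem_filter, mem_filter] at hw
  rw [mem_filter]
  refine ⟨mem_univ _, ?_⟩
  rcases hw with hw | hw
  · obtain ⟨k, t, ht, h1⟩ := near_ex (w := w) hG.toPM hL hm hy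
    have h2 := hw.2
    refine hxw w k t ht ?_
    rw [abs_le] at h1 ⊢
    constructor <;> omega
  · obtain ⟨k, t, ht, h1⟩ := near_ex (w := w) hG.toPM hL hm hz
    have h2 := hw.2
    refine hxw w k t ht ?_
    rw [abs_le] at h1 ⊢
    constructor <;> omega

end

theorem vol_add (A : ℝ) (C : ℕ) : ∃ (c : ℝ) (H : ℕ), 0 ≤ c ∧
    ∀ (V : Type) [Fintype V] (d : V → V → ℕ) (β : ℝ) (D : ℕ) (pos : V → ℤ),
      Geo V d A β → IsDiam d D → H ≤ D → Loop d (D / 2 - 5) C pos →
        ∀ x r s, r + s ≤ D → |(vol d x (r + s) : ℝ) - vol d x r - vol d x s| ≤ c * β := by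
  refine ⟨|A| * (27 * C + 84), 12, by positivity, ?_⟩
  intro V _ d β D pos hG _ hH hL x r s hrs
  have hβ := hG.pos
  have hA1 : 1 ≤ A := by
    have h1 := hG.lower x
    have h2 := hG.upper x 1 le_rfl
    by_contra hcon
    rw [not_le] at hcon
    have h3 : A * (1 : ℕ) * β < 1 * β := by
      rw [Nat.cast_one, mul_one]
      exact mul_lt_mul_of_pos_right hcon hβ
    linarith
  have hA0 : 0 ≤ A := by linarith
  rw [abs_of_nonneg hA0]
  have hAβ : 0 ≤ A * β := by positivity
  have hC0 : (0 : ℝ) ≤ C := Nat.cast_nonneg C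
  have hACβ : 0 ≤ A * β * C := by positivity
  have hh : 0 < D / 2 - 5 := by omega
  have hD2 : D ≤ 2 * (D / 2 - 5) + 11 := by omega
  have hsh : ∀ (v : V) (k c : ℕ), (vol d v (k + c) : ℝ) ≤
      vol d v k + 2 * (A * (c + 3 * C + 1) * β) := fun v k c => shell hG hh hL v k c
  have htr : ∀ (v w : V) (k : ℕ), (vol d v k : ℝ) ≤ vol d w (k + 5) := fun v w k => by
    exact_mod_cast vol_transfer hG v w k
  rw [abs_le]
  constructor
  · by_cases hr : 3 * C + 12 ≤ r
    · by_cases hs : 3 * C + 12 ≤ s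
      · obtain ⟨y, z, hyz⟩ := lower_add hG hL hh hD2 x hrs hr hs
        have hyz' : (vol d y (r - (3 * C + 12)) : ℝ) + vol d z (s - (3 * C + 12)) ≤
            vol d x (r + s) := by exact_mod_cast hyz
        have h1 := htr x y r
        have h2 := htr x z s
        have h3 := hsh y (r - (3 * C + 12)) (3 * C + 12 + 5)
        have h4 := hsh z (s - (3 * C + 12)) (3 * C + 12 + 5)
        have e1 : r - (3 * C + 12) + (3 * C + 12 + 5) = r + 5 := by omega
        have e2 : s - (3 * C + 12) + (3 * C + 12 + 5) = s + 5 := by omega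
        rw [e1] at h3
        rw [e2] at h4
        push_cast at h3 h4
        nlinarith
      · have h1 : vol d x s ≤ vol d x (3 * C + 12) := vol_mono x (by omega)
        have h2 : vol d x r ≤ vol d x (r + s) := vol_mono x (by omega)
        have h3 := hG.upper x (3 * C + 12) (by omega)
        have h1' : (vol d x s : ℝ) ≤ vol d x (3 * C + 12) := by exact_mod_cast h1
        have h2' : (vol d x r : ℝ) ≤ vol d x (r + s) := by exact_mod_cast h2
        push_cast at h3
        nlinarith
    · have h1 : vol d x r ≤ vol d x (3 * C + 12) := vol_mono x (by omega)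
      have h2 : vol d x s ≤ vol d x (r + s) := vol_mono x (by omega)
      have h3 := hG.upper x (3 * C + 12) (by omega)
      have h1' : (vol d x r : ℝ) ≤ vol d x (3 * C + 12) := by exact_mod_cast h1
      have h2' : (vol d x s : ℝ) ≤ vol d x (r + s) := by exact_mod_cast h2
      push_cast at h3
      nlinarith
  · obtain ⟨y, z, hyz⟩ := upper_add hG hL hh x r s
    have hyz' : (vol d x (r + s) : ℝ) ≤ vol d y (r + 3 * C) + vol d z (s + 3 * C) := by
      exact_mod_cast hyz
    have h1 := htr y x (r + 3 * C)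
    have h2 := htr z x (s + 3 * C)
    have h3 := hsh x r (3 * C + 5)
    have h4 := hsh x s (3 * C + 5)
    have e1 : r + 3 * C + 5 = r + (3 * C + 5) := by omega
    have e2 : s + 3 * C + 5 = s + (3 * C + 5) := by omega
    rw [e1] at h1
    rw [e2] at h2
    push_cast at h3 h4
    nlinarith

end Pool.Agent.WDB
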