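import Pool.Agent.WDB.Gap

set_option autoImplicit false

/-!
# WB-ColLo: the low colour occurs at every distance

Put `τ = η / (2 K)` and `s = lam p q`.

`col_lo`: among all pairs `(u, v)` with `lam u v ≤ s` and `r + C ≤ d u v` (for instance `(p, q)`, as `r + C ≤ 2 h`) choose one with the
least level `s₁ = lam u v` (`Finset.exists_min_image`). `s₁ > τ`: otherwise `|lam u v - lam u u| ≤ τ` and `d u v ≤ 0 + C` by
`lip`, but `r ≥ 1`. Let `z` with `s₁ - τ < lam x z ≤ s₁ - τ / 4`: then `d u v ≤ d x z + C` (`lip`), so `r ≤ d x z`, and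
`lam x z < s₁ ≤ s`, so by the minimality `d x z < r + C`. The number of these `z` is at least `(3 τ / 4 - 2 ε) n ≥ τ / 2 n`
(`ow_count`).

`col_lo_wide`: disjoint shells `[r + i C, r + (i + 1) C)`, `i < J` (induction on `J`).
-/

namespace Pool.Agent.WDB

open Finset Pool.Agent.WD

variable {V : Type} [Fintype V] [DecidableEq V] {lam : V → V → ℝ} {d : V → V → ℕ}
  {side : V → V → Bool} {K ε η : ℝ} {h C : ℕ}

theorem col_lo (hW : Ow V lam d side K ε η h C) {p q : V} (hpq : 2 * h ≤ d p q) {r : ℕ}
    (hr : 4 * h + 6 * C < 3 * r) (hr' : r + C ≤ 2 * h) (x : V) :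
    η / (4 * K) * Fintype.card V ≤
      (univ.filter fun z => (r ≤ d x z ∧ d x z < r + C) ∧ lam x z < lam p q).card := by
  have hK := hW.hK
  have hK0 : 0 < K := by linarith
  have he := hW.heps
  have heta := hW.heta
  have hKe : ε ≤ K * ε := by nlinarith
  have hη : 0 < η := by nlinarith
  obtain ⟨τ, hτ⟩ : ∃ τ : ℝ, τ = η / (2 * K) := ⟨_, rfl⟩
  have hτK : τ * (2 * K) = η := by rw [hτ]; field_simp
  have hτ0 : 0 < τ := by rw [hτ]; positivity
  have hhalf : η / (4 * K) = τ / 2 := by rw [hτ]; field_simp; norm_num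
  have hτe : 100 * ε ≤ τ := by
    have h1 : 100 * ε * (2 * K) ≤ τ * (2 * K) := by rw [hτK]; linarith
    exact le_of_mul_le_mul_right h1 (by linarith)
  have hr1 : 1 ≤ r := by omega
  have hmem : (p, q) ∈ (univ : Finset (V × V)).filter
      (fun u => lam u.1 u.2 ≤ lam p q ∧ r + C ≤ d u.1 u.2) := by
    simp only [mem_filter, mem_univ, true_and]
    exact ⟨le_refl _, le_trans hr' hpq⟩
  obtain ⟨uv, huv, hmin⟩ := Finset.exists_min_image ((univ : Finset (V × V)).filter
      (fun u => lam u.1 u.2 ≤ lam p q ∧ r + C ≤ d u.1 u.2)) (fun u => lam u.1 u.2) ⟨_, hmem⟩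
  simp only [mem_filter, mem_univ, true_and] at huv hmin
  obtain ⟨u, v⟩ := uv
  simp only at huv hmin
  obtain ⟨hs1, hd1⟩ := huv
  have hgt : τ < lam u v := by
    by_contra hcon
    push Not at hcon
    have h1 : |lam u v - lam u u| ≤ η / (2 * K) := by
      rw [hW.self u, sub_zero, abs_of_nonneg (hW.nonneg u v), ← hτ]
      exact hcon
    have h2 := hW.lip u v u u h1
    rw [hW.pm.self u] at h2
    omega
  have hcount := ow_count hW x (s := lam u v - τ) (t := lam u v - τ / 4) (by linarith)
    (by linarith) (by linarith [hW.le_one u v])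
  have hsub : (univ.filter fun z => lam u v - τ < lam x z ∧ lam x z ≤ lam u v - τ / 4) ⊆
      (univ.filter fun z => (r ≤ d x z ∧ d x z < r + C) ∧ lam x z < lam p q) := by
    intro z hz
    simp only [mem_filter, mem_univ, true_and] at hz ⊢
    obtain ⟨hz1, hz2⟩ := hz
    have h1 : |lam u v - lam x z| ≤ η / (2 * K) := by
      rw [← hτ, abs_le]
      constructor <;> linarith
    have h2 := hW.lip u v x z h1
    refine ⟨⟨by omega, ?_⟩, by linarith⟩
    by_contra hcon
    push Not at hcon
    have h3 := hmin (x, z) ⟨by simp only; linarith, hcon⟩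
    simp only at h3
    linarith
  have hcard : ((univ.filter fun z => lam u v - τ < lam x z ∧ lam x z ≤ lam u v - τ / 4).card : ℝ)
      ≤ (univ.filter fun z => (r ≤ d x z ∧ d x z < r + C) ∧ lam x z < lam p q).card := by
    exact_mod_cast Finset.card_le_card hsub
  have hn : (0 : ℝ) ≤ Fintype.card V := by positivity
  rw [hhalf]
  have h5 : τ / 2 * (Fintype.card V : ℝ) ≤
      (lam u v - τ / 4 - (lam u v - τ) - 2 * ε) * Fintype.card V := by
    apply mul_le_mul_of_nonneg_right _ hn
    linarith
  linarith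

theorem col_lo_wide (hW : Ow V lam d side K ε η h C) {p q : V} (hpq : 2 * h ≤ d p q) {r : ℕ}
    (J : ℕ) (hr : 4 * h + 6 * C < 3 * r) (hr' : r + C * J ≤ 2 * h) (x : V) :
    J * (η / (4 * K) * Fintype.card V) ≤
      (univ.filter fun z => (r ≤ d x z ∧ d x z < r + C * J) ∧ lam x z < lam p q).card := by
  induction J with
  | zero => simp
  | succ J ih =>
    have hmul : C * (J + 1) = C * J + C := by ring
    have h1 := ih (by omega)
    have h2 := col_lo hW hpq (r := r + C * J) (by omega) (by omega) x
    have hdisj : Disjoint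
        (univ.filter fun z => (r ≤ d x z ∧ d x z < r + C * J) ∧ lam x z < lam p q)
        (univ.filter fun z => (r + C * J ≤ d x z ∧ d x z < r + C * J + C) ∧
          lam x z < lam p q) := by
      rw [Finset.disjoint_left]
      intro z hz hz'
      simp only [mem_filter, mem_univ, true_and] at hz hz'
      omega
    have hsub : (univ.filter fun z => (r ≤ d x z ∧ d x z < r + C * J) ∧ lam x z < lam p q) ∪
        (univ.filter fun z => (r + C * J ≤ d x z ∧ d x z < r + C * J + C) ∧
          lam x z < lam p q) ⊆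
        (univ.filter fun z => (r ≤ d x z ∧ d x z < r + C * (J + 1)) ∧ lam x z < lam p q) := by
      intro z hz
      simp only [mem_union, mem_filter, mem_univ, true_and] at hz ⊢
      rcases hz with ⟨⟨h3, h4⟩, h5⟩ | ⟨⟨h3, h4⟩, h5⟩
      · exact ⟨⟨h3, by rw [hmul]; omega⟩, h5⟩
      · exact ⟨⟨by omega, by rw [hmul]; omega⟩, h5⟩
    have hcard := Finset.card_le_card hsub
    rw [Finset.card_union_of_disjoint hdisj] at hcard
    have hcard' : ((univ.filter fun z => (r ≤ d x z ∧ d x z < r + C * J) ∧
          lam x z < lam p q).card : ℝ) +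
        (univ.filter fun z => (r + C * J ≤ d x z ∧ d x z < r + C * J + C) ∧
          lam x z < lam p q).card ≤
        (univ.filter fun z => (r ≤ d x z ∧ d x z < r + C * (J + 1)) ∧
          lam x z < lam p q).card := by
      exact_mod_cast hcard
    push_cast
    linarith

end Pool.Agent.WDB
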