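import Pool.Agent.WDB.Three

set_option autoImplicit false

/-!
# WB-Cross: near their common end the two long rays are two different directions

Rays `a, b` at the common end `e = A (2 h)`; `A h` is near `a h`, say, and then `B h` is near `b h`, the points
`A (2 h - s)` are near `a s` and the points `B (2 h - s')` are near `b s'`.
-/

namespace Pool.Agent.WDB

variable {V : Type} {d : V → V → ℕ}

private theorem cr_trunc (hP : PM V d) (e y : V) (h : ℕ) :
    ∃ y', d e y' = min h (d e y) ∧ d y' y = d e y - min h (d e y) := by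
  obtain ⟨γ, hγ, hγ2⟩ := hP.geod e y
  refine ⟨γ (min h (d e y)), ?_, ?_⟩
  · have h1 := hγ.dist 0 (min h (d e y)) (Nat.zero_le _) (min_le_right _ _)
    rw [hγ.zero, Nat.sub_zero] at h1
    exact h1
  · have h1 := hγ.dist (min h (d e y)) (d e y) (min_le_right _ _) le_rfl
    rw [hγ2] at h1
    exact h1

private theorem cr_ray {x : V} {h : ℕ} {a : ℕ → V} (ha : Ray d x h a) {i : ℕ} (hi : i ≤ h) :
    d x (a i) = i := by
  have h1 := ha.dist 0 i (Nat.zero_le _) hi
  rw [ha.zero, Nat.sub_zero] at h1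
  exact h1

private theorem cr_aux (hP : PM V d) {κ : ℕ} (hκ : 1 ≤ κ) (hN : NoTri d κ) {h c : ℕ}
    (hc : 2 * κ + 14 ≤ c) {x : V} {A B : ℕ → V} (hL : Lng d h c x A B)
    (hE : d (A (2 * h)) (B (2 * h)) ≤ 6 * c + 16) (hh : 100 * c + 1000 ≤ h) {a b : ℕ → V}
    (hab : Pair d (A (2 * h)) h a b)
    (hPa : d (A h) (a (d (A (2 * h)) (A h))) ≤ c) (s s' : ℕ)
    (hs : s ≤ h) (hs' : s' ≤ h) :
    s + s' ≤ d (A (2 * h - s)) (B (2 * h - s')) + (26 * c + 90) := by
  have hnear : ∀ y, d (A (2 * h)) y ≤ h →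
      d y (a (d (A (2 * h)) y)) ≤ c ∨ d y (b (d (A (2 * h)) y)) ≤ c := by
    intro y hy
    rcases near_ray hP hκ hN hab hy with h1 | h1
    · exact Or.inl (h1.trans hc)
    · exact Or.inr (h1.trans hc)
  -- distances to the point `A (2 h)`
  have hxe : 2 * h ≤ d x (A (2 * h)) + c := hL.loA (2 * h) le_rfl
  have hlo : ∀ y r, d x y ≤ r → 2 * h ≤ d (A (2 * h)) y + r + c := by
    intro y r hy
    have h1 := hP.tri x y (A (2 * h))
    have h2 := hP.symm y (A (2 * h))
    omega
  have hA1 : ∀ r, h ≤ r → r ≤ 2 * h → d (A (2 * h)) (A r) ≤ 2 * h - r := by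
    intro r _ hr
    have h1 := hL.lipA r (2 * h) hr le_rfl
    have h2 := hP.symm (A r) (A (2 * h))
    omega
  have hB1 : ∀ r, h ≤ r → r ≤ 2 * h → d (A (2 * h)) (B r) ≤ 6 * c + 16 + (2 * h - r) := by
    intro r _ hr
    have h1 := hL.lipB r (2 * h) hr le_rfl
    have h2 := hP.symm (B r) (B (2 * h))
    have h3 := hP.tri (A (2 * h)) (B (2 * h)) (B r)
    omega
  have hPQ := hL.cross h h le_rfl le_rfl
  -- `A h` is near `a h`
  have e1 := hA1 h le_rfl (by omega)
  have e2 := hlo (A h) h (hL.upA h (by omega))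
  have e3 : d (A h) (a h) ≤ 2 * c := by
    have h1 := hab.left.dist (d (A (2 * h)) (A h)) h (by omega) le_rfl
    have h2 := hP.tri (A h) (a (d (A (2 * h)) (A h))) (a h)
    omega
  -- `B h` is near `b h`
  have e4 := hB1 h le_rfl (by omega)
  have e5 := hlo (B h) h (hL.upB h (by omega))
  have e6 : d (B h) (b h) ≤ 8 * c + 16 := by
    obtain ⟨z, hz1, hz2⟩ := cr_trunc hP (A (2 * h)) (B h) h
    have h0 : d (A (2 * h)) z ≤ h := by rw [hz1]; exact min_le_left _ _
    rcases hnear z h0 with h1 | h1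
    · exfalso
      have h2 := hab.left.dist (d (A (2 * h)) z) h h0 le_rfl
      have h3 := hP.tri z (a (d (A (2 * h)) z)) (a h)
      have h4 := hP.tri (A h) (a h) z
      have h5 := hP.symm (a h) z
      have h6 := hP.tri (A h) z (B h)
      omega
    · have h2 := hab.right.dist (d (A (2 * h)) z) h h0 le_rfl
      have h3 := hP.tri z (b (d (A (2 * h)) z)) (b h)
      have h4 := hP.tri (B h) z (b h)
      have h5 := hP.symm (B h) z
      omega
  -- the points `A (2 h - s)`
  have e7 : d (A (2 * h - s)) (a s) ≤ 4 * c + 14 := by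
    have g1 := hA1 (2 * h - s) (by omega) (by omega)
    have g2 := hlo (A (2 * h - s)) (2 * h - s) (hL.upA _ (by omega))
    have g3 := hL.lipA h (2 * h - s) (by omega) (by omega)
    have g4 : d (A (2 * h)) (A (2 * h - s)) ≤ h := by omega
    rcases hnear _ g4 with h1 | h1
    · have h2 := hab.left.dist (d (A (2 * h)) (A (2 * h - s))) s (by omega) hs
      have h3 := hP.tri (A (2 * h - s)) (a (d (A (2 * h)) (A (2 * h - s)))) (a s)
      omega
    · have h2 := hab.cross h (d (A (2 * h)) (A (2 * h - s))) le_rfl g4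
      have h3 := hP.tri (a h) (A h) (b (d (A (2 * h)) (A (2 * h - s))))
      have h4 := hP.symm (a h) (A h)
      have h5 := hP.tri (A h) (A (2 * h - s)) (b (d (A (2 * h)) (A (2 * h - s))))
      have h6 := cr_ray hab.left hs
      have h7 := hP.tri (A (2 * h - s)) (A (2 * h)) (a s)
      have h8 := hP.symm (A (2 * h - s)) (A (2 * h))
      omega
  -- the points `B (2 h - s')`
  have e8 : d (B (2 * h - s')) (b s') ≤ 22 * c + 62 := by
    have g1 := hB1 (2 * h - s') (by omega) (by omega)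
    have g2 := hlo (B (2 * h - s')) (2 * h - s') (hL.upB _ (by omega))
    have g3 := hL.lipB h (2 * h - s') (by omega) (by omega)
    obtain ⟨z, hz1, hz2⟩ := cr_trunc hP (A (2 * h)) (B (2 * h - s')) h
    have h0 : d (A (2 * h)) z ≤ h := by rw [hz1]; exact min_le_left _ _
    have h9 := hP.symm z (B (2 * h - s'))
    rcases hnear z h0 with h1 | h1
    · have h2 := hab.cross (d (A (2 * h)) z) h h0 le_rfl
      have h3 := hP.tri (a (d (A (2 * h)) z)) z (b h)
      have h4 := hP.symm (a (d (A (2 * h)) z)) z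
      have h5 := hP.tri z (B (2 * h - s')) (b h)
      have h6 := hP.tri (B (2 * h - s')) (B h) (b h)
      have h7 := hP.symm (B (2 * h - s')) (B h)
      have h8 := cr_ray hab.right hs'
      have h10 := hP.tri (B (2 * h - s')) (A (2 * h)) (b s')
      have h11 := hP.symm (B (2 * h - s')) (A (2 * h))
      omega
    · have h3 := hP.tri z (b (d (A (2 * h)) z)) (b s')
      have h4 := hP.tri (B (2 * h - s')) z (b s')
      rcases le_total (d (A (2 * h)) z) s' with h5 | h5
      · have h6 := hab.right.dist (d (A (2 * h)) z) s' h5 hs'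
        omega
      · have h6 := hab.right.dist s' (d (A (2 * h)) z) h5 h0
        have h7 := hP.symm (b s') (b (d (A (2 * h)) z))
        omega
  have e9 := hab.cross s s' hs hs'
  have f1 := hP.tri (a s) (A (2 * h - s)) (b s')
  have f2 := hP.symm (a s) (A (2 * h - s))
  have f3 := hP.tri (A (2 * h - s)) (B (2 * h - s')) (b s')
  omega

theorem ends_cross (hP : PM V d) {κ : ℕ} (hκ : 1 ≤ κ) (hN : NoTri d κ) {h c : ℕ} (hT : Two d h)
    (hc : 2 * κ + 14 ≤ c) {x : V} {A B : ℕ → V} (hL : Lng d h c x A B)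
    (hE : d (A (2 * h)) (B (2 * h)) ≤ 6 * c + 16) (hh : 100 * c + 1000 ≤ h) (s s' : ℕ)
    (hs : s ≤ h) (hs' : s' ≤ h) :
    s + s' ≤ d (A (2 * h - s)) (B (2 * h - s')) + (26 * c + 90) := by
  obtain ⟨a, b, hab⟩ := hT (A (2 * h))
  have h1 : d (A (2 * h)) (A h) ≤ h := by
    have h1 := hL.lipA h (2 * h) (by omega) le_rfl
    have h2 := hP.symm (A h) (A (2 * h))
    omega
  rcases near_ray hP hκ hN hab h1 with h2 | h2
  · exact cr_aux hP hκ hN hc hL hE hh hab (h2.trans hc) s s' hs hs'
  · refine cr_aux hP hκ hN hc hL hE hh (a := b) (b := a) ⟨hab.right, hab.left, ?_⟩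
      (h2.trans hc) s s' hs hs'
    intro u v hu hv
    have h3 := hab.cross v u hv hu
    have h4 := hP.symm (b u) (a v)
    omega

end Pool.Agent.WDB
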