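import Pool.Agent.WDB.Geo

set_option autoImplicit false

/-!
# WB-Cyc: the distance to the multiples of `m`

Everything follows from: `cyc m t = |t + k m|` for some `k`, and `cyc m t ≤ |t + k m|` for all `k`
(`0 < m`).
-/

namespace Pool.Agent.WDB

theorem cyc_exists {m : ℤ} (hm : 0 < m) (t : ℤ) : ∃ k : ℤ, cyc m t = |t + k * m| := by
  have h1 := Int.emod_nonneg t hm.ne'
  have h2 := Int.emod_lt_of_pos t hm
  have h3 : m * (t / m) + t % m = t := Int.mul_ediv_add_emod t m
  unfold cyc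
  rcases le_total (t % m) (m - t % m) with h | h
  · refine ⟨-(t / m), ?_⟩
    have h4 : t + -(t / m) * m = t % m := by linarith
    rw [h4, min_eq_left h, abs_of_nonneg h1]
  · refine ⟨-(t / m) - 1, ?_⟩
    have h4 : t + (-(t / m) - 1) * m = -(m - t % m) := by linarith
    rw [h4, min_eq_right h, abs_neg, abs_of_nonneg (by linarith)]

theorem cyc_le {m : ℤ} (hm : 0 < m) (t k : ℤ) : cyc m t ≤ |t + k * m| := by
  have h1 := Int.emod_nonneg t hm.ne'
  have h2 := Int.emod_lt_of_pos t hm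
  have h3 : m * (t / m) + t % m = t := Int.mul_ediv_add_emod t m
  unfold cyc
  obtain ⟨j, hj⟩ : ∃ j, j = t / m + k := ⟨_, rfl⟩
  have h4 : t + k * m = t % m + j * m := by
    rw [hj]
    linarith
  rw [h4]
  rcases le_or_gt 0 j with h | h
  · have h5 : 0 ≤ j * m := mul_nonneg h hm.le
    rw [abs_of_nonneg (by linarith)]
    exact (min_le_left _ _).trans (by linarith)
  · have h5 : j * m ≤ -m := by nlinarith
    rw [abs_of_nonpos (by linarith)]
    exact (min_le_right _ _).trans (by linarith)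

theorem cyc_le_abs {m : ℤ} (hm : 0 < m) (t : ℤ) : cyc m t ≤ |t| := by
  have h := cyc_le hm t 0
  rwa [zero_mul, add_zero] at h

theorem cyc_nonneg {m : ℤ} (hm : 0 < m) (t : ℤ) : 0 ≤ cyc m t := by
  obtain ⟨k, hk⟩ := cyc_exists hm t
  rw [hk]
  exact abs_nonneg _

theorem cyc_half {m : ℤ} (hm : 0 < m) (t : ℤ) : 2 * cyc m t ≤ m := by
  have _hm := hm
  unfold cyc
  have h1 := min_le_left (t % m) (m - t % m)
  have h2 := min_le_right (t % m) (m - t % m)
  linarith

theorem cyc_neg {m : ℤ} (hm : 0 < m) (t : ℤ) : cyc m (-t) = cyc m t := by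
  have key : ∀ t : ℤ, cyc m (-t) ≤ cyc m t := by
    intro t
    obtain ⟨k, hk⟩ := cyc_exists hm t
    have h := cyc_le hm (-t) (-k)
    have h1 : -t + -k * m = -(t + k * m) := by ring
    rw [h1, abs_neg, ← hk] at h
    exact h
  refine le_antisymm (key t) ?_
  have h := key (-t)
  rwa [neg_neg] at h

theorem cyc_tri {m : ℤ} (hm : 0 < m) (s t : ℤ) : cyc m (s + t) ≤ cyc m s + cyc m t := by
  obtain ⟨k, hk⟩ := cyc_exists hm s
  obtain ⟨l, hl⟩ := cyc_exists hm t
  have h := cyc_le hm (s + t) (k + l)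
  have h1 : s + t + (k + l) * m = (s + k * m) + (t + l * m) := by ring
  rw [h1] at h
  rw [hk, hl]
  exact h.trans (abs_add_le _ _)

theorem cyc_congr {m : ℤ} (hm : 0 < m) {s t k : ℤ} (h : s = t + k * m) : cyc m s = cyc m t := by
  apply le_antisymm
  · obtain ⟨l, hl⟩ := cyc_exists hm t
    have h1 := cyc_le hm s (l - k)
    have h2 : s + (l - k) * m = t + l * m := by rw [h]; ring
    rw [h2, ← hl] at h1
    exact h1
  · obtain ⟨l, hl⟩ := cyc_exists hm s
    have h1 := cyc_le hm t (l + k)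
    have h2 : t + (l + k) * m = s + l * m := by rw [h]; ring
    rw [h2, ← hl] at h1
    exact h1

/-- small arguments -/
theorem cyc_of_le {m : ℤ} (hm : 0 < m) {t : ℤ} (h : 2 * |t| ≤ m) : cyc m t = |t| := by
  refine le_antisymm (cyc_le_abs hm t) ?_
  obtain ⟨k, hk⟩ := cyc_exists hm t
  rw [hk]
  have h1 := abs_le.1 (le_refl |t|)
  rcases lt_trichotomy k 0 with h0 | h0 | h0
  · have h2 : k * m ≤ -m := by nlinarith
    have h3 : -(t + k * m) ≤ |t + k * m| := neg_le_abs _
    linarith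
  · rw [h0, zero_mul, add_zero]
  · have h2 : m ≤ k * m := by nlinarith
    have h3 : t + k * m ≤ |t + k * m| := le_abs_self _
    linarith

/-- arguments in `[0, m]` -/
theorem cyc_of_nonneg {m : ℤ} (hm : 0 < m) {t : ℤ} (h : 0 ≤ t) (h' : t ≤ m) :
    cyc m t = min t (m - t) := by
  unfold cyc
  rcases h'.lt_or_eq with h1 | h1
  · rw [Int.emod_eq_of_lt h h1]
  · rw [h1, Int.emod_self, sub_self, sub_zero, min_comm]

/-- three points on the circle: after reduction to `0 ≤ a ≤ b ≤ c < m` the arcs `b - a`, `c - b`, `m - (c - a)` have sum `m` -/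
theorem cyc_three {m : ℤ} (hm : 0 < m) (a b c : ℤ) :
    cyc m (a - b) + cyc m (b - c) + cyc m (a - c) ≤ m := by
  have r1 := Int.emod_nonneg (a - b) hm.ne'
  have r2 := Int.emod_lt_of_pos (a - b) hm
  have r3 : m * ((a - b) / m) + (a - b) % m = a - b := Int.mul_ediv_add_emod (a - b) m
  have s1 := Int.emod_nonneg (b - c) hm.ne'
  have s2 := Int.emod_lt_of_pos (b - c) hm
  have s3 : m * ((b - c) / m) + (b - c) % m = b - c := Int.mul_ediv_add_emod (b - c) m
  obtain ⟨q, hq⟩ : ∃ q, q = (a - b) / m := ⟨_, rfl⟩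
  obtain ⟨r, hr⟩ : ∃ r, r = (a - b) % m := ⟨_, rfl⟩
  obtain ⟨q', hq'⟩ : ∃ q, q = (b - c) / m := ⟨_, rfl⟩
  obtain ⟨s, hs⟩ : ∃ r, r = (b - c) % m := ⟨_, rfl⟩
  rw [← hq, ← hr] at r3
  rw [← hr] at r1 r2
  rw [← hq', ← hs] at s3
  rw [← hs] at s1 s2
  rcases le_total (r + s) m with h | h
  · have h1 := cyc_le hm (a - b) (-q)
    have e1 : a - b + -q * m = r := by linarith
    rw [e1, abs_of_nonneg r1] at h1
    have h2 := cyc_le hm (b - c) (-q')
    have e2 : b - c + -q' * m = s := by linarith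
    rw [e2, abs_of_nonneg s1] at h2
    have h3 := cyc_le hm (a - c) (-q - q' - 1)
    have e3 : a - c + (-q - q' - 1) * m = -(m - (r + s)) := by linarith
    rw [e3, abs_neg, abs_of_nonneg (by linarith)] at h3
    linarith
  · have h1 := cyc_le hm (a - b) (-q - 1)
    have e1 : a - b + (-q - 1) * m = -(m - r) := by linarith
    rw [e1, abs_neg, abs_of_nonneg (by linarith)] at h1
    have h2 := cyc_le hm (b - c) (-q' - 1)
    have e2 : b - c + (-q' - 1) * m = -(m - s) := by linarith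
    rw [e2, abs_neg, abs_of_nonneg (by linarith)] at h2
    have h3 := cyc_le hm (a - c) (-q - q' - 1)
    have e3 : a - c + (-q - q' - 1) * m = r + s - m := by linarith
    rw [e3, abs_of_nonneg (by linarith)] at h3
    linarith

end Pool.Agent.WDB
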