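import Pool.Agent.WDB.Rho

set_option autoImplicit false

/-!
# WB-Gr: the graph metric at scale `η`

The graph of the pairs at distance at most `η` is connected (axiom `w3`), its metric is compared with `rho` by
following shortest walks.
-/

namespace Pool.Agent.WDB

open Finset Pool.Agent.WD

/-- the graph of the pairs at distance at most `η` -/
def gr {V : Type} [Fintype V] (lam : V → V → ℝ) (η : ℝ) : SimpleGraph V where
  Adj x y := x ≠ y ∧ rho lam x y ≤ η
  symm := ⟨fun x y h => ⟨h.1.symm, by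
    have h2 := h.2
    unfold rho at h2 ⊢
    simpa only [abs_sub_comm] using h2⟩⟩
  loopless := ⟨fun x h => h.1 rfl⟩

/-- the graph metric -/
noncomputable def dG {V : Type} [Fintype V] (lam : V → V → ℝ) (η : ℝ) (x y : V) : ℕ :=
  (gr lam η).dist x y

variable {V : Type} [Fintype V] [DecidableEq V] {K ε : ℝ} (w : World V K ε)

private theorem gr_conn {η : ℝ} (hη : ε ≤ η) (x y : V) : (gr w.lam η).Reachable x y := by
  classical
  by_contra hcon
  let S : Finset V := univ.filter fun z => (gr w.lam η).Reachable x z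
  have hS : S.Nonempty := ⟨x, mem_filter.2 ⟨mem_univ _, SimpleGraph.Reachable.refl x⟩⟩
  have hS' : S ≠ univ := by
    intro h
    have h1 : y ∈ S := by
      rw [h]
      exact mem_univ _
    exact hcon (mem_filter.1 h1).2
  obtain ⟨a, ha, b, hb, hab⟩ := w.w3 S hS hS'
  have hne : a ≠ b := by
    rintro rfl
    exact hb ha
  have hadj : (gr w.lam η).Adj a b := ⟨hne, hab.trans hη⟩
  exact hb (mem_filter.2 ⟨mem_univ _, (mem_filter.1 ha).2.trans hadj.reachable⟩)

theorem pm_dG {η : ℝ} (hη : ε ≤ η) : PM V (dG w.lam η) := by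
  refine ⟨fun x => SimpleGraph.dist_self, fun x y => SimpleGraph.dist_comm, ?_, ?_⟩
  · intro x y z
    exact (gr_conn w hη x y).dist_triangle_left z
  · intro x y
    obtain ⟨p, hp⟩ := (gr_conn w hη x y).exists_walk_length_eq_dist
    refine ⟨p.getVert, p.getVert_zero, ?_, ?_⟩
    · unfold dG
      rw [← hp, p.getVert_length]
    · intro i hi
      unfold dG at hi ⊢
      rw [← hp] at hi
      exact (SimpleGraph.dist_eq_one_iff_adj.2 (p.adj_getVert_succ hi)).le

theorem dG_le_one {η : ℝ} (hη : ε ≤ η) (x y : V) : dG w.lam η x y ≤ 1 ↔ rho w.lam x y ≤ η := by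
  constructor
  · intro h
    rcases Nat.le_one_iff_eq_zero_or_eq_one.1 h with h0 | h1
    · have h2 := (gr_conn w hη x y).dist_eq_zero_iff.1 h0
      rw [h2, rho_self]
      exact (eps_nonneg w).trans hη
    · exact (SimpleGraph.dist_eq_one_iff_adj.1 h1).2
  · intro h
    by_cases hxy : x = y
    · rw [hxy]
      unfold dG
      rw [SimpleGraph.dist_self]
      exact Nat.zero_le _
    · have hadj : (gr w.lam η).Adj x y := ⟨hxy, h⟩
      exact (SimpleGraph.dist_eq_one_iff_adj.2 hadj).le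

private theorem rho_path {η : ℝ} (hη : ε ≤ η) {γ : ℕ → V} {L : ℕ}
    (hγ : ∀ i, i < L → dG w.lam η (γ i) (γ (i + 1)) ≤ 1) (i k : ℕ) (hi : i + k ≤ L) :
    rho w.lam (γ i) (γ (i + k)) ≤ k * η := by
  induction k with
  | zero => rw [Nat.add_zero, rho_self, Nat.cast_zero, zero_mul]
  | succ k ih =>
    have h1 := ih (by omega)
    have h2 := (dG_le_one w hη _ _).1 (hγ (i + k) (by omega))
    have h3 := rho_tri w.lam (γ i) (γ (i + k)) (γ (i + k + 1))
    rw [Nat.add_assoc] at h2 h3
    push_cast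
    linarith

theorem rho_le_dG {η : ℝ} (hη : ε ≤ η) (x y : V) : rho w.lam x y ≤ η * dG w.lam η x y := by
  obtain ⟨γ, h0, h1, h2⟩ := (pm_dG w hη).path x y
  have h3 := rho_path w hη h2 0 (dG w.lam η x y) (by omega)
  rw [Nat.zero_add, h0, h1] at h3
  rw [mul_comm]
  exact h3

theorem dG_mono {η η' : ℝ} (hη : ε ≤ η) (h : η ≤ η') (x y : V) :
    dG w.lam η' x y ≤ dG w.lam η x y := by
  refine SimpleGraph.Reachable.dist_anti ?_ (gr_conn w hη x y)
  intro a b hab
  exact ⟨hab.1, hab.2.trans h⟩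

theorem dG_scale {η η' : ℝ} (hη : ε ≤ η) {θ : ℕ} (hθ : 1 ≤ θ) (h : θ * η ≤ η') (x y : V) :
    dG w.lam η' x y ≤ dG w.lam η x y / θ + 1 := by
  have hη0 : 0 ≤ η := (eps_nonneg w).trans hη
  have hθ1 : (1 : ℝ) ≤ θ := by exact_mod_cast hθ
  have hη' : ε ≤ η' := by nlinarith
  obtain ⟨γ, h0, h1, h2⟩ := (pm_dG w hη).path x y
  have hstep : ∀ i k, k ≤ θ → i + k ≤ dG w.lam η x y → dG w.lam η' (γ i) (γ (i + k)) ≤ 1 := by
    intro i k hk hik
    rw [dG_le_one w hη']
    refine (rho_path w hη h2 i k hik).trans (le_trans ?_ h)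
    have : (k : ℝ) ≤ θ := by exact_mod_cast hk
    exact mul_le_mul_of_nonneg_right this hη0
  have hmul : ∀ j, θ * j ≤ dG w.lam η x y → dG w.lam η' (γ 0) (γ (θ * j)) ≤ j := by
    intro j
    induction j with
    | zero =>
      intro _
      rw [Nat.mul_zero, (pm_dG w hη').self]
    | succ j ih =>
      intro hj
      have h3 : θ * j + θ ≤ dG w.lam η x y := by
        rw [← Nat.mul_succ]
        exact hj
      have h4 := ih (by omega)
      have h5 := hstep (θ * j) θ le_rfl h3
      have h6 := (pm_dG w hη').tri (γ 0) (γ (θ * j)) (γ (θ * j + θ))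
      rw [Nat.mul_succ]
      omega
  have h7 := Nat.div_add_mod (dG w.lam η x y) θ
  have h8 := Nat.mod_lt (dG w.lam η x y) (by omega : θ > 0)
  have h9 := hmul (dG w.lam η x y / θ) (by omega)
  have h10 := hstep (θ * (dG w.lam η x y / θ)) (dG w.lam η x y % θ) h8.le (by omega)
  rw [h7, h1] at h10
  rw [h0] at h9
  have h11 := (pm_dG w hη').tri x (γ (θ * (dG w.lam η x y / θ))) y
  omega

theorem dG_iso {η e : ℝ} (hη : ε ≤ η) {g : Equiv.Perm V}
    (hg : ∀ p q, |rho w.lam (g p) (g q) - rho w.lam p q| ≤ e) (x y : V) :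
    dG w.lam (η + e) (g x) (g y) ≤ dG w.lam η x y := by
  have he : 0 ≤ e := (abs_nonneg _).trans (hg x x)
  have hη' : ε ≤ η + e := by linarith
  obtain ⟨γ, h0, h1, h2⟩ := (pm_dG w hη).path x y
  have hmul : ∀ j, j ≤ dG w.lam η x y → dG w.lam (η + e) (g (γ 0)) (g (γ j)) ≤ j := by
    intro j
    induction j with
    | zero =>
      intro _
      rw [(pm_dG w hη').self]
    | succ j ih =>
      intro hj
      have h4 := ih (by omega)
      have h5 : dG w.lam (η + e) (g (γ j)) (g (γ (j + 1))) ≤ 1 := by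
        rw [dG_le_one w hη']
        have h6 := (dG_le_one w hη _ _).1 (h2 j (by omega))
        have h7 := (abs_le.1 (hg (γ j) (γ (j + 1)))).2
        linarith
      have h6 := (pm_dG w hη').tri (g (γ 0)) (g (γ j)) (g (γ (j + 1)))
      omega
  have h3 := hmul _ le_rfl
  rw [h0, h1] at h3
  exact h3

/-- the ball of the graph metric is contained in a ball of `rho` -/
theorem vol_dG_le {η : ℝ} (hη : ε ≤ η) (x : V) (k : ℕ) :
    vol (dG w.lam η) x k ≤ (univ.filter fun z => rho w.lam x z ≤ k * η).card := by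
  have hη0 : 0 ≤ η := (eps_nonneg w).trans hη
  refine card_le_card ?_
  intro z hz
  rw [mem_filter] at hz ⊢
  refine ⟨hz.1, (rho_le_dG w hη x z).trans ?_⟩
  have h1 : ((dG w.lam η x z : ℕ) : ℝ) ≤ k := by exact_mod_cast hz.2
  rw [mul_comm]
  exact mul_le_mul_of_nonneg_right h1 hη0

theorem vol_dG_one {η : ℝ} (hη : ε ≤ η) (x : V) :
    vol (dG w.lam η) x 1 = (univ.filter fun z => rho w.lam x z ≤ η).card := by
  unfold vol
  congr 1
  ext z
  rw [mem_filter, mem_filter, dG_le_one w hη]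

end Pool.Agent.WDB
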