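import Pool.Agent.WDB.Rho
import Pool.Agent.WDB.Gr

set_option autoImplicit false

/-!
# WB-Dia: the diameter of the graph metric

`dG_diam`: `k = dG x y`, `γ` from `PM.path` (`dG (γ i) (γ j) = j - i` as in `PM.geod`; only `dG (γ i) (γ j) ≥ 2` for `j ≥ i + 2` is needed).
The `rho`-balls of radius `η / 2` around `γ (2 i)`, `i ≤ k / 2`, are pairwise disjoint (`rho (γ (2 i)) (γ (2 j)) > η` by
`dG_le_one`), each has at least `(η / 2) / (2 K) n` points (`ball_lower`, `8 K ε ≤ η`). So `(k / 2 + 1) η / (4 K) ≤ 1` and `η k ≤ 8 K`.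
-/

namespace Pool.Agent.WDB

open Finset Pool.Agent.WD

private theorem dia_le {V : Type} {d : V → V → ℕ} (h : PM V d) {γ : ℕ → V} {k : ℕ}
    (hγ : ∀ i, i < k → d (γ i) (γ (i + 1)) ≤ 1) (i : ℕ) : ∀ n, i + n ≤ k →
    d (γ i) (γ (i + n)) ≤ n := by
  intro n
  induction n with
  | zero =>
    intro _
    rw [Nat.add_zero, h.self]
  | succ n ih =>
    intro hn
    have h1 := ih (by omega)
    have h2 := hγ (i + n) (by omega)
    have h3 := h.tri (γ i) (γ (i + n)) (γ (i + (n + 1)))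
    rw [← Nat.add_assoc] at h3 ⊢
    omega

private theorem dia_ge {V : Type} {d : V → V → ℕ} (h : PM V d) {γ : ℕ → V} {x y : V}
    (h0 : γ 0 = x) (h1 : γ (d x y) = y) (hγ : ∀ i, i < d x y → d (γ i) (γ (i + 1)) ≤ 1)
    {i j : ℕ} (hij : i ≤ j) (hj : j ≤ d x y) : j - i ≤ d (γ i) (γ j) := by
  have a1 := dia_le h hγ 0 i (by omega)
  have a2 := dia_le h hγ j (d x y - j) (by omega)
  rw [Nat.zero_add, h0] at a1
  rw [show j + (d x y - j) = d x y by omega, h1] at a2
  have a3 := h.tri x (γ i) y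
  have a4 := h.tri (γ i) (γ j) y
  omega

theorem dG_diam {V : Type} [Fintype V] [DecidableEq V] {K ε : ℝ} (w : World V K ε) (hK : 1 ≤ K)
    {η : ℝ} (hη : 8 * K * ε ≤ η) (hη0 : 0 < η) (hη' : η ≤ 1) (x y : V) :
    η * dG w.lam η x y ≤ 8 * K := by
  have hε : 0 ≤ ε := eps_nonneg w
  have hεη : ε ≤ η := by nlinarith
  have hpm := pm_dG w hεη
  have hK0 : (0 : ℝ) < K := by linarith
  obtain ⟨γ, h0, h1, h2⟩ := hpm.path x y
  set k := dG w.lam η x y with hk
  have hn : (0 : ℝ) < Fintype.card V := by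
    have : Nonempty V := ⟨x⟩
    exact_mod_cast Fintype.card_pos
  set S : ℕ → Finset V := fun i => univ.filter fun z => rho w.lam (γ (2 * i)) z ≤ η / 2 with hS
  have hdisj : ∀ i ∈ range (k / 2 + 1), ∀ j ∈ range (k / 2 + 1), i < j → Disjoint (S i) (S j) := by
    intro i _ j hj hij
    rw [Finset.disjoint_left]
    intro z hz1 hz2
    simp only [hS, mem_filter, mem_univ, true_and] at hz1 hz2
    have h3 := rho_tri w.lam (γ (2 * i)) z (γ (2 * j))
    rw [rho_comm w.lam z] at h3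
    have h4 : rho w.lam (γ (2 * i)) (γ (2 * j)) ≤ η := by linarith
    have h5 := (dG_le_one w hεη _ _).2 h4
    have h6 := mem_range.1 hj
    have h7 := dia_ge hpm h0 h1 h2 (i := 2 * i) (j := 2 * j) (by omega) (by omega)
    omega
  have hdisj' : ∀ i ∈ range (k / 2 + 1), ∀ j ∈ range (k / 2 + 1), i ≠ j →
      Disjoint (S i) (S j) := by
    intro i hi j hj hij
    rcases Nat.lt_or_gt_of_ne hij with h | h
    · exact hdisj i hi j hj h
    · exact (hdisj j hj i hi h).symm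
  have hsum : ∑ i ∈ range (k / 2 + 1), (S i).card ≤ Fintype.card V := by
    rw [← Finset.card_biUnion hdisj']
    exact Finset.card_le_univ _
  have hball : ∀ i, η / 2 / (2 * K) * Fintype.card V ≤ (S i).card := fun i =>
    ball_lower w hK (γ (2 * i)) (by linarith) (by linarith)
  have h3 : ((k / 2 + 1 : ℕ) : ℝ) * (η / 2 / (2 * K) * Fintype.card V) ≤ Fintype.card V := by
    calc ((k / 2 + 1 : ℕ) : ℝ) * (η / 2 / (2 * K) * Fintype.card V)
        = ∑ i ∈ range (k / 2 + 1), (η / 2 / (2 * K) * Fintype.card V) := by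
          rw [Finset.sum_const, card_range, nsmul_eq_mul]
      _ ≤ ∑ i ∈ range (k / 2 + 1), ((S i).card : ℝ) := Finset.sum_le_sum fun i _ => hball i
      _ ≤ Fintype.card V := by exact_mod_cast hsum
  have h4 : ((k / 2 + 1 : ℕ) : ℝ) * (η / 2 / (2 * K)) ≤ 1 := by
    have h5 : ((k / 2 + 1 : ℕ) : ℝ) * (η / 2 / (2 * K)) * Fintype.card V ≤
        1 * Fintype.card V := by
      rw [one_mul, mul_assoc]
      exact h3
    exact le_of_mul_le_mul_right h5 hn
  have h5 : ((k / 2 + 1 : ℕ) : ℝ) * η ≤ 4 * K := by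
    have h6 : ((k / 2 + 1 : ℕ) : ℝ) * (η / 2 / (2 * K)) = ((k / 2 + 1 : ℕ) : ℝ) * η / (4 * K) := by
      field_simp
      ring
    rw [h6, div_le_one (by linarith)] at h4
    exact h4
  have h6 : (k : ℝ) ≤ 2 * ((k / 2 + 1 : ℕ) : ℝ) := by
    have : k ≤ 2 * (k / 2 + 1) := by omega
    exact_mod_cast this
  nlinarith

end Pool.Agent.WDB
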