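import Pool.Agent.WDB.Three

set_option autoImplicit false

/-!
# WB-End: the ends of the two rays meet

The point `A (2 h)` is the middle of a geodesic; if the endpoints of a short piece of it were both
near the first ray, then they would be near each other. So one of them is near the second ray.
-/

namespace Pool.Agent.WDB

variable {V : Type} {d : V → V → ℕ}

private theorem end_near (hP : PM V d) {h c : ℕ} {x : V} {A B : ℕ → V}
    (hL : Lng d h c x A B) {q : V}
    (hq : d (A (2 * h)) q = 2 * c + 8) :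
    d (A (2 * h)) (B (2 * h)) ≤ 6 * c + 16 ∨
      ∃ r, d q (A r) ≤ c ∧ 2 * h ≤ r + (3 * c + 8) ∧ r + (c + 8) ≤ 2 * h := by
  have h1 := hL.loA (2 * h) le_rfl
  have h2 := hP.tri x q (A (2 * h))
  have h3 := hP.symm q (A (2 * h))
  obtain ⟨r, hr⟩ : ∃ r, r = min (d x q) (2 * h) := ⟨_, rfl⟩
  have hr1 : r ≤ 2 * h := by omega
  have hr2 : 2 * h ≤ r + (3 * c + 8) := by omega
  have hn := hL.near q
  rw [← hr] at hn
  rcases hn with hn | hn
  · right
    refine ⟨r, hn, hr2, ?_⟩
    have h4 := hL.lipA r (2 * h) hr1 le_rfl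
    have h5 := hP.tri q (A r) (A (2 * h))
    omega
  · left
    have h4 := hL.lipB r (2 * h) hr1 le_rfl
    have h5 := hP.tri q (B r) (B (2 * h))
    have h6 := hP.tri (A (2 * h)) q (B (2 * h))
    omega

theorem ends_meet (hP : PM V d) {h c : ℕ} (hT : Two d h) {x : V} {A B : ℕ → V}
    (hL : Lng d h c x A B) (hh : 100 * c + 1000 ≤ h) : d (A (2 * h)) (B (2 * h)) ≤ 6 * c + 16 := by
  obtain ⟨a, b, hab⟩ := hT (A (2 * h))
  have ha := hab.left.dist 0 (2 * c + 8) (by omega) (by omega)
  have hb := hab.right.dist 0 (2 * c + 8) (by omega) (by omega)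
  have hc := hab.cross (2 * c + 8) (2 * c + 8) (by omega) (by omega)
  rw [hab.left.zero] at ha
  rw [hab.right.zero] at hb
  rcases end_near hP hL (q := a (2 * c + 8)) (by omega) with h1 | ⟨r, h1, h2, h3⟩
  · exact h1
  rcases end_near hP hL (q := b (2 * c + 8)) (by omega) with h1' | ⟨s, h1', h2', h3'⟩
  · exact h1'
  exfalso
  have k1 := hP.tri (a (2 * c + 8)) (A r) (b (2 * c + 8))
  have k2 := hP.tri (A r) (A s) (b (2 * c + 8))
  have k3 := hP.symm (A s) (b (2 * c + 8))
  rcases le_total r s with hrs | hrs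
  · have k4 := hL.lipA r s hrs (by omega)
    omega
  · have k4 := hL.lipA s r hrs (by omega)
    have k5 := hP.symm (A s) (A r)
    omega

end Pool.Agent.WDB
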