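import Pool.Agent.WDB.Rho

set_option autoImplicit false

/-!
# WB-Far: there are two points at distance at least `1 / 20`

Suppose `rho x y < 1 / 20` for all `x, y`. Fix a point `o`. For all `z, z'`: `|lam o z - lam o z'| ≤
|lam o z - lam z' z| + |lam z z' - lam o z'|` (symmetry `lam z' z = lam z z'`). Summed over `z` the first term is `n rho o z' ≤ n / 20`, summed over
`z'` the second term is `n rho z o ≤ n / 20`. So `∑ z z', |lam o z - lam o z'| ≤ n² / 10`. On the other hand by `level_count` (or `w1`) at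
least `(1 / 4 - 2 ε) n ≥ n / 5` values `lam o z` are `≤ 1 / 4` (use `w1`: at least `(1 / 4 - ε) n`) and at least `(1 / 4 - ε) n ≥ n / 5` are `> 3 / 4`:
these pairs (in both orders) contribute at least `2 (n / 4 - ε n)² / 2 ≥ (6 / 100) n²`... choose better thresholds: for
`0.4` and `0.6` etc. the bound is smaller; a clean way: `∑ z z', |a z - a z'| ≥ ∑ over the three threshold pairs`. With `N s = #{a ≤ s}`:
`∑ z z', |a z - a z'| ≥ 2 ∫ N s (n - N s) ds`; discretely, for the thresholds `s i = i / 10`, `i = 1, .., 9`: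
`|a z - a z'| ≥ ∑ over i with (a z ≤ s i and s (i + 1) < a z') of 1 / 10` (or in the other order), so the double sum is at least
`2 / 10 ∑ i=1..8, N (s i) (n - N (s (i + 1))) ≥ n² (1 / 5) ∑ i=1..8, (i / 10 - ε) (9 / 10 - i / 10 - ε) > n² (1 / 5) (1.2 - 16 ε) > n² / 10`.
Any other elementary route is fine (e.g. two thresholds only: pairs with `a z ≤ 1 / 4` and `a z' > 3 / 4` contribute
`2 (1 / 2) (1 / 4 - ε)² n²`, pairs with `a z ≤ 1 / 4`, `1 / 2 < a z' ≤ 3 / 4` or `1 / 4 < a z ≤ 1 / 2`, `a z' > 3 / 4` contribute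
`2 * 2 (1 / 4) (1 / 4 - 2 ε)² n²`: together `≥ (1 / 16 + 1 / 16 - 4 ε) n² > n² / 10`).
-/

namespace Pool.Agent.WDB

open Finset Pool.Agent.WD

variable {V : Type} [Fintype V] [DecidableEq V] {K ε : ℝ} (w : World V K ε)

private theorem pointw (a b : ℝ) :
    1 / 4 * ((if a ≤ 1 / 4 then (1 : ℝ) else 0) * (1 - if b ≤ 1 / 2 then (1 : ℝ) else 0) +
      (if a ≤ 1 / 2 then (1 : ℝ) else 0) * (1 - if b ≤ 3 / 4 then (1 : ℝ) else 0) +
      ((if b ≤ 1 / 4 then (1 : ℝ) else 0) * (1 - if a ≤ 1 / 2 then (1 : ℝ) else 0) +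
      (if b ≤ 1 / 2 then (1 : ℝ) else 0) * (1 - if a ≤ 3 / 4 then (1 : ℝ) else 0))) ≤
      |a - b| := by
  rcases abs_cases (a - b) with ⟨h, h'⟩ | ⟨h, h'⟩ <;> rw [h] <;> split_ifs <;> linarith

include w

theorem far_pair (hε : ε ≤ 1 / 1000) : ∃ a b, 1 / 20 ≤ rho w.lam a b := by
  by_contra hcon
  push Not at hcon
  obtain ⟨o, -, -, -⟩ := w.w6
  have : Nonempty V := ⟨o⟩
  set n : ℝ := (Fintype.card V : ℝ) with hn
  have hn0 : 0 < n := by
    rw [hn]
    exact_mod_cast Fintype.card_pos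
  have hup : ∑ z, ∑ z', |w.lam o z - w.lam o z'| ≤ n * n / 10 := by
    calc ∑ z, ∑ z', |w.lam o z - w.lam o z'|
        ≤ ∑ z, ∑ z', (|w.lam o z - w.lam z' z| + |w.lam z z' - w.lam o z'|) := by
          refine sum_le_sum fun z _ => sum_le_sum fun z' _ => ?_
          rw [w.symm z z']
          exact abs_sub_le _ _ _
      _ = ∑ z', ∑ z, |w.lam o z - w.lam z' z| + ∑ z, ∑ z', |w.lam z z' - w.lam o z'| := by
          simp only [sum_add_distrib]
          rw [sum_comm]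
      _ = ∑ z', rho w.lam o z' * n + ∑ z, rho w.lam z o * n := by
          rw [sum_congr rfl fun z' _ => rho_sum w.lam o z',
            sum_congr rfl fun z _ => rho_sum w.lam z o]
      _ ≤ ∑ _z' : V, 1 / 20 * n + ∑ _z : V, 1 / 20 * n := by
          refine add_le_add (sum_le_sum fun z' _ => ?_) (sum_le_sum fun z _ => ?_)
          · exact mul_le_mul_of_nonneg_right (hcon o z').le hn0.le
          · exact mul_le_mul_of_nonneg_right (hcon z o).le hn0.le
      _ = n * n / 10 := by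
          rw [sum_const, card_univ, nsmul_eq_mul, ← hn]
          ring
  -- lower bound
  have hcount : ∀ s : ℝ, 0 ≤ s → s ≤ 1 →
      |(∑ z, if w.lam o z ≤ s then (1 : ℝ) else 0) - s * n| ≤ ε * n := by
    intro s hs hs'
    have h1 := w.w1 o s hs hs'
    rw [sum_boole]
    exact h1
  have h1 := abs_le.1 (hcount (1 / 4) (by norm_num) (by norm_num))
  have h2 := abs_le.1 (hcount (1 / 2) (by norm_num) (by norm_num))
  have h3 := abs_le.1 (hcount (3 / 4) (by norm_num) (by norm_num))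
  have hlow : 1 / 4 * ((∑ z, if w.lam o z ≤ 1 / 4 then (1 : ℝ) else 0) *
      (n - ∑ z, if w.lam o z ≤ 1 / 2 then (1 : ℝ) else 0) +
      (∑ z, if w.lam o z ≤ 1 / 2 then (1 : ℝ) else 0) *
      (n - ∑ z, if w.lam o z ≤ 3 / 4 then (1 : ℝ) else 0)) * 2 ≤
      ∑ z, ∑ z', |w.lam o z - w.lam o z'| := by
    have hn1 : n = ∑ _z : V, (1 : ℝ) := by
      rw [sum_const, card_univ, nsmul_eq_mul, mul_one]
    have e1 : ∀ s t : ℝ, (∑ z, if w.lam o z ≤ s then (1 : ℝ) else 0) *
        (n - ∑ z, if w.lam o z ≤ t then (1 : ℝ) else 0) =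
        ∑ z, ∑ z', (if w.lam o z ≤ s then (1 : ℝ) else 0) *
          (1 - if w.lam o z' ≤ t then (1 : ℝ) else 0) := by
      intro s t
      rw [hn1, ← sum_sub_distrib, sum_mul_sum]
    have e2 : ∀ s t : ℝ, (∑ z, if w.lam o z ≤ s then (1 : ℝ) else 0) *
        (n - ∑ z, if w.lam o z ≤ t then (1 : ℝ) else 0) =
        ∑ z, ∑ z', (if w.lam o z' ≤ s then (1 : ℝ) else 0) *
          (1 - if w.lam o z ≤ t then (1 : ℝ) else 0) := by
      intro s t
      rw [e1, sum_comm]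
    have h4 := sum_le_sum (s := (univ : Finset V)) fun z _ =>
      sum_le_sum (s := (univ : Finset V)) fun z' _ => pointw (w.lam o z) (w.lam o z')
    have e3 : ∀ f g h k : V → V → ℝ,
        ∑ z, ∑ z', 1 / 4 * (f z z' + g z z' + (h z z' + k z z')) =
          1 / 4 * (∑ z, ∑ z', f z z' + ∑ z, ∑ z', g z z' +
            (∑ z, ∑ z', h z z' + ∑ z, ∑ z', k z z')) := by
      intro f g h k
      simp only [mul_add, sum_add_distrib, mul_sum]
    refine le_trans (le_of_eq ?_) h4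
    refine Eq.trans ?_ (e3
      (fun z z' => (if w.lam o z ≤ 1 / 4 then (1 : ℝ) else 0) *
        (1 - if w.lam o z' ≤ 1 / 2 then (1 : ℝ) else 0))
      (fun z z' => (if w.lam o z ≤ 1 / 2 then (1 : ℝ) else 0) *
        (1 - if w.lam o z' ≤ 3 / 4 then (1 : ℝ) else 0))
      (fun z z' => (if w.lam o z' ≤ 1 / 4 then (1 : ℝ) else 0) *
        (1 - if w.lam o z ≤ 1 / 2 then (1 : ℝ) else 0))
      (fun z z' => (if w.lam o z' ≤ 1 / 2 then (1 : ℝ) else 0) *
        (1 - if w.lam o z ≤ 3 / 4 then (1 : ℝ) else 0))).symm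
    rw [← e1, ← e1, ← e2, ← e2]
    ring
  have hε0 : 0 ≤ ε := eps_nonneg w
  set N1 := ∑ z, if w.lam o z ≤ 1 / 4 then (1 : ℝ) else 0 with hN1
  set N2 := ∑ z, if w.lam o z ≤ 1 / 2 then (1 : ℝ) else 0 with hN2
  set N3 := ∑ z, if w.lam o z ≤ 3 / 4 then (1 : ℝ) else 0 with hN3
  have hεn : ε * n ≤ 1 / 1000 * n := mul_le_mul_of_nonneg_right hε hn0.le
  have b1 : 0.249 * n ≤ N1 := by linarith [h1.1]
  have b2 : 0.499 * n ≤ N2 := by linarith [h2.1]
  have b3 : 0.499 * n ≤ n - N2 := by linarith [h2.2]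
  have b4 : 0.249 * n ≤ n - N3 := by linarith [h3.2]
  have c1 : (0.249 * n) * (0.499 * n) ≤ N1 * (n - N2) :=
    mul_le_mul b1 b3 (by positivity) (by linarith [mul_pos (by norm_num : (0 : ℝ) < 0.249) hn0])
  have c2 : (0.499 * n) * (0.249 * n) ≤ N2 * (n - N3) :=
    mul_le_mul b2 b4 (by positivity) (by linarith [mul_pos (by norm_num : (0 : ℝ) < 0.499) hn0])
  have hnn : 0 < n * n := mul_pos hn0 hn0
  nlinarith

end Pool.Agent.WDB
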