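import Pool.Agent.WDB.Two

set_option autoImplicit false

/-!
# WB-Fol: geodesics which are near each other stay near each other

`fol_step`. (i) `d a b ≤ κ`: otherwise `m = d a b` satisfies `κ < m ≤ 2 κ < l`; let `a₁` be the point at distance `m` from
`a` on a geodesic from `a` to `a'` (so `d x a₁ = s + m`, by `d x a' = s + l`) and `x₁` the point at distance `m` from `a` on a
geodesic from `a` to `x` (`d x x₁ = s - m`, `m ≤ l ≤ s`). `NoTri` at the centre `a` with radius `m` for `b, a₁, x₁`: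
`d a₁ x₁ ≥ 2 m`, `d b a₁ ≥ d x a₁ - d x b = m`, `d b x₁ ≥ d x b - d x x₁ = m`: all `> κ`, contradiction.
(ii) Let `b₂` be the point at distance `l` from `a` on a geodesic from `a` to `b'`: `l ≤ d a b' ≤ l + κ` (since
`d x b' = s + l`, `d b b' = l`, `d a b ≤ κ`), so `d b₂ b' ≤ κ` and `d x b₂ ≥ s + l - κ`. Let `x₁` be at distance `l` from `a` on a
geodesic from `a` to `x` (`d x x₁ = s - l`). `NoTri` at `a` with radius `l` for `a', b₂, x₁`: `d a' x₁ ≥ 2 l > κ`,
`d b₂ x₁ ≥ 2 l - κ > κ`, so `d a' b₂ ≤ κ` and `d a' b' ≤ 2 κ`.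

`fol_long`: strong induction on `t - s`. If `t - s ≤ 20 κ` and `t - s ≤ s`: one step of length `l = t - s`. Otherwise
take a step of length `2 κ + 1` (`≤ s`) and use the induction hypothesis from `s + 2 κ + 1` to `t`: there
`t - s - (2 κ + 1) ≥ 2 κ + 1` because `t - s > 20 κ` or `t - s > s ≥ 4 κ + 2` (here `1 ≤ κ`).
-/

namespace Pool.Agent.WDB

variable {V : Type} {d : V → V → ℕ}

/-- a point on a geodesic -/
private theorem fol_pt (hP : PM V d) (x y : V) {k : ℕ} (hk : k ≤ d x y) :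
    ∃ z, d x z = k ∧ d z y = d x y - k := by
  obtain ⟨γ, hγ, hy⟩ := hP.geod x y
  refine ⟨γ k, ?_, ?_⟩
  · have h1 := hγ.dist 0 k (Nat.zero_le k) hk
    rw [hγ.zero] at h1
    omega
  · have h1 := hγ.dist k (d x y) hk le_rfl
    rw [hy] at h1
    exact h1

theorem fol_step (hP : PM V d) {κ : ℕ} (hκ : 1 ≤ κ) (hN : NoTri d κ) {x a b a' b' : V} {s l : ℕ}
    (ha : d x a = s) (hb : d x b = s) (hab : d a b ≤ 2 * κ) (ha' : d x a' = s + l)
    (hb' : d x b' = s + l) (haa : d a a' = l) (hbb : d b b' = l) (hl : 2 * κ + 1 ≤ l)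
    (hl' : l ≤ 20 * κ) (hs : l ≤ s) : d a' b' ≤ 2 * κ := by
  have hax : d a x = s := by rw [hP.symm, ha]
  -- first part
  have h1 : d a b ≤ κ := by
    by_contra hm
    obtain ⟨a₁, e1, e2⟩ := fol_pt hP a a' (k := d a b) (by omega)
    obtain ⟨x₁, e3, e4⟩ := fol_pt hP a x (k := d a b) (by omega)
    have t1 := hP.tri x a₁ a'
    have s1 := hP.symm x x₁
    rcases hN a (d a b) b a₁ x₁ (by omega) (by omega) rfl e1 e3 with h | h | h
    · have t2 := hP.tri x b a₁
      omega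
    · have t2 := hP.tri x x₁ b
      have s2 := hP.symm b x₁
      omega
    · have t2 := hP.tri x x₁ a₁
      have s2 := hP.symm a₁ x₁
      omega
  -- second part
  have t1 := hP.tri x a b'
  have t2 := hP.tri a b b'
  obtain ⟨b₂, e1, e2⟩ := fol_pt hP a b' (k := l) (by omega)
  obtain ⟨x₁, e3, e4⟩ := fol_pt hP a x (k := l) (by omega)
  have t3 := hP.tri x b₂ b'
  have s1 := hP.symm x x₁
  rcases hN a l a' b₂ x₁ (by omega) (by omega) haa e1 e3 with h | h | h
  · have t4 := hP.tri a' b₂ b'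
    omega
  · have t4 := hP.tri x x₁ a'
    have s2 := hP.symm a' x₁
    omega
  · have t4 := hP.tri x x₁ b₂
    have s2 := hP.symm b₂ x₁
    omega

theorem fol_long (hP : PM V d) {κ : ℕ} (hκ : 1 ≤ κ) (hN : NoTri d κ) {x : V} {r : ℕ}
    {a b : ℕ → V} (ha : Ray d x r a) (hb : Ray d x r b) {s t : ℕ} (hs : 4 * κ + 2 ≤ s)
    (hst : s + (2 * κ + 1) ≤ t) (ht : t ≤ r) (h : d (a s) (b s) ≤ 2 * κ) :
    d (a t) (b t) ≤ 2 * κ := by
  have hxa : ∀ i, i ≤ r → d x (a i) = i := by
    intro i hi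
    have h1 := ha.dist 0 i (Nat.zero_le i) hi
    rw [ha.zero] at h1
    omega
  have hxb : ∀ i, i ≤ r → d x (b i) = i := by
    intro i hi
    have h1 := hb.dist 0 i (Nat.zero_le i) hi
    rw [hb.zero] at h1
    omega
  have step : ∀ s l : ℕ, 2 * κ + 1 ≤ l → l ≤ 20 * κ → l ≤ s → s + l ≤ r →
      d (a s) (b s) ≤ 2 * κ → d (a (s + l)) (b (s + l)) ≤ 2 * κ := by
    intro s l h1 h2 h3 h4 h5
    have e1 := ha.dist s (s + l) (by omega) h4
    have e2 := hb.dist s (s + l) (by omega) h4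
    exact fol_step hP hκ hN (hxa s (by omega)) (hxb s (by omega)) h5 (hxa _ h4) (hxb _ h4)
      (by omega) (by omega) h1 h2 h3
  obtain ⟨n, hn⟩ : ∃ n, t - s = n := ⟨_, rfl⟩
  induction n using Nat.strong_induction_on generalizing s with
  | _ n ih =>
    by_cases hc : t - s ≤ 20 * κ ∧ t - s ≤ s
    · have h1 := step s (t - s) (by omega) hc.1 hc.2 (by omega) h
      have h2 : s + (t - s) = t := by omega
      rwa [h2] at h1
    · have h1 := step s (2 * κ + 1) le_rfl (by omega) (by omega) (by omega) h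
      exact ih (t - (s + (2 * κ + 1))) (by omega) (by omega) (by omega) h1 rfl

end Pool.Agent.WDB
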