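import Pool.Agent.WDB.Ow

set_option autoImplicit false

/-!
# WB-Gap: the levels of pairs which are not nearly diametral avoid the level of a diametral pair

`level_mem` (from `w1`, `t - s > 2 ε`): the set `{lam x z ≤ t} \ {lam x z ≤ s}` is nonempty.
`lip_chain`: induction on `k`. Put `τ = η / (2 K)`. `k = 1`: `lip`. Step `k → k + 1` (`k ≥ 1`): by symmetry (`abs_sub_comm`; both orders have to be
proved, the conclusion is not symmetric but the induction statement is for all pairs) say `lam x y ≤ lam x' y'`. If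
`lam x' y' - lam x y ≤ τ` use `lip` (`C ≤ C (k + 1)`). Otherwise there is a pair `(u, v)` with
`lam x' y' - τ < lam u v ≤ lam x' y' - τ / 2` (`level_mem`, `τ / 2 > 2 ε`; note `lam x' y' - τ ≥ 0`). Then
`|lam u v - lam x' y'| ≤ τ` and `|lam x y - lam u v| ≤ k τ / 2`: indeed `lam u v ≤ lam x y + (k + 1) τ / 2 - τ / 2` and
`lam u v > lam x' y' - τ > lam x y`. The case `lam x' y' < lam x y` in the same way (choose `(u, v)` with level in
`[lam x' y' + τ / 2, lam x' y' + τ]`, i.e. in `(lam x' y' + τ / 2, lam x' y' + τ]`).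

`gap`: let `δ = |lam x z - lam p q|` and `k = ⌊2 δ / τ⌋₊ + 1`, so `δ ≤ k τ / 2` and `2 h ≤ d p q ≤ d x z + C k ≤ 15 h / 8 + C k`; hence
`h ≤ 8 C k ≤ 8 C (2 δ / τ + 1)`, and since `16 C ≤ h`: `h / 2 ≤ 16 C δ / τ`, `δ ≥ h τ / (32 C) = η h / (64 C K) ≥ 1 / (3200 C K)`.
-/

namespace Pool.Agent.WDB

open Finset Pool.Agent.WD

variable {V : Type} [Fintype V] [DecidableEq V] {lam : V → V → ℝ} {d : V → V → ℕ}
  {side : V → V → Bool} {K ε η : ℝ} {h C : ℕ}

theorem ow_nonempty (hW : Ow V lam d side K ε η h C) : Nonempty V := by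
  obtain ⟨x, _, _, _⟩ := hW.top
  exact ⟨x⟩

theorem ow_count (hW : Ow V lam d side K ε η h C) (x : V) {s t : ℝ} (hs : 0 ≤ s) (hst : s ≤ t)
    (ht : t ≤ 1) : (t - s - 2 * ε) * Fintype.card V ≤
      (univ.filter fun z => s < lam x z ∧ lam x z ≤ t).card := by
  have h1 := hW.w1 x t (hs.trans hst) ht
  have h2 := hW.w1 x s hs (hst.trans ht)
  rw [abs_le] at h1 h2
  have h3 : (univ.filter fun z => lam x z ≤ t) =
      (univ.filter fun z => lam x z ≤ s) ∪ (univ.filter fun z => s < lam x z ∧ lam x z ≤ t) := by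
    ext z
    simp only [mem_union, mem_filter, mem_univ, true_and]
    constructor
    · intro hz
      rcases le_or_gt (lam x z) s with h4 | h4
      · exact Or.inl h4
      · exact Or.inr ⟨h4, hz⟩
    · rintro (h4 | h4)
      · exact h4.trans hst
      · exact h4.2
  have h4 : ((univ.filter fun z => lam x z ≤ t).card : ℝ) ≤
      (univ.filter fun z => lam x z ≤ s).card +
        (univ.filter fun z => s < lam x z ∧ lam x z ≤ t).card := by
    rw [h3]
    exact_mod_cast card_union_le _ _
  nlinarith [h1.1, h2.2]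

theorem level_mem (hW : Ow V lam d side K ε η h C) (x : V) {s t : ℝ} (hs : 0 ≤ s)
    (hst : s + 2 * ε < t) (ht : t ≤ 1) : ∃ z, s < lam x z ∧ lam x z ≤ t := by
  have hne := ow_nonempty hW
  have heps := hW.heps
  have h1 := ow_count hW x hs (by linarith : s ≤ t) ht
  have h2 : (0 : ℝ) < Fintype.card V := by exact_mod_cast Fintype.card_pos
  have h3 : 0 < (t - s - 2 * ε) * Fintype.card V := mul_pos (by linarith) h2
  have h4 : (0 : ℝ) < (univ.filter fun z => s < lam x z ∧ lam x z ≤ t).card := h3.trans_le h1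
  have h5 : 0 < (univ.filter fun z => s < lam x z ∧ lam x z ≤ t).card := by exact_mod_cast h4
  obtain ⟨z, hz⟩ := card_pos.1 h5
  rw [mem_filter] at hz
  exact ⟨z, hz.2⟩

private theorem tau_facts (hW : Ow V lam d side K ε η h C) :
    0 < η / (4 * K) ∧ 2 * ε < η / (4 * K) ∧ η / (2 * K) = 2 * (η / (4 * K)) := by
  have hK := hW.hK
  have heps := hW.heps
  have heta := hW.heta
  have h1 : 2 * ε < η / (4 * K) := by
    rw [lt_div_iff₀ (by linarith)]
    have : 0 < K * ε := mul_pos (by linarith) heps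
    nlinarith
  refine ⟨by linarith, h1, ?_⟩
  field_simp
  norm_num

theorem lip_chain (hW : Ow V lam d side K ε η h C) (k : ℕ) (x y x' y' : V)
    (hk : |lam x y - lam x' y'| ≤ (k + 1) * (η / (4 * K))) : d x y ≤ d x' y' + C * (k + 1) := by
  obtain ⟨hσ0, hσ1, hσ2⟩ := tau_facts hW
  set σ := η / (4 * K) with hσ
  have hlip : ∀ x y x' y', |lam x y - lam x' y'| ≤ 2 * σ → d x y ≤ d x' y' + C := by
    intro x y x' y' h1
    apply hW.lip
    rw [hσ2]
    exact h1
  induction k generalizing x y x' y' with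
  | zero =>
    have h1 := hlip x y x' y' (by
      refine hk.trans ?_
      push_cast
      linarith)
    simpa using h1
  | succ k ih =>
    have hk' : |lam x y - lam x' y'| ≤ (k + 2) * σ := by
      refine hk.trans (le_of_eq ?_)
      push_cast
      ring
    rcases le_or_gt |lam x y - lam x' y'| (2 * σ) with h1 | h1
    · have h2 := hlip x y x' y' h1
      have h3 : C ≤ C * (k + 1 + 1) := Nat.le_mul_of_pos_right C (by omega)
      omega
    · have key : ∃ z, |lam x' z - lam x' y'| ≤ 2 * σ ∧ |lam x y - lam x' z| ≤ (k + 1) * σ := by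
        have b0 := hW.nonneg x y
        have b1 := hW.le_one x y
        have b2 := hW.nonneg x' y'
        have b3 := hW.le_one x' y'
        rcases le_total (lam x y) (lam x' y') with h2 | h2
        · rw [abs_sub_comm, abs_of_nonneg (by linarith)] at h1 hk'
          obtain ⟨z, hz1, hz2⟩ := level_mem hW x' (s := lam x' y' - 2 * σ) (t := lam x' y' - σ)
            (by linarith) (by linarith) (by linarith)
          refine ⟨z, ?_, ?_⟩
          · rw [abs_le]
            constructor <;> linarith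
          · rw [abs_le]
            constructor <;> linarith
        · rw [abs_of_nonneg (by linarith)] at h1 hk'
          obtain ⟨z, hz1, hz2⟩ := level_mem hW x' (s := lam x' y' + σ) (t := lam x' y' + 2 * σ)
            (by linarith) (by linarith) (by linarith)
          refine ⟨z, ?_, ?_⟩
          · rw [abs_le]
            constructor <;> linarith
          · rw [abs_le]
            constructor <;> linarith
      obtain ⟨z, hz1, hz2⟩ := key
      have h2 := hlip x' z x' y' hz1
      have h3 := ih x y x' z hz2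
      have h4 : C * (k + 1 + 1) = C * (k + 1) + C := by ring
      omega

theorem gap (hW : Ow V lam d side K ε η h C) (hh : 16 * C ≤ h) {p q : V} (hpq : 2 * h ≤ d p q)
    (x z : V) (hd : 8 * d x z ≤ 15 * h) : 1 / (3200 * C * K) ≤ |lam x z - lam p q| := by
  obtain ⟨hσ0, hσ1, hσ2⟩ := tau_facts hW
  have hK := hW.hK
  have hC : (1 : ℝ) ≤ C := by exact_mod_cast hW.hC
  have hbig := hW.hbig
  set σ := η / (4 * K) with hσ
  set δ := |lam x z - lam p q| with hδ
  have hδ0 : 0 ≤ δ := abs_nonneg _
  have hk1 : δ / σ < (⌊δ / σ⌋₊ : ℝ) + 1 := Nat.lt_floor_add_one _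
  have hk2 : (⌊δ / σ⌋₊ : ℝ) ≤ δ / σ := Nat.floor_le (div_nonneg hδ0 hσ0.le)
  generalize ⌊δ / σ⌋₊ = k at *
  have h1 := lip_chain hW k p q x z (by
    rw [abs_sub_comm, ← hδ, ← hσ]
    rw [div_lt_iff₀ hσ0] at hk1
    exact hk1.le)
  have h2 : (h : ℝ) ≤ 8 * (C * (k + 1)) := by
    have : h ≤ 8 * (C * (k + 1)) := by omega
    exact_mod_cast this
  have h3 : (16 : ℝ) * C ≤ h := by exact_mod_cast hh
  have h4 : (h : ℝ) * σ ≤ 16 * C * δ := by
    have h5 : (h : ℝ) ≤ 8 * C * (δ / σ) + 8 * C := by
      have := mul_le_mul_of_nonneg_left hk2 (by linarith : (0 : ℝ) ≤ 8 * C)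
      nlinarith
    have h6 : (h : ℝ) ≤ 16 * C * (δ / σ) := by linarith
    have h7 := mul_le_mul_of_nonneg_right h6 hσ0.le
    refine h7.trans (le_of_eq ?_)
    field_simp
  have h5 : 1 / (50 * (4 * K)) ≤ h * σ := by
    rw [hσ, ← mul_div_assoc, div_le_div_iff₀ (by positivity) (by positivity)]
    nlinarith
  rw [div_le_iff₀ (by positivity)]
  rw [div_le_iff₀ (by positivity)] at h5
  have h6 : h * σ * (50 * (4 * K)) ≤ 16 * C * δ * (50 * (4 * K)) :=
    mul_le_mul_of_nonneg_right h4 (by positivity)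
  nlinarith

end Pool.Agent.WDB
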