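import Mathlib

set_option autoImplicit false

/-!
# Coarse geometry: definitions (part B, helper28)

`d : V → V → ℕ` is a graph metric on a finite set. All statements of part B about such metrics are
elementary (triangle inequality, geodesics, counting of disjoint balls).
-/

namespace Pool.Agent.WDB

open Finset

/-- An integer valued pseudometric with geodesics. -/
structure PM (V : Type) (d : V → V → ℕ) : Prop where
  self : ∀ x, d x x = 0
  symm : ∀ x y, d x y = d y x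
  tri : ∀ x y z, d x z ≤ d x y + d y z
  path : ∀ x y, ∃ γ : ℕ → V, γ 0 = x ∧ γ (d x y) = y ∧ ∀ i, i < d x y → d (γ i) (γ (i + 1)) ≤ 1

/-- The number of points of a ball. -/
def vol {V : Type} [Fintype V] (d : V → V → ℕ) (x : V) (k : ℕ) : ℕ :=
  (univ.filter fun z => d x z ≤ k).card

/-- A nearly homogeneous graph metric of linear growth. -/
structure Geo (V : Type) [Fintype V] (d : V → V → ℕ) (A β : ℝ) : Prop extends PM V d where
  hom : ∀ x y, ∃ g : Equiv.Perm V, d (g x) y ≤ 1 ∧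
    ∀ p q, d (g p) (g q) ≤ d p q + 4 ∧ d p q ≤ d (g p) (g q) + 4
  pos : 0 < β
  lower : ∀ x, β ≤ vol d x 1
  upper : ∀ x k, 1 ≤ k → (vol d x k : ℝ) ≤ A * k * β

/-- The diameter. -/
def IsDiam {V : Type} (d : V → V → ℕ) (D : ℕ) : Prop := (∃ p q, d p q = D) ∧ ∀ x y, d x y ≤ D

/-- `a` is a geodesic of length `h` starting at `x`. -/
structure Ray {V : Type} (d : V → V → ℕ) (x : V) (h : ℕ) (a : ℕ → V) : Prop where
  zero : a 0 = x
  dist : ∀ i j, i ≤ j → j ≤ h → d (a i) (a j) = j - i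

/-- Two geodesics of length `h` in opposite directions. -/
structure Pair {V : Type} (d : V → V → ℕ) (x : V) (h : ℕ) (a b : ℕ → V) : Prop where
  left : Ray d x h a
  right : Ray d x h b
  cross : ∀ s t, s ≤ h → t ≤ h → s + t ≤ d (a s) (b t) + 14

/-- Every point is the middle of a geodesic of length `2 h`. -/
def Two {V : Type} (d : V → V → ℕ) (h : ℕ) : Prop := ∀ x, ∃ a b, Pair d x h a b

/-- No triods of size between `κ` and `20 κ`. -/
def NoTri {V : Type} (d : V → V → ℕ) (κ : ℕ) : Prop :=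
  ∀ x l y₁ y₂ y₃, κ ≤ l → l ≤ 20 * κ → d x y₁ = l → d x y₂ = l → d x y₃ = l →
    d y₁ y₂ ≤ κ ∨ d y₁ y₃ ≤ κ ∨ d y₂ y₃ ≤ κ

/-- Two long rays (of length `2 h`) from `x` which come near to every point. -/
structure Lng {V : Type} (d : V → V → ℕ) (h c : ℕ) (x : V) (A B : ℕ → V) : Prop where
  upA : ∀ r, r ≤ 2 * h → d x (A r) ≤ r
  upB : ∀ r, r ≤ 2 * h → d x (B r) ≤ r
  loA : ∀ r, r ≤ 2 * h → r ≤ d x (A r) + c
  loB : ∀ r, r ≤ 2 * h → r ≤ d x (B r) + c
  lipA : ∀ r s, r ≤ s → s ≤ 2 * h → d (A r) (A s) ≤ s - r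
  lipB : ∀ r s, r ≤ s → s ≤ 2 * h → d (B r) (B s) ≤ s - r
  cross : ∀ s t, s ≤ h → t ≤ h → s + t ≤ d (A s) (B t) + 14
  near : ∀ y, d y (A (min (d x y) (2 * h))) ≤ c ∨ d y (B (min (d x y) (2 * h))) ≤ c

/-- The distance of `t` from the multiples of `m`. -/
def cyc (m t : ℤ) : ℤ := min (t % m) (m - t % m)

/-- A coordinate in `ℤ / 4 h` which determines the distance up to `C`. -/
structure Loop {V : Type} (d : V → V → ℕ) (h C : ℕ) (pos : V → ℤ) : Prop where
  upper : ∀ x y, (d x y : ℤ) ≤ cyc (4 * h) (pos x - pos y) + C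
  lower : ∀ x y, cyc (4 * h) (pos x - pos y) ≤ (d x y : ℤ) + C
  surj : ∀ t : ℤ, ∃ y, cyc (4 * h) (pos y - t) ≤ C

/-- Linear growth: a ball of radius `r` has `(r ± C) n / D` points. -/
structure Lin {V : Type} [Fintype V] (d : V → V → ℕ) (D C : ℕ) : Prop where
  up : ∀ x r, D * vol d x r ≤ (r + C) * Fintype.card V
  lo : ∀ x r, r ≤ D → r * Fintype.card V ≤ D * vol d x r + C * Fintype.card V

/-- A side for all pairs at a distance between `C` and `2 h - C`. -/
structure Sided {V : Type} (d : V → V → ℕ) (h C : ℕ) (side : V → V → Bool) : Prop where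
  anti : ∀ x z, C ≤ d x z → d x z + C ≤ 2 * h → side z x = !side x z
  same : ∀ x z z', C ≤ d x z → d x z ≤ d x z' → d x z' + C ≤ 2 * h → side x z = side x z' →
    d z z' + d x z ≤ d x z' + C
  move : ∀ x x' z, d x x' ≤ 1 → C ≤ d x z → d x z + C ≤ 2 * h → side x z = side x' z
  top : ∀ x y z r, r ≤ d x y → r ≤ d y z → r ≤ d x z → 3 * r ≤ 4 * h + 3 * C

end Pool.Agent.WDB
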