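import Pool.Agent.WDB.Up
import Pool.Agent.WDB.Gr

set_option autoImplicit false

/-!
# WB-GeoW: at a selected scale the graph metric is nearly homogeneous and of linear growth

`hom`: `w4` and `hsel`: `dG η (g p) (g q) ≤ dG (η + ε) (g p) (g q) + 4 ≤ dG η p q + 4` (`dG_iso`), and
`dG η p q ≤ dG (η + ε) p q + 4 ≤ dG η (g p) (g q) + 4` (`dG_iso` for `g.symm`, `iso_symm`); `dG η (g x) y ≤ 1` since `rho (g x) y ≤ ε ≤ η`.
`lower`: `vol_dG_one`, `ball_lower`. `upper`: `vol_dG_le`, `ball_upper`: `40 (k η + 4 ε) n ≤ 41 k η n = 82 K k (η n / (2 K))`.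
-/

namespace Pool.Agent.WDB

open Finset Pool.Agent.WD

variable {V : Type} [Fintype V] [DecidableEq V] {K ε : ℝ} (w : World V K ε)

include w

theorem nonempty_world : Nonempty V := by
  obtain ⟨x, _⟩ := w.w6
  exact ⟨x⟩

theorem vol_dG_up (hK : 1 ≤ K) (hε : 0 < ε) {η : ℝ} (hη : 200 * K * ε ≤ η) (hη' : η ≤ 1) (x : V)
    (k : ℕ) (hk : 1 ≤ k) : (vol (dG w.lam η) x k : ℝ) ≤ 41 * k * η * Fintype.card V := by
  have h1 : 200 * ε ≤ η := by nlinarith
  have hη1 : ε ≤ η := by linarith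
  have hk' : (1 : ℝ) ≤ k := by exact_mod_cast hk
  have hn : (0 : ℝ) ≤ Fintype.card V := Nat.cast_nonneg _
  have hkη : η ≤ k * η := by nlinarith
  by_cases hε' : ε ≤ 1 / 1000
  · have h2 : (vol (dG w.lam η) x k : ℝ) ≤
        ((univ.filter fun z => rho w.lam x z ≤ k * η).card : ℝ) := by
      exact_mod_cast vol_dG_le w hη1 x k
    have h3 := ball_upper w hε hε' x (r := k * η) (by nlinarith)
    refine h2.trans (h3.trans (mul_le_mul_of_nonneg_right ?_ hn))
    nlinarith
  · have h2 : vol (dG w.lam η) x k ≤ Fintype.card V := card_le_univ _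
    have h3 : (vol (dG w.lam η) x k : ℝ) ≤ Fintype.card V := by exact_mod_cast h2
    have h4 : (1 : ℝ) ≤ 41 * k * η := by
      rw [mul_assoc]
      linarith
    calc (vol (dG w.lam η) x k : ℝ) ≤ 1 * Fintype.card V := by rw [one_mul]; exact h3
      _ ≤ _ := mul_le_mul_of_nonneg_right h4 hn

theorem geo_world (hK : 1 ≤ K) (hε : 0 < ε) {η : ℝ} (hη : 200 * K * ε ≤ η) (hη' : η ≤ 1)
    (hsel : ∀ x y, dG w.lam η x y ≤ dG w.lam (η + ε) x y + 4) :
    Geo V (dG w.lam η) (82 * K) (η * Fintype.card V / (2 * K)) := by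
  have hne := nonempty_world w
  have hKε : 0 < K * ε := by positivity
  have h1 : 200 * ε ≤ η := by nlinarith
  have hη1 : ε ≤ η := by linarith
  have hη0 : 0 < η := by linarith
  have hn : (0 : ℝ) < Fintype.card V := by exact_mod_cast Fintype.card_pos
  have hK0 : 0 < K := by linarith
  refine { toPM := pm_dG w hη1, hom := ?_, pos := ?_, lower := ?_, upper := ?_ }
  · intro x y
    obtain ⟨g, hg1, hg2, _⟩ := w.w4 x y
    refine ⟨g, (dG_le_one w hη1 _ _).2 (hg1.trans hη1), fun p q => ⟨?_, ?_⟩⟩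
    · have h2 := hsel (g p) (g q)
      have h3 := dG_iso w hη1 hg2 p q
      omega
    · have h2 := hsel p q
      have h3 := dG_iso w hη1 (g := g.symm) (iso_symm w.lam hg2) (g p) (g q)
      rw [Equiv.symm_apply_apply, Equiv.symm_apply_apply] at h3
      omega
  · positivity
  · intro x
    rw [vol_dG_one w hη1]
    have h2 := ball_lower w hK x (r := η) (by nlinarith) hη'
    refine le_trans (le_of_eq ?_) h2
    ring
  · intro x k hk
    have h2 := vol_dG_up w hK hε hη hη' x k hk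
    refine h2.trans (le_of_eq ?_)
    field_simp
    ring

theorem exists_diam {η : ℝ} : ∃ D, IsDiam (dG w.lam η) D := by
  have hne := nonempty_world w
  obtain ⟨⟨p, q⟩, hpq⟩ := Finite.exists_max fun a : V × V => dG w.lam η a.1 a.2
  exact ⟨dG w.lam η p q, ⟨p, q, rfl⟩, fun x y => hpq (x, y)⟩

/-- the diameter is large -/
theorem diam_large (hε : ε ≤ 1 / 1000) {η : ℝ} (hη : ε ≤ η) (hη0 : 0 < η) {D : ℕ}
    (hD : IsDiam (dG w.lam η) D) : 1 / 20 ≤ η * D := by
  obtain ⟨a, b, hab⟩ := far_pair w hε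
  have h1 := rho_le_dG w hη a b
  have h2 : (dG w.lam η a b : ℝ) ≤ D := by exact_mod_cast hD.2 a b
  calc (1 / 20 : ℝ) ≤ η * dG w.lam η a b := hab.trans h1
    _ ≤ η * D := mul_le_mul_of_nonneg_left h2 hη0.le

end Pool.Agent.WDB
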