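import Pool.Agent.WDB.Cyc

set_option autoImplicit false

/-!
# WB-Ivt: lifting a chain of residues; intermediate values
-/

namespace Pool.Agent.WDB

theorem exists_lift {m : ℤ} (hm : 0 < m) (q : ℕ → ℤ) (k : ℕ) (s : ℤ)
    (h : ∀ i, i < k → cyc m (q (i + 1) - q i) ≤ s) : ∃ P : ℕ → ℤ, P 0 = q 0 ∧
      (∀ i, i ≤ k → ∃ j : ℤ, P i = q i + j * m) ∧ ∀ i, i < k → |P (i + 1) - P i| ≤ s := by
  induction k with
  | zero =>
    refine ⟨q, rfl, fun i _ => ⟨0, by ring⟩, fun i hi => absurd hi (Nat.not_lt_zero i)⟩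
  | succ k ih =>
    obtain ⟨P, h0, h1, h2⟩ := ih fun i hi => h i (by omega)
    obtain ⟨j, hj⟩ := h1 k le_rfl
    obtain ⟨c, hc⟩ := cyc_exists hm (q (k + 1) - q k)
    refine ⟨fun i => if i ≤ k then P i else q (k + 1) + (c + j) * m, ?_, ?_, ?_⟩
    · simp only [Nat.zero_le, if_true]
      exact h0
    · intro i hi
      by_cases hik : i ≤ k
      · simp only [hik, if_true]
        exact h1 i hik
      · have e : i = k + 1 := by omega
        subst e
        simp only [hik, if_false]
        exact ⟨c + j, rfl⟩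
    · intro i hi
      have hik : i ≤ k := by omega
      by_cases hik2 : i + 1 ≤ k
      · simp only [hik, hik2, if_true]
        exact h2 i (by omega)
      · have e : i = k := by omega
        subst e
        simp only [hik2, le_refl, if_true, if_false]
        have e2 : q (i + 1) + (c + j) * m - P i = q (i + 1) - q i + c * m := by
          rw [hj]
          ring
        rw [e2, ← hc]
        exact h i (by omega)

theorem ivt (P : ℕ → ℤ) (k : ℕ) (s : ℤ) (hs : 0 ≤ s) (h : ∀ i, i < k → |P (i + 1) - P i| ≤ s)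
    (t : ℤ) (h₁ : min (P 0) (P k) ≤ t) (h₂ : t ≤ max (P 0) (P k)) :
    ∃ i, i ≤ k ∧ |P i - t| ≤ s := by
  induction k with
  | zero =>
    refine ⟨0, le_rfl, ?_⟩
    rw [min_self] at h₁
    rw [max_self] at h₂
    rw [abs_le]
    omega
  | succ k ih =>
    by_cases hk : min (P 0) (P k) ≤ t ∧ t ≤ max (P 0) (P k)
    · obtain ⟨i, hi, h3⟩ := ih (fun i hi => h i (by omega)) hk.1 hk.2
      exact ⟨i, by omega, h3⟩
    · refine ⟨k, by omega, ?_⟩
      have h3 := h k (by omega)
      rw [abs_le] at h3 ⊢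
      omega

end Pool.Agent.WDB
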