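import Pool.Agent.WDB.Add

set_option autoImplicit false

/-!
# WB-Lin: linear growth

`hyers`: let `g r = f r - r / D * f D`, `M = max |g|` over `0, .., D`, attained at `a`. Then `|g (r + s) - g r - g s| ≤ c` for
`r + s ≤ D` and `g D = 0`. If `2 a ≤ D`: `2 M ≤ |g (2 a)| + c ≤ M + c`, `M ≤ c`. If `2 a > D`: `0 = g D = g a + g (D - a) ± c` so
`|g (D - a)| ≥ M - c`, and `2 (D - a) ≤ D` gives `2 (M - c) ≤ 2 |g (D - a)| ≤ M + c`, so `M ≤ 3 c`.

`unit_le`: `D β ≤ 3 n`: the balls of radius `1` around `γ (3 i)`, `3 i ≤ D`, on a geodesic of length `D` are disjoint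
(`D / 3 + 1` balls with at least `β` points each).

`lin_of_loop`: `vol_add`, `hyers` for `f r = vol d x r` (`f D = n` by `IsDiam`), `c β D ≤ 3 c n`. So `|D vol - r n| ≤ 9 c n` for
`r ≤ D`; for `r > D`: `vol = n`, `D ≤ r`. Take `C' = ⌈9 c⌉₊`.
-/

namespace Pool.Agent.WDB

open Finset

theorem hyers (f : ℕ → ℝ) (D : ℕ) (hD : 0 < D) (c : ℝ)
    (hf : ∀ r s, r + s ≤ D → |f (r + s) - f r - f s| ≤ c) (r : ℕ) (hr : r ≤ D) :
    |f r - r / D * f D| ≤ 3 * c := by
  have hD' : (D : ℝ) ≠ 0 := by exact_mod_cast hD.ne'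
  obtain ⟨g, hg⟩ : ∃ g : ℕ → ℝ, ∀ r, g r = f r - r / D * f D := ⟨_, fun _ => rfl⟩
  have hc : 0 ≤ c := (abs_nonneg _).trans (hf 0 0 (by omega))
  have hgD : g D = 0 := by
    rw [hg, div_self hD']
    ring
  have hga : ∀ r s, r + s ≤ D → |g (r + s) - g r - g s| ≤ c := by
    intro r s h
    have h1 : g (r + s) - g r - g s = f (r + s) - f r - f s := by
      rw [hg, hg, hg]
      push_cast
      ring
    rw [h1]
    exact hf r s h
  obtain ⟨a, ha, hmax⟩ := Finset.exists_max_image (Finset.range (D + 1)) (fun i => |g i|)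
    ⟨0, by simp⟩
  have haD : a ≤ D := by
    have := Finset.mem_range.1 ha
    omega
  have hM : ∀ i, i ≤ D → |g i| ≤ |g a| := fun i hi =>
    hmax i (Finset.mem_range.2 (by omega))
  have key : |g a| ≤ 3 * c := by
    rcases le_or_gt (a + a) D with h | h
    · have h1 := hga a a h
      have h2 := hM _ h
      have h3 : |g a + g a| ≤ |g (a + a)| + c := by
        have h4 := abs_le.1 h1
        have h5 := abs_le.1 (le_refl |g (a + a)|)
        rw [abs_le]
        constructor <;> linarith [h4.1, h4.2, h5.1, h5.2]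
      have h4 : |g a + g a| = 2 * |g a| := by
        rw [← two_mul, abs_mul]
        norm_num
      linarith
    · have h1 := hga a (D - a) (by omega)
      rw [Nat.add_sub_cancel' haD, hgD] at h1
      have h2 := hga (D - a) (D - a) (by omega)
      have h3 := hM (D - a + (D - a)) (by omega)
      have h4 : |g (D - a) + g (D - a)| ≤ |g (D - a + (D - a))| + c := by
        have h5 := abs_le.1 h2
        have h6 := abs_le.1 (le_refl |g (D - a + (D - a))|)
        rw [abs_le]
        constructor <;> linarith [h5.1, h5.2, h6.1, h6.2]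
      have h5 : |g (D - a) + g (D - a)| = 2 * |g (D - a)| := by
        rw [← two_mul, abs_mul]
        norm_num
      have h6 : |g a| ≤ |g (D - a)| + c := by
        have h7 := abs_le.1 h1
        have h8 := abs_le.1 (le_refl |g (D - a)|)
        rw [abs_le]
        constructor <;> linarith [h7.1, h7.2, h8.1, h8.2]
      linarith
  rw [← hg]
  exact (hM r hr).trans key

private theorem geo_up {V : Type} {d : V → V → ℕ} (hd : PM V d) {γ : ℕ → V} {D : ℕ}
    (hγ : ∀ i, i < D → d (γ i) (γ (i + 1)) ≤ 1) (i : ℕ) :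
    ∀ k, i + k ≤ D → d (γ i) (γ (i + k)) ≤ k := by
  intro k
  induction k with
  | zero =>
    intro _
    rw [add_zero, hd.self]
  | succ k ih =>
    intro h
    have h1 := ih (by omega)
    have h2 := hγ (i + k) (by omega)
    have h3 := hd.tri (γ i) (γ (i + k)) (γ (i + k + 1))
    rw [← add_assoc]
    omega

private theorem geo_lo {V : Type} {d : V → V → ℕ} (hd : PM V d) {γ : ℕ → V} {D : ℕ}
    (hγ : ∀ i, i < D → d (γ i) (γ (i + 1)) ≤ 1) (hD : d (γ 0) (γ D) = D) (i j : ℕ)
    (hij : i ≤ j) (hj : j ≤ D) : j ≤ d (γ i) (γ j) + i := by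
  have h1 := geo_up hd hγ 0 i (by omega)
  rw [zero_add] at h1
  have h2 := geo_up hd hγ j (D - j) (by omega)
  rw [Nat.add_sub_cancel' hj] at h2
  have h3 := hd.tri (γ 0) (γ i) (γ D)
  have h4 := hd.tri (γ i) (γ j) (γ D)
  omega

theorem unit_le {V : Type} [Fintype V] {d : V → V → ℕ} {A β : ℝ} (hG : Geo V d A β) {D : ℕ}
    (hD : IsDiam d D) : D * β ≤ 3 * Fintype.card V := by
  classical
  obtain ⟨⟨p, q, hpq⟩, -⟩ := hD
  obtain ⟨γ, h0, h1, hγ⟩ := hG.path p q
  rw [hpq] at h1 hγ
  have hDD : d (γ 0) (γ D) = D := by rw [h0, h1, hpq]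
  have hPM : PM V d := hG.toPM
  have hdisj : ((Finset.range (D / 3 + 1) : Finset ℕ) : Set ℕ).PairwiseDisjoint
      (fun i => univ.filter fun z => d (γ (3 * i)) z ≤ 1) := by
    have key : ∀ i j, i < j → j < D / 3 + 1 → ∀ z, d (γ (3 * i)) z ≤ 1 →
        d (γ (3 * j)) z ≤ 1 → False := by
      intro i j hij hj z hz hz'
      have h2 := geo_lo hPM hγ hDD (3 * i) (3 * j) (by omega) (by omega)
      have h3 := hPM.tri (γ (3 * i)) z (γ (3 * j))
      rw [hPM.symm z] at h3
      omega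
    intro i hi j hj hij
    rw [Function.onFun, Finset.disjoint_left]
    intro z hz hz'
    have hz1 := (Finset.mem_filter.1 hz).2
    have hz2 := (Finset.mem_filter.1 hz').2
    have hi' : i < D / 3 + 1 := Finset.mem_range.1 hi
    have hj' : j < D / 3 + 1 := Finset.mem_range.1 hj
    rcases lt_or_gt_of_ne hij with h | h
    · exact key i j h hj' z hz1 hz2
    · exact key j i h hi' z hz2 hz1
  have hcard : ∑ i ∈ Finset.range (D / 3 + 1), vol d (γ (3 * i)) 1 ≤ Fintype.card V := by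
    have h2 := Finset.card_biUnion hdisj
    have h3 : ∑ i ∈ Finset.range (D / 3 + 1), vol d (γ (3 * i)) 1 =
        ((Finset.range (D / 3 + 1)).biUnion
          (fun i => univ.filter fun z => d (γ (3 * i)) z ≤ 1)).card := by
      rw [h2]
      rfl
    rw [h3]
    exact Finset.card_le_univ _
  have hlow : ((D / 3 + 1 : ℕ) : ℝ) * β ≤
      ((∑ i ∈ Finset.range (D / 3 + 1), vol d (γ (3 * i)) 1 : ℕ) : ℝ) := by
    rw [Nat.cast_sum]
    calc ((D / 3 + 1 : ℕ) : ℝ) * β = ∑ _i ∈ Finset.range (D / 3 + 1), β := by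
          rw [Finset.sum_const, Finset.card_range, nsmul_eq_mul]
      _ ≤ _ := Finset.sum_le_sum fun i _ => hG.lower _
  have hcard' : ((∑ i ∈ Finset.range (D / 3 + 1), vol d (γ (3 * i)) 1 : ℕ) : ℝ) ≤
      Fintype.card V := by exact_mod_cast hcard
  have hDn : D ≤ 3 * (D / 3 + 1) := by omega
  have hDr : (D : ℝ) ≤ 3 * ((D / 3 + 1 : ℕ) : ℝ) := by exact_mod_cast hDn
  have hβ := hG.pos
  calc (D : ℝ) * β ≤ 3 * ((D / 3 + 1 : ℕ) : ℝ) * β := mul_le_mul_of_nonneg_right hDr hβ.le
    _ = 3 * (((D / 3 + 1 : ℕ) : ℝ) * β) := by ring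
    _ ≤ 3 * Fintype.card V := by linarith

theorem lin_of_loop (A : ℝ) (C : ℕ) : ∃ C' H : ℕ,
    ∀ (V : Type) [Fintype V] (d : V → V → ℕ) (β : ℝ) (D : ℕ) (pos : V → ℤ),
      Geo V d A β → IsDiam d D → H ≤ D → Loop d (D / 2 - 5) C pos → Lin d D C' := by
  obtain ⟨c, H, hc, hvol⟩ := vol_add A C
  refine ⟨⌈9 * c⌉₊, max H 1, ?_⟩
  intro V _ d β D pos hG hD hHD hL
  have hH : H ≤ D := (le_max_left _ _).trans hHD
  have hD0 : 0 < D := lt_of_lt_of_le Nat.one_pos ((le_max_right _ _).trans hHD)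
  have hadd := hvol V d β D pos hG hD hH hL
  have hDr : (0 : ℝ) < D := by exact_mod_cast hD0
  have hfull : ∀ x r, D ≤ r → vol d x r = Fintype.card V := by
    intro x r hr
    unfold vol
    rw [Finset.filter_true_of_mem (fun z _ => (hD.2 x z).trans hr), Finset.card_univ]
  have hu := unit_le hG hD
  have key : ∀ x r, r ≤ D → |(D : ℝ) * vol d x r - r * Fintype.card V| ≤
      9 * c * Fintype.card V := by
    intro x r hr
    have h1 := hyers (fun i => (vol d x i : ℝ)) D hD0 (c * β) (fun r s hrs => hadd x r s hrs) r hr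
    simp only [hfull x D le_rfl] at h1
    have h2 : (D : ℝ) * vol d x r - r * Fintype.card V =
        D * ((vol d x r : ℝ) - r / D * Fintype.card V) := by
      field_simp
    rw [h2, abs_mul, abs_of_pos hDr]
    calc (D : ℝ) * |(vol d x r : ℝ) - r / D * Fintype.card V| ≤ D * (3 * (c * β)) :=
          mul_le_mul_of_nonneg_left h1 hDr.le
      _ = 3 * c * (D * β) := by ring
      _ ≤ 3 * c * (3 * Fintype.card V) := mul_le_mul_of_nonneg_left hu (by positivity)
      _ = _ := by ring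
  have hceil : 9 * c * Fintype.card V ≤ (⌈9 * c⌉₊ : ℝ) * Fintype.card V :=
    mul_le_mul_of_nonneg_right (Nat.le_ceil _) (Nat.cast_nonneg _)
  constructor
  · intro x r
    rcases le_or_gt r D with hr | hr
    · have h1 := (abs_le.1 (key x r hr)).2
      have h2 : (D : ℝ) * vol d x r ≤ (r + (⌈9 * c⌉₊ : ℝ)) * Fintype.card V := by
        rw [add_mul]
        linarith
      exact_mod_cast h2
    · rw [hfull x r hr.le]
      exact Nat.mul_le_mul_right _ (by omega)
  · intro x r hr
    have h1 := (abs_le.1 (key x r hr)).1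
    have h2 : (r : ℝ) * Fintype.card V ≤ D * vol d x r + (⌈9 * c⌉₊ : ℝ) * Fintype.card V := by
      linarith
    exact_mod_cast h2

end Pool.Agent.WDB
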