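import Pool.Agent.WDB.Three

set_option autoImplicit false

/-!
# WB-Long: two rays of length `2 h` from every point

Let `κ' = 2 κ + 14`. Take `a, b` at `x` (`Two`), `z = a h`, `a', b'` at `z`. By `near_ray` at `z` (`d z x = h`) `x` is
within `κ'` of `a' h` or `b' h`; exchange the names so that it is within `κ'` of `b' h`. Put `A r = a r` for `r ≤ h` and
`A r = a' (r - h)` for `h < r ≤ 2 h`. Lower bound: `d x (a' s) ≥ d (b' h) (a' s) - κ' ≥ h + s - 14 - κ'`. Lipschitz: geodesics, and through
`z = a h = a' 0`. The ray `B` in the same way from `b` (with `z₂ = b h`).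

`near`: let `r = d x y`. If `r ≤ h`: `near_ray` at `x`. If `r > h` (so `h < r ≤ 2 h + 11`): let `w` be the point at distance `h` from
`x` on a geodesic from `x` to `y` (`d w y = r - h`); `w` is within `κ'` of `a h` or `b h`; say `a h = z`. So
`r - h ≤ t := d z y ≤ r - h + κ'`. Let `y'` be the point at distance `t' = min t h` from `z` on a geodesic from `z` to `y`
(`d y' y = t - t' ≤ κ' + 11`). `near_ray` at `z`: `y'` is within `κ'` of `a' t'` or of `b' t'`.
 * `a' t'`: `A (min r (2 h)) = a' (min r (2 h) - h)` (also for `r = h + something ≤ 2 h`) and `|t' - (min r (2 h) - h)| ≤ κ'`, so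
   `d y (A (min r (2 h))) ≤ (κ' + 11) + κ' + κ' = 3 κ' + 11 = 6 κ + 53`.
 * `b' t'`: `r = d x y ≤ d x (b' h) + (h - t') + κ' + (t - t') ≤ 2 κ' + h - t' + t - t'`. If `t ≤ h` (`t' = t`) this gives
   `t + (r - h) ≤ 2 κ'` and `d y (A ..) ≤ t + (r - h)` (both `y` and `A (min r (2 h))` seen from `z = A h`; `r ≤ 2 h` here
   because `h` is large). If `t > h` then `t' = h` and `r ≤ 2 κ' + κ' + 11`, impossible since `r > h`.
The hypothesis `hh` makes `h` large.
-/

namespace Pool.Agent.WDB

variable {V : Type} {d : V → V → ℕ}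

private theorem pair_swap (hP : PM V d) {x : V} {h : ℕ} {a b : ℕ → V} (hab : Pair d x h a b) :
    Pair d x h b a :=
  ⟨hab.right, hab.left, fun s t hs ht => by
    have h1 := hab.cross t s ht hs
    rw [hP.symm (b s) (a t)]
    omega⟩

/-- the continuation of one ray -/
private theorem half_long (hP : PM V d) {κ : ℕ} (hκ : 1 ≤ κ) (hN : NoTri d κ) {h : ℕ}
    (hT : Two d h) (hD : ∀ x y, d x y ≤ 2 * h + 11) (hh : 100 * κ + 1000 ≤ h) {x : V}
    {a : ℕ → V} (ha : Ray d x h a) :
    ∃ A : ℕ → V, (∀ r, r ≤ h → A r = a r) ∧ (∀ r, r ≤ 2 * h → r ≤ d x (A r) + (6 * κ + 53)) ∧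
      (∀ r s, r ≤ s → s ≤ 2 * h → d (A r) (A s) ≤ s - r) ∧
      (∀ y w, h < d x y → d x w = h → d w y = d x y - h → d w (a h) ≤ 2 * κ + 14 →
        d y (A (min (d x y) (2 * h))) ≤ 6 * κ + 53) := by
  have hxz : d x (a h) = h := by
    have h1 := ha.dist 0 h (Nat.zero_le _) le_rfl
    rw [ha.zero] at h1
    exact h1
  obtain ⟨a', b', hab', hxb⟩ : ∃ a' b', Pair d (a h) h a' b' ∧ d x (b' h) ≤ 2 * κ + 14 := by
    obtain ⟨a', b', hab'⟩ := hT (a h)
    have hzx : d (a h) x = h := by rw [hP.symm]; exact hxz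
    rcases near_ray hP hκ hN hab' (y := x) (le_of_eq hzx) with h1 | h1
    · rw [hzx] at h1
      exact ⟨b', a', pair_swap hP hab', h1⟩
    · rw [hzx] at h1
      exact ⟨a', b', hab', h1⟩
  have ha' := hab'.left
  have hb' := hab'.right
  have hA1 : ∀ r, r ≤ h → (if r ≤ h then a r else a' (r - h)) = a r := fun r hr => if_pos hr
  have hA2 : ∀ r, h < r → (if r ≤ h then a r else a' (r - h)) = a' (r - h) := fun r hr =>
    if_neg (not_le.mpr hr)
  refine ⟨fun r => if r ≤ h then a r else a' (r - h), hA1, ?_, ?_, ?_⟩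
  · intro r hr
    by_cases hrh : r ≤ h
    · simp only [hA1 r hrh]
      have h1 := ha.dist 0 r (Nat.zero_le _) hrh
      rw [ha.zero] at h1
      omega
    · have hrh' : h < r := not_le.mp hrh
      simp only [hA2 r hrh']
      have h1 := hab'.cross (r - h) h (by omega) le_rfl
      have h2 := hP.tri (b' h) x (a' (r - h))
      rw [hP.symm (b' h) x] at h2
      rw [hP.symm (a' (r - h)) (b' h)] at h1
      omega
  · intro r s hrs hs
    by_cases hsh : s ≤ h
    · simp only [hA1 s hsh, hA1 r (hrs.trans hsh)]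
      exact le_of_eq (ha.dist r s hrs hsh)
    · have hsh' : h < s := not_le.mp hsh
      by_cases hrh : r ≤ h
      · simp only [hA2 s hsh', hA1 r hrh]
        have h1 := ha.dist r h hrh le_rfl
        have h2 := ha'.dist 0 (s - h) (Nat.zero_le _) (by omega)
        rw [ha'.zero] at h2
        have h3 := hP.tri (a r) (a h) (a' (s - h))
        omega
      · have hrh' : h < r := not_le.mp hrh
        simp only [hA2 s hsh', hA2 r hrh']
        have h1 := ha'.dist (r - h) (s - h) (by omega) (by omega)
        omega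
  · intro y w hr hxw hwy hwz
    have hr2 := hD x y
    have hr0 : h < min (d x y) (2 * h) := by
      apply lt_min hr
      omega
    simp only [hA2 _ hr0]
    obtain ⟨γ, hγ, hγy⟩ := PM.geod hP (a h) y
    have ht1 : d x y ≤ h + d (a h) y := by
      have := hP.tri x (a h) y
      omega
    have ht2 : d (a h) y ≤ d x y - h + (2 * κ + 14) := by
      have h1 := hP.tri (a h) w y
      rw [hP.symm (a h) w] at h1
      omega
    generalize ht : d (a h) y = t at *
    generalize hrr : d x y = r at *
    have hzy' : d (a h) (γ (min t h)) = min t h := by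
      have h1 := hγ.dist 0 (min t h) (Nat.zero_le _) (min_le_left _ _)
      rw [hγ.zero] at h1
      omega
    have hyy' : d (γ (min t h)) y = t - min t h := by
      have h1 := hγ.dist (min t h) t (min_le_left _ _) le_rfl
      rw [hγy] at h1
      exact h1
    have hn := near_ray hP hκ hN hab' (y := γ (min t h)) (by rw [hzy']; exact min_le_right _ _)
    rw [hzy'] at hn
    have hs1 : d y (γ (min t h)) = t - min t h := by rw [hP.symm]; exact hyy'
    rcases hn with hn | hn
    · -- the point is near `a'`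
      have h1 := hP.tri y (γ (min t h)) (a' (min r (2 * h) - h))
      have h2 := hP.tri (γ (min t h)) (a' (min t h)) (a' (min r (2 * h) - h))
      have h3 := ha'.dist (min r (2 * h) - h) (min t h) (by omega) (min_le_right _ _)
      rw [hP.symm] at h3
      omega
    · -- the point is near `b'`
      have h1 := hP.tri x (b' h) y
      have h2 := hP.tri (b' h) (b' (min t h)) y
      have h3 := hP.tri (b' (min t h)) (γ (min t h)) y
      have h4 := hb'.dist (min t h) h (min_le_right _ _) le_rfl
      rw [hP.symm] at h4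
      have h5 : d (b' (min t h)) (γ (min t h)) ≤ 2 * κ + 14 := by rw [hP.symm]; exact hn
      by_cases hth : t ≤ h
      · have h6 := ha'.dist 0 (min r (2 * h) - h) (Nat.zero_le _) (by omega)
        rw [ha'.zero] at h6
        have h7 := hP.tri y (a h) (a' (min r (2 * h) - h))
        rw [hP.symm y (a h)] at h7
        omega
      · omega

theorem exists_long (hP : PM V d) {κ : ℕ} (hκ : 1 ≤ κ) (hN : NoTri d κ) {h : ℕ} (hT : Two d h)
    (hD : ∀ x y, d x y ≤ 2 * h + 11) (hh : 100 * κ + 1000 ≤ h) (x : V) :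
    ∃ A B, Lng d h (6 * κ + 53) x A B := by
  obtain ⟨a, b, hab⟩ := hT x
  obtain ⟨A, hA1, hA2, hA3, hA4⟩ := half_long hP hκ hN hT hD hh hab.left
  obtain ⟨B, hB1, hB2, hB3, hB4⟩ := half_long hP hκ hN hT hD hh hab.right
  refine ⟨A, B, ?_, ?_, hA2, hB2, hA3, hB3, ?_, ?_⟩
  · intro r hr
    have h1 := hA3 0 r (Nat.zero_le _) hr
    rw [hA1 0 (Nat.zero_le _), hab.left.zero] at h1
    exact h1
  · intro r hr
    have h1 := hB3 0 r (Nat.zero_le _) hr
    rw [hB1 0 (Nat.zero_le _), hab.right.zero] at h1
    exact h1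
  · intro s t hs ht
    rw [hA1 s hs, hB1 t ht]
    exact hab.cross s t hs ht
  · intro y
    by_cases hr : d x y ≤ h
    · have h1 : min (d x y) (2 * h) = d x y := min_eq_left (by omega)
      rw [h1, hA1 _ hr, hB1 _ hr]
      rcases near_ray hP hκ hN hab hr with h2 | h2
      · left
        omega
      · right
        omega
    · have hr' : h < d x y := not_le.mp hr
      obtain ⟨γ, hγ, hγy⟩ := PM.geod hP x y
      have hw : d x (γ h) = h := by
        have h1 := hγ.dist 0 h (Nat.zero_le _) hr'.le
        rw [hγ.zero] at h1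
        exact h1
      have hwy : d (γ h) y = d x y - h := by
        have h1 := hγ.dist h (d x y) hr'.le le_rfl
        rw [hγy] at h1
        exact h1
      have hn := near_ray hP hκ hN hab (y := γ h) (le_of_eq hw)
      rw [hw] at hn
      rcases hn with hn | hn
      · exact Or.inl (hA4 y (γ h) hr' hw hwy hn)
      · exact Or.inr (hB4 y (γ h) hr' hw hwy hn)

end Pool.Agent.WDB
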