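import Pool.Agent.WDB.PosA

set_option autoImplicit false

/-!
# WB-Pos: the circular coordinate, global

`cpos_global`: divide a geodesic (`PM.geod`) from `y` to `y'` (length `≤ 2 h + 11`) into at most `9` pieces of length at
most `h / 4`. Convenient: prove by induction on `k`: if `d y y' ≤ k (h / 4)` then `cyc ≤ d y y' + k (28 c + 90)` (`cyc_tri`);
`9 (h / 4) ≥ 2 h + 11` because `h` is large. `9 (28 c + 90) = 252 c + 810`.

`cpos_surj`: choose the representative `p` of `t` modulo `4 h` with `-2 h ≤ p ≤ 2 h` (`cyc_congr`); if `p ≥ 0` take `y = A p`, if `p < 0` take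
`y = B (-p)`. Let `r = min (d x y) (2 h)`, `|p| - c ≤ r ≤ |p|` (`upA`, `loA`, ..). If the sign of `cpos y` agrees: `cyc ≤ c`. If not: e.g.
`y = B q`, `cpos y = r`, `d y (A r) ≤ c`, and `cross_pt` gives `min (r + q) (4 h - r - q) ≤ c + 26 c + 90`, which is `cyc (cpos y + q)`.
For `y = A p` with `cpos y = - r`: `d y (B r) ≤ c` by the field `near`, in the same way.

`loop_of_long`: `pos = cpos d h c x A`.
-/

namespace Pool.Agent.WDB

variable {V : Type} {d : V → V → ℕ}

private theorem cpos_glob_aux (hP : PM V d) {h c : ℕ} {x : V}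
    {A B : ℕ → V} (hL : Lng d h c x A B)
    (hX : ∀ s s', s ≤ h → s' ≤ h → s + s' ≤ d (A (2 * h - s)) (B (2 * h - s')) + (26 * c + 90))
    (hh : 100 * c + 1000 ≤ h) (k : ℕ) (y y' : V) (hd : d y y' ≤ (k + 1) * (h / 4)) :
    cyc (4 * h) (cpos d h c x A y - cpos d h c x A y') ≤
      (d y y' : ℤ) + (k + 1) * (28 * c + 90) := by
  have hm : (0 : ℤ) < 4 * h := by omega
  induction k generalizing y y' with
  | zero =>
    have h1 := cpos_local hP hL hX hh y y' (by simpa using hd)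
    push_cast at h1 ⊢
    linarith
  | succ k ih =>
    by_cases hk : d y y' ≤ (k + 1) * (h / 4)
    · have h1 := ih y y' hk
      have hc : (0 : ℤ) ≤ c := Nat.cast_nonneg c
      push_cast
      linarith
    · have hk' : (k + 1) * (h / 4) ≤ d y y' := (not_le.mp hk).le
      obtain ⟨γ, hγ, hγy⟩ := PM.geod hP y y'
      have e1 : d y (γ ((k + 1) * (h / 4))) = (k + 1) * (h / 4) := by
        have h1 := hγ.dist 0 ((k + 1) * (h / 4)) (Nat.zero_le _) hk'
        rw [hγ.zero] at h1
        simpa using h1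
      have e2 : d (γ ((k + 1) * (h / 4))) y' = d y y' - (k + 1) * (h / 4) := by
        have h1 := hγ.dist ((k + 1) * (h / 4)) (d y y') hk' le_rfl
        rw [hγy] at h1
        exact h1
      have e3 : (k + 1 + 1) * (h / 4) = (k + 1) * (h / 4) + h / 4 := by ring
      have h1 := ih y (γ ((k + 1) * (h / 4))) (le_of_eq e1)
      have h2 := cpos_local hP hL hX hh (γ ((k + 1) * (h / 4))) y' (by rw [e2]; omega)
      have h3 := cyc_tri hm (cpos d h c x A y - cpos d h c x A (γ ((k + 1) * (h / 4))))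
        (cpos d h c x A (γ ((k + 1) * (h / 4))) - cpos d h c x A y')
      have e4 : cpos d h c x A y - cpos d h c x A (γ ((k + 1) * (h / 4))) +
        (cpos d h c x A (γ ((k + 1) * (h / 4))) - cpos d h c x A y') =
        cpos d h c x A y - cpos d h c x A y' := by ring
      rw [e4] at h3
      have e5 : (d y (γ ((k + 1) * (h / 4))) : ℤ) + (d (γ ((k + 1) * (h / 4))) y' : ℤ) =
          (d y y' : ℤ) := by
        rw [e1, e2, Nat.cast_sub hk']
        ring
      push_cast at h1 h2 ⊢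
      linarith

theorem cpos_global (hP : PM V d) {h c : ℕ} (hD : ∀ x y, d x y ≤ 2 * h + 11) {x : V}
    {A B : ℕ → V} (hL : Lng d h c x A B)
    (hX : ∀ s s', s ≤ h → s' ≤ h → s + s' ≤ d (A (2 * h - s)) (B (2 * h - s')) + (26 * c + 90))
    (hh : 100 * c + 1000 ≤ h) (y y' : V) :
    cyc (4 * h) (cpos d h c x A y - cpos d h c x A y') ≤ (d y y' : ℤ) + (252 * c + 810 : ℕ) := by
  have h1 := cpos_glob_aux hP hL hX hh 8 y y' (by have := hD y y'; omega)
  push_cast at h1 ⊢
  linarith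

private theorem surj_aux (hP : PM V d) {h c : ℕ} {x : V} {A B : ℕ → V} (hL : Lng d h c x A B)
    (hX : ∀ s s', s ≤ h → s' ≤ h → s + s' ≤ d (A (2 * h - s)) (B (2 * h - s')) + (26 * c + 90))
    (hh : 100 * c + 1000 ≤ h) {r r' : ℕ} (hr : r ≤ 2 * h) (hr' : r' ≤ 2 * h)
    (hd : d (A r) (B r') ≤ c) :
    cyc (4 * h) ((r : ℤ) + r') ≤ (252 * c + 810 : ℕ) := by
  have hm : (0 : ℤ) < 4 * h := by omega
  have h1 := cross_pt hP hL hX hh hr hr' (by omega)
  rw [cyc_of_nonneg hm (by positivity) (by omega)]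
  have h2 : min (r + r') (4 * h - (r + r')) ≤ 27 * c + 90 := by omega
  push_cast
  omega

theorem cpos_surj (hP : PM V d) {h c : ℕ} {x : V} {A B : ℕ → V} (hL : Lng d h c x A B)
    (hX : ∀ s s', s ≤ h → s' ≤ h → s + s' ≤ d (A (2 * h - s)) (B (2 * h - s')) + (26 * c + 90))
    (hh : 100 * c + 1000 ≤ h) (t : ℤ) :
    ∃ y, cyc (4 * h) (cpos d h c x A y - t) ≤ (252 * c + 810 : ℕ) := by
  have hm : (0 : ℤ) < 4 * h := by omega
  obtain ⟨p, k, hpk, hp1, hp2⟩ : ∃ p k : ℤ, t = p + k * (4 * h) ∧ -(2 * h) ≤ p ∧ p ≤ 2 * h := by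
    have h1 := Int.emod_add_mul_ediv t (4 * h)
    have h2 := Int.emod_nonneg t (ne_of_gt hm)
    have h3 := Int.emod_lt_of_pos t hm
    by_cases h4 : t % (4 * h) ≤ 2 * h
    · exact ⟨t % (4 * h), t / (4 * h), by linarith, by omega, h4⟩
    · exact ⟨t % (4 * h) - 4 * h, t / (4 * h) + 1, by linarith, by omega, by omega⟩
  have hcg : ∀ y, cyc (4 * h) (cpos d h c x A y - t) = cyc (4 * h) (cpos d h c x A y - p) := by
    intro y
    exact cyc_congr hm (k := -k) (by rw [hpk]; ring)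
  rcases le_total 0 p with hp | hp
  · obtain ⟨P, rfl⟩ := Int.eq_ofNat_of_zero_le hp
    have hP2 : P ≤ 2 * h := by omega
    refine ⟨A P, ?_⟩
    rw [hcg]
    have h1 := hL.upA P hP2
    have h2 := hL.loA P hP2
    have hmin : min (d x (A P)) (2 * h) = d x (A P) := min_eq_left (by omega)
    have h3 := hL.near (A P)
    rw [hmin] at h3
    unfold cpos
    rw [hmin]
    by_cases h4 : d (A P) (A (d x (A P))) ≤ c
    · rw [if_pos h4]
      refine (cyc_le_abs hm _).trans ?_
      rw [abs_le]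
      push_cast
      constructor <;> omega
    · rw [if_neg h4]
      have h5 : d (A P) (B (d x (A P))) ≤ c := h3.resolve_left h4
      have h6 := surj_aux hP hL hX hh hP2 (h1.trans hP2) h5
      have e : (-((d x (A P) : ℕ) : ℤ) - (P : ℤ)) = -((P : ℤ) + (d x (A P) : ℕ)) := by ring
      show cyc (4 * h) (-((d x (A P) : ℕ) : ℤ) - (P : ℤ)) ≤ _
      rw [e, cyc_neg hm]
      exact h6
  · obtain ⟨P, hPp⟩ := Int.eq_ofNat_of_zero_le (show 0 ≤ -p by omega)
    have hp' : p = -(P : ℤ) := by omega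
    subst hp'
    have hP2 : P ≤ 2 * h := by omega
    refine ⟨B P, ?_⟩
    rw [hcg]
    have h1 := hL.upB P hP2
    have h2 := hL.loB P hP2
    have hmin : min (d x (B P)) (2 * h) = d x (B P) := min_eq_left (by omega)
    unfold cpos
    rw [hmin]
    by_cases h4 : d (B P) (A (d x (B P))) ≤ c
    · rw [if_pos h4]
      rw [hP.symm] at h4
      have h6 := surj_aux hP hL hX hh (h1.trans hP2) hP2 h4
      have e : (((d x (B P) : ℕ) : ℤ) - -(P : ℤ)) = ((d x (B P) : ℕ) : ℤ) + P := by ring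
      rw [e]
      exact h6
    · rw [if_neg h4]
      refine (cyc_le_abs hm _).trans ?_
      rw [abs_le]
      push_cast
      constructor <;> omega

theorem loop_of_long (hP : PM V d) {h c : ℕ} (hD : ∀ x y, d x y ≤ 2 * h + 11) {x : V}
    {A B : ℕ → V} (hL : Lng d h c x A B) (hE : d (A (2 * h)) (B (2 * h)) ≤ 6 * c + 16)
    (hX : ∀ s s', s ≤ h → s' ≤ h → s + s' ≤ d (A (2 * h - s)) (B (2 * h - s')) + (26 * c + 90))
    (hh : 100 * c + 1000 ≤ h) : ∃ pos : V → ℤ, Loop d h (252 * c + 810) pos := by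
  refine ⟨cpos d h c x A, fun y y' => (cpos_upper hP hL hE hh y y').trans ?_,
    cpos_global hP hD hL hX hh, cpos_surj hP hL hX hh⟩
  push_cast
  linarith [Nat.cast_nonneg (α := ℤ) c]

end Pool.Agent.WDB
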