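import Pool.Agent.WDB.NoTri
import Pool.Agent.WDB.Long
import Pool.Agent.WDB.End
import Pool.Agent.WDB.Cross
import Pool.Agent.WDB.Pos

set_option autoImplicit false

/-!
# The loop coordinate of a nearly homogeneous graph metric of linear growth
-/

namespace Pool.Agent.WDB

open Finset

theorem exists_loop (A : ℝ) : ∃ C H : ℕ, ∀ (V : Type) [Fintype V] (d : V → V → ℕ) (β : ℝ) (D : ℕ),
    Geo V d A β → IsDiam d D → H ≤ D → ∃ pos : V → ℤ, Loop d (D / 2 - 5) C pos := by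
  obtain ⟨κ₀, H, hκ⟩ := exists_noTri A
  refine ⟨1512 * κ₀ + 14166, 2 * H + 2000 * κ₀ + 20000, ?_⟩
  intro V _ d β D hG hD hHD
  have hT := two_of_geo hG hD
  obtain ⟨h, hh⟩ : ∃ h, h = D / 2 - 5 := ⟨_, rfl⟩
  rw [← hh] at hT ⊢
  have hh1 : H + 1000 * κ₀ + 9000 ≤ h := by omega
  have hD3 : D ≤ 2 * h + 11 := by omega
  have hD2 : ∀ x y, d x y ≤ 2 * h + 11 := fun x y => (hD.2 x y).trans hD3
  have hH1 : H ≤ h := by omega
  obtain ⟨κ, hκ1, hκ2, hN⟩ := hκ V d β hG h hT hH1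
  obtain ⟨p, q, hpq⟩ := hD.1
  have hP : PM V d := hG.toPM
  have e1 : 1 ≤ κ := by omega
  have e2 : 100 * κ + 1000 ≤ h := by omega
  obtain ⟨c, hc⟩ : ∃ c, c = 6 * κ + 53 := ⟨_, rfl⟩
  have e3 : 100 * c + 1000 ≤ h := by omega
  have e4 : 2 * κ + 14 ≤ c := by omega
  obtain ⟨A', B', hL⟩ := exists_long hP e1 hN hT hD2 e2 p
  rw [← hc] at hL
  have hE := ends_meet hP hT hL e3
  have hX : ∀ s s', s ≤ h → s' ≤ h →
      s + s' ≤ d (A' (2 * h - s)) (B' (2 * h - s')) + (26 * c + 90) :=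
    fun s s' hs hs' => ends_cross hP e1 hN hT e4 hL hE e3 s s' hs hs'
  obtain ⟨pos, hpos⟩ := loop_of_long hP hD2 hL hE hX e3
  have h2 : ((252 * c + 810 : ℕ) : ℤ) ≤ ((1512 * κ₀ + 14166 : ℕ) : ℤ) := by
    have : 252 * c + 810 ≤ 1512 * κ₀ + 14166 := by omega
    exact_mod_cast this
  refine ⟨pos, ⟨fun x y => ?_, fun x y => ?_, fun t => ?_⟩⟩
  · exact (hpos.upper x y).trans (by linarith)
  · exact (hpos.lower x y).trans (by linarith)
  · obtain ⟨y, hy⟩ := hpos.surj t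
    exact ⟨y, hy.trans h2⟩

end Pool.Agent.WDB
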