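import Pool.Agent.WDB.Two

set_option autoImplicit false

/-!
# WB-Merge: no merging of strands between two scales

`d` is the metric of the finer scale, `d'` of the coarser scale. Let `d' p q ≤ 1`, `k = d p q ≥ 1`, `k' = (k - 1) / 2`. The `d`-balls of
radius `k'` around `p` and `q` are disjoint (`2 k' < k`) and contained in the `d'`-ball of radius `k' / θ + 2` around `p`. By `Lin` (lower
bound for `d`, `k' ≤ D`; upper bound for `d'`), with `n > 0` points:
`2 (k' - C) n D' ≤ D D' (vol d p k' + vol d q k') ≤ D D' vol d' p (k' / θ + 2) ≤ D (k' / θ + 2 + C) n`, and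
`3 D ≤ 4 (θ + 1) D'`, so `6 (k' - C) ≤ 4 (θ + 1) (k' / θ + 2 + C) ≤ 4 (17 / 16) k' + 260 (2 + C)` (`k' / θ` natural division, `≤`; `D' > 0`
unless `D = 0` and then `k = 0`). So `(7 / 4) k' ≤ 6 C + 520 + 260 C` and `k ≤ 2 k' + 2`; `C₁ = 306 C + 600` is enough.
-/

namespace Pool.Agent.WDB

open Finset

theorem no_merge (C : ℕ) : ∃ C₁ : ℕ, ∀ (V : Type) [Fintype V] (d d' : V → V → ℕ) (D D' θ : ℕ),
    PM V d → PM V d' → IsDiam d D → Lin d D C → Lin d' D' C → 16 ≤ θ → θ ≤ 64 →
      (∀ x y, d' x y ≤ d x y / θ + 1) → 3 * D ≤ 4 * (θ + 1) * D' →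
        ∀ p q, d' p q ≤ 1 → d p q ≤ C₁ := by
  classical
  refine ⟨306 * C + 600, ?_⟩
  intro V _ d d' D D' θ hd hd' hD hL hL' hθ hθ' hc hD' p q hpq
  by_contra hk
  push Not at hk
  have hkD : d p q ≤ D := hD.2 p q
  obtain ⟨k, hk0⟩ : ∃ k, k = d p q := ⟨_, rfl⟩
  obtain ⟨k', hk'⟩ : ∃ k', k' = (k - 1) / 2 := ⟨_, rfl⟩
  have hk1 : 2 * k' + 1 ≤ k := by omega
  have hk2 : k ≤ 2 * k' + 2 := by omega
  obtain ⟨r, hr⟩ : ∃ r, r = k' / θ + 2 := ⟨_, rfl⟩
  have hn : 0 < Fintype.card V := Fintype.card_pos_iff.mpr ⟨p⟩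
  have hdisj : Disjoint (univ.filter fun z => d p z ≤ k') (univ.filter fun z => d q z ≤ k') := by
    rw [Finset.disjoint_left]
    intro z hz hz'
    simp only [mem_filter, mem_univ, true_and] at hz hz'
    have h1 := hd.tri p z q
    have h2 := hd.symm z q
    omega
  have hvol : vol d p k' + vol d q k' ≤ vol d' p r := by
    unfold vol
    rw [← Finset.card_union_of_disjoint hdisj]
    apply Finset.card_le_card
    intro z hz
    simp only [mem_union, mem_filter, mem_univ, true_and] at hz ⊢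
    rcases hz with hz | hz
    · have h1 := hc p z
      have h2 : d p z / θ ≤ k' / θ := Nat.div_le_div_right hz
      omega
    · have h1 := hc q z
      have h2 : d q z / θ ≤ k' / θ := Nat.div_le_div_right hz
      have h3 := hd'.tri p q z
      omega
  have h1 := hL.lo p k' (by omega)
  have h2 := hL.lo q k' (by omega)
  have h3 := hL'.up p r
  have hD'0 : 0 < D' := by
    rcases Nat.eq_zero_or_pos D' with h | h
    · rw [h] at hD'
      omega
    · exact h
  -- 2 k' n ≤ D vol' + 2 C n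
  have h4 : 2 * k' * Fintype.card V ≤ D * vol d' p r + 2 * C * Fintype.card V := by
    have : D * (vol d p k' + vol d q k') ≤ D * vol d' p r := Nat.mul_le_mul_left _ hvol
    nlinarith
  have h5 : (2 * k' * D') * Fintype.card V ≤ (D * (r + C) + 2 * C * D') * Fintype.card V := by
    have h6 : D' * (2 * k' * Fintype.card V) ≤ D' * (D * vol d' p r + 2 * C * Fintype.card V) :=
      Nat.mul_le_mul_left _ h4
    have h7 : D * (D' * vol d' p r) ≤ D * ((r + C) * Fintype.card V) := Nat.mul_le_mul_left _ h3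
    nlinarith
  have h8 : 2 * k' * D' ≤ D * (r + C) + 2 * C * D' := Nat.le_of_mul_le_mul_right h5 hn
  have h9 : (6 * k') * D' ≤ (4 * (θ + 1) * (r + C) + 6 * C) * D' := by
    have h10 : (3 * D) * (r + C) ≤ (4 * (θ + 1) * D') * (r + C) := Nat.mul_le_mul_right _ hD'
    nlinarith
  have h10 : 6 * k' ≤ 4 * (θ + 1) * (r + C) + 6 * C := Nat.le_of_mul_le_mul_right h9 hD'0
  have h11 : θ * (k' / θ) ≤ k' := Nat.mul_div_le k' θ
  have h12 : 16 * (k' / θ) ≤ k' := le_trans (Nat.mul_le_mul_right _ hθ) h11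
  have h13 : θ * (2 + C) ≤ 64 * (2 + C) := Nat.mul_le_mul_right _ hθ'
  have h14 : (θ + 1) * (r + C) = θ * (k' / θ) + k' / θ + θ * (2 + C) + (2 + C) := by
    rw [hr]; ring
  have h15 : 4 * (θ + 1) * (r + C) = 4 * ((θ + 1) * (r + C)) := by ring
  rw [h15, h14] at h10
  omega

end Pool.Agent.WDB
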