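import Pool.Agent.WDB.Tri

set_option autoImplicit false

/-!
# WB-NoTri: a scale without triods

Define `k 0 = 7`, `k (i + 1) = 161 k i + 85`. Claim: `k i + 1 ≤ 8 * 161 ^ i`. Suppose that for all `i < I` the statement
`NoTri d (8 * k i)` fails: then there is a triod (`x, l, y₁, y₂, y₃` with `8 k i ≤ l ≤ 160 k i` and pairwise distances
`> 8 k i`), hence by `vol_step` and `vol_transfer`: if all balls of radius `k i` have at least `m` points then all balls of
radius `k (i + 1) = 161 k i + 80 + 5` have at least `162 m` points. By induction all balls of radius `k I` have at least `162 ^ I m₀`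
points where `m₀` is the least number of points of a ball of radius `7` (`β ≤ m₀` since `vol` is monotone in the radius;
`m₀ = ⌈β⌉₊` is enough: a natural number, `vol d z 1 ≥ β` gives `vol d z 7 ≥ ⌈β⌉₊`). So
`162 ^ I β ≤ vol d x (k I) ≤ A (k I) β ≤ 8 A 161 ^ I β`, a contradiction for `I` with `8 A < (162 / 161) ^ I`
(`V` is nonempty: otherwise `NoTri d κ` is trivial for every `κ`, take `κ = 56`).
`κ₀ = 8 k I`, `H = 80 (2 k I + 1)` (for `i < I`, `k i ≤ k I`).
-/

namespace Pool.Agent.WDB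

open Finset

private def kk : ℕ → ℕ
  | 0 => 7
  | (i + 1) => 161 * kk i + 85

private theorem kk_succ (i : ℕ) : kk (i + 1) = 161 * kk i + 85 := rfl

private theorem kk_le (i : ℕ) : kk i + 1 ≤ 8 * 161 ^ i := by
  induction i with
  | zero => simp [kk]
  | succ i ih =>
    rw [kk_succ, pow_succ]
    omega

private theorem kk_mono : Monotone kk := by
  refine monotone_nat_of_le_succ fun i => ?_
  rw [kk_succ]
  omega

private theorem kk_ge (i : ℕ) : 7 ≤ kk i := kk_mono (Nat.zero_le i)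

private theorem vol_mono {V : Type} [Fintype V] (d : V → V → ℕ) (x : V) {k l : ℕ} (h : k ≤ l) :
    vol d x k ≤ vol d x l := by
  unfold vol
  refine card_le_card fun z hz => ?_
  rw [mem_filter] at hz ⊢
  exact ⟨hz.1, hz.2.trans h⟩

private theorem vol_grow {V : Type} [Fintype V] {d : V → V → ℕ} {A β : ℝ} (hG : Geo V d A β)
    {h : ℕ} (hT : Two d h) (I : ℕ) (hh : 80 * (2 * kk I + 1) ≤ h)
    (hno : ∀ i, i < I → ¬ NoTri d (8 * kk i)) (i : ℕ) (hi : i ≤ I) :
    ∀ z, 162 ^ i * ⌈β⌉₊ ≤ vol d z (kk i) := by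
  induction i with
  | zero =>
    intro z
    rw [pow_zero, one_mul]
    exact (Nat.ceil_le.mpr (hG.lower z)).trans (vol_mono d z (by simp [kk]))
  | succ i ih =>
    have ih' := ih (by omega)
    have h1 := hno i (by omega)
    unfold NoTri at h1
    push Not at h1
    obtain ⟨x, l, y₁, y₂, y₃, hl1, hl2, e1, e2, e3, f1, f2, f3⟩ := h1
    have hm : kk i ≤ kk I := kk_mono (by omega)
    have h2 := vol_step hG.toPM hT (kk i) (kk_ge i) (by omega) x y₁ y₂ y₃ l (by omega) e1 e2 e3
      f1 f2 f3 (162 ^ i * ⌈β⌉₊) ih'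
    intro z
    have h3 := vol_transfer hG x z (161 * kk i + 80)
    rw [kk_succ, pow_succ]
    have h4 : 162 ^ i * 162 * ⌈β⌉₊ = 162 * (162 ^ i * ⌈β⌉₊) := by ring
    rw [h4]
    exact h2.trans h3

theorem exists_noTri (A : ℝ) : ∃ κ₀ H : ℕ, ∀ (V : Type) [Fintype V] (d : V → V → ℕ) (β : ℝ),
    Geo V d A β → ∀ h, Two d h → H ≤ h → ∃ κ, 56 ≤ κ ∧ κ ≤ κ₀ ∧ NoTri d κ := by
  obtain ⟨I, hI⟩ := pow_unbounded_of_one_lt (8 * |A|) (show (1 : ℝ) < 162 / 161 by norm_num)
  refine ⟨8 * kk I, 80 * (2 * kk I + 1), ?_⟩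
  intro V _ d β hG h hT hh
  rcases isEmpty_or_nonempty V with hV | ⟨⟨x⟩⟩
  · refine ⟨56, le_rfl, ?_, fun x => (hV.false x).elim⟩
    have := kk_ge I
    omega
  · by_contra hcon
    have hno : ∀ i, i < I → ¬ NoTri d (8 * kk i) := by
      intro i hi hN
      refine hcon ⟨8 * kk i, ?_, ?_, hN⟩
      · have := kk_ge i
        omega
      · have := kk_mono hi.le
        omega
    have h1 := vol_grow hG hT I hh hno I le_rfl x
    have h2 := hG.upper x (kk I) (by have := kk_ge I; omega)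
    have h3 : ((162 : ℝ) ^ I * β) ≤ (vol d x (kk I) : ℝ) := by
      have h4 : (162 : ℝ) ^ I * (⌈β⌉₊ : ℝ) ≤ (vol d x (kk I) : ℝ) := by exact_mod_cast h1
      refine le_trans ?_ h4
      exact mul_le_mul_of_nonneg_left (Nat.le_ceil β) (by positivity)
    have h5 : (162 : ℝ) ^ I ≤ A * kk I := by
      have h6 := h3.trans h2
      exact le_of_mul_le_mul_right h6 hG.pos
    have h7 : ((kk I : ℕ) : ℝ) ≤ 8 * 161 ^ I := by
      have h8 : kk I ≤ 8 * 161 ^ I := by
        have := kk_le I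
        omega
      exact_mod_cast h8
    have h9 : A * kk I ≤ |A| * (8 * 161 ^ I) :=
      mul_le_mul (le_abs_self A) h7 (Nat.cast_nonneg _) (abs_nonneg A)
    have h10 : 8 * |A| * (161 : ℝ) ^ I < 162 ^ I := by
      rw [div_pow, lt_div_iff₀ (by positivity)] at hI
      exact hI
    have h11 : |A| * (8 * (161 : ℝ) ^ I) = 8 * |A| * (161 : ℝ) ^ I := by ring
    linarith


end Pool.Agent.WDB
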