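import Pool.Agent.WDB.Rho

set_option autoImplicit false

/-!
# WB-Ow: the data used in the final part (definitions)
-/

namespace Pool.Agent.WDB

open Finset Pool.Agent.WD

/-- A world at a good scale. -/
structure Ow (V : Type) [Fintype V] [DecidableEq V] (lam : V → V → ℝ) (d : V → V → ℕ)
    (side : V → V → Bool) (K ε η : ℝ) (h C : ℕ) : Prop where
  hK : 1 ≤ K
  hC : 1 ≤ C
  heps : 0 < ε
  heta : 200 * K * ε ≤ η
  hbig : 1 ≤ 50 * (η * h)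
  self : ∀ x, lam x x = 0
  nonneg : ∀ x y, 0 ≤ lam x y
  le_one : ∀ x y, lam x y ≤ 1
  symm : ∀ x y, lam x y = lam y x
  w1 : ∀ x s, 0 ≤ s → s ≤ 1 →
    |((univ.filter fun z => lam x z ≤ s).card : ℝ) - s * Fintype.card V| ≤ ε * Fintype.card V
  w3 : ∀ S : Finset V, S.Nonempty → S ≠ univ → ∃ x ∈ S, ∃ y, y ∉ S ∧ rho lam x y ≤ ε
  top : ∃ x y z, 1 - ε ≤ lam x y ∧ 1 - ε ≤ lam y z ∧ 1 - ε ≤ lam x z
  pm : PM V d
  near : ∀ x y, rho lam x y ≤ η → d x y ≤ 1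
  rle : ∀ x y, rho lam x y ≤ η * d x y
  diam : ∃ p q, 2 * h ≤ d p q
  vol : ∀ x k, 1 ≤ k → (vol d x k : ℝ) ≤ 41 * k * η * Fintype.card V
  hom : ∀ x y, ∃ g : Equiv.Perm V, rho lam (g x) y ≤ ε ∧ (∀ p, err lam g p ≤ ε) ∧
    ∀ p q, d (g p) (g q) ≤ d p q + 4 ∧ d p q ≤ d (g p) (g q) + 4
  lip : ∀ x y x' y', |lam x y - lam x' y'| ≤ η / (2 * K) → d x y ≤ d x' y' + C
  sided : Sided d h C side

/-- In the shell `[a, b)` of `x`, near every point one of the two colours (levels below or above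
`s`) has at most `t` points. -/
def Clean {V : Type} [Fintype V] (lam : V → V → ℝ) (d : V → V → ℕ) (s : ℝ) (x : V)
    (a b L : ℕ) (t : ℝ) : Prop :=
  ∀ z₀, ((univ.filter fun z => (a ≤ d x z ∧ d x z < b ∧ d z z₀ ≤ L) ∧ lam x z < s).card : ℝ) ≤ t ∨
    ((univ.filter fun z => (a ≤ d x z ∧ d x z < b ∧ d z z₀ ≤ L) ∧ s < lam x z).card : ℝ) ≤ t

end Pool.Agent.WDB
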