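import Pool.Agent.WDB.Cyc
import Pool.Agent.WDB.Two

set_option autoImplicit false

/-!
# WB-PosA: the circular coordinate; upper bound and local lower bound

`E = 6 c + 16`, `F = 26 c + 90`, `m = 4 h`. For `y` put `r = min (d x y) (2 h)` and `cpos y = r` if `d y (A r) ≤ c`, else `cpos y = - r`
(then `d y (B r) ≤ c` by the field `near`). `cyc` of two positions of the same sign is `|r - r'|` (`≤ 2 h`, `cyc_of_le`); for
opposite signs it is `min (r + r') (4 h - r - r')` (`cyc_of_nonneg`, `cyc_neg`).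

`cross_pt`: if `r, r' ≤ h`: `cross` (`14 ≤ F`). If `r, r' ≥ h`: the hypothesis `hX` with `s = 2 h - r`, `s' = 2 h - r'`. If `r ≤ h ≤ r'`:
`|r - r'| ≤ d (A r) (B r') + 2 c` (from `d x (A r) ≤ r`, `d x (A r) ≥ r - c`, same for `B`) so `r' - r ≤ h / 4 + 4 c`, and
`d (A r) (B r') ≥ d (A r) (B h) - (r' - h) ≥ r + h - 14 - (r' - h) = 2 h - 14 - (r' - r) ≥ 2 h - 14 - h / 4 - 4 c > h / 4 + 2 c`: impossible.
The case `r' ≤ h ≤ r` is symmetric.

`cpos_upper`: `d y y' ≤ cyc + 2 c + E`: same sign: `d (A r) (A r') ≤ |r - r'|` (`lipA`); opposite signs: `d (A r) (B r') ≤ r + r'` (through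
`x`, `upA`, `upB`) and `≤ (2 h - r) + (2 h - r') + E` (through the ends, `lipA`, `lipB`, `hE`).

`cpos_local`: same sign: `|r - r'| ≤ d y y'`; opposite signs: `cross_pt` with `d (A r) (B r') ≤ d y y' + 2 c`.
-/

namespace Pool.Agent.WDB

/-- the coordinate -/
def cpos {V : Type} (d : V → V → ℕ) (h c : ℕ) (x : V) (A : ℕ → V) (y : V) : ℤ :=
  if d y (A (min (d x y) (2 * h))) ≤ c then (min (d x y) (2 * h) : ℕ)
  else -((min (d x y) (2 * h) : ℕ) : ℤ)

variable {V : Type} {d : V → V → ℕ}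

theorem cross_pt (hP : PM V d) {h c : ℕ} {x : V} {A B : ℕ → V} (hL : Lng d h c x A B)
    (hX : ∀ s s', s ≤ h → s' ≤ h → s + s' ≤ d (A (2 * h - s)) (B (2 * h - s')) + (26 * c + 90))
    (hh : 100 * c + 1000 ≤ h) {r r' : ℕ} (hr : r ≤ 2 * h) (hr' : r' ≤ 2 * h)
    (hd : d (A r) (B r') ≤ h / 4 + 2 * c) :
    min (r + r') (4 * h - (r + r')) ≤ d (A r) (B r') + (26 * c + 90) := by
  rcases le_total r h with h1 | h1
  · rcases le_total r' h with h2 | h2
    · have := hL.cross r r' h1 h2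
      omega
    · exfalso
      have e1 := hL.loB r' hr'
      have e2 := hP.tri x (A r) (B r')
      have e3 := hL.upA r hr
      have e4 := hL.cross r h h1 le_rfl
      have e5 := hP.tri (A r) (B r') (B h)
      have e6 := hL.lipB h r' h2 hr'
      rw [hP.symm] at e6
      omega
  · rcases le_total r' h with h2 | h2
    · exfalso
      have e1 := hL.loA r hr
      have e2 := hP.tri x (B r') (A r)
      have e3 := hL.upB r' hr'
      have e4 := hL.cross h r' le_rfl h2
      have e5 := hP.tri (A h) (A r) (B r')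
      have e6 := hL.lipA h r h1 hr
      rw [hP.symm (B r') (A r)] at e2
      omega
    · have e1 := hX (2 * h - r) (2 * h - r') (by omega) (by omega)
      rw [show 2 * h - (2 * h - r) = r by omega, show 2 * h - (2 * h - r') = r' by omega] at e1
      omega

private theorem cpos_cases {h c : ℕ} {x : V} {A B : ℕ → V} (hL : Lng d h c x A B) (y : V) :
    (cpos d h c x A y = ((min (d x y) (2 * h) : ℕ) : ℤ) ∧ d y (A (min (d x y) (2 * h))) ≤ c) ∨
    (cpos d h c x A y = -((min (d x y) (2 * h) : ℕ) : ℤ) ∧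
      d y (B (min (d x y) (2 * h))) ≤ c) := by
  unfold cpos
  by_cases h1 : d y (A (min (d x y) (2 * h))) ≤ c
  · left
    exact ⟨if_pos h1, h1⟩
  · right
    exact ⟨if_neg h1, (hL.near y).resolve_left h1⟩

private theorem cyc_same {h r r' : ℕ} (hh : 0 < h) (hr : r ≤ 2 * h) (hr' : r' ≤ 2 * h) :
    cyc (4 * (h : ℤ)) ((r : ℤ) - (r' : ℤ)) = |(r : ℤ) - (r' : ℤ)| := by
  apply cyc_of_le (by omega)
  have h1 : |(r : ℤ) - (r' : ℤ)| ≤ 2 * (h : ℤ) := by
    rw [abs_le]
    omega
  omega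

private theorem cyc_opp {h r r' : ℕ} (hh : 0 < h) (hr : r ≤ 2 * h) (hr' : r' ≤ 2 * h) :
    cyc (4 * (h : ℤ)) ((r : ℤ) + (r' : ℤ)) = ((min (r + r') (4 * h - (r + r')) : ℕ) : ℤ) := by
  rw [cyc_of_nonneg (by omega) (by omega) (by omega)]
  omega

theorem cpos_upper (hP : PM V d) {h c : ℕ} {x : V} {A B : ℕ → V} (hL : Lng d h c x A B)
    (hE : d (A (2 * h)) (B (2 * h)) ≤ 6 * c + 16) (hh : 100 * c + 1000 ≤ h) (y y' : V) :
    (d y y' : ℤ) ≤ cyc (4 * h) (cpos d h c x A y - cpos d h c x A y') + (8 * c + 16 : ℕ) := by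
  have h0 : 0 < h := by omega
  have hr : min (d x y) (2 * h) ≤ 2 * h := min_le_right _ _
  have hr' : min (d x y') (2 * h) ≤ 2 * h := min_le_right _ _
  rcases cpos_cases hL y with ⟨e1, e2⟩ | ⟨e1, e2⟩ <;> rcases cpos_cases hL y' with ⟨f1, f2⟩ | ⟨f1, f2⟩
  all_goals
    rw [e1, f1]
    clear e1 f1
    generalize min (d x y) (2 * h) = r at hr e2 ⊢
    generalize min (d x y') (2 * h) = r' at hr' f2 ⊢
  · rw [cyc_same h0 hr hr']
    have k1 := hP.tri y (A r) y'
    have k2 := hP.tri (A r) (A r') y'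
    have k3 := hP.symm y' (A r')
    have k4 : d (A r) (A r') ≤ (r - r') + (r' - r) := by
      rcases le_total r r' with g | g
      · have := hL.lipA r r' g hr'
        omega
      · have := hL.lipA r' r g hr
        rw [hP.symm] at this
        omega
    have k5 : ((r - r' : ℕ) : ℤ) + ((r' - r : ℕ) : ℤ) ≤ |(r : ℤ) - (r' : ℤ)| := by
      rcases le_total r r' with g | g
      · rw [abs_of_nonpos (by omega)]
        omega
      · rw [abs_of_nonneg (by omega)]
        omega
    omega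
  · rw [sub_neg_eq_add, cyc_opp h0 hr hr']
    have k1 := hP.tri y (A r) y'
    have k2 := hP.tri (A r) (B r') y'
    have k3 := hP.symm y' (B r')
    have k4 := hP.tri (A r) x (B r')
    have k5 := hP.symm (A r) x
    have k6 := hL.upA r hr
    have k7 := hL.upB r' hr'
    have k8 := hP.tri (A r) (A (2 * h)) (B r')
    have k9 := hP.tri (A (2 * h)) (B (2 * h)) (B r')
    have k10 := hL.lipA r (2 * h) hr le_rfl
    have k11 := hL.lipB r' (2 * h) hr' le_rfl
    rw [hP.symm] at k11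
    omega
  · rw [show -(r : ℤ) - (r' : ℤ) = -((r : ℤ) + (r' : ℤ)) by ring, cyc_neg (by omega),
      cyc_opp h0 hr hr']
    have k1 := hP.tri y (B r) y'
    have k2 := hP.tri (B r) (A r') y'
    have k3 := hP.symm y' (A r')
    have k4 := hP.tri (B r) x (A r')
    have k5 := hP.symm (B r) x
    have k6 := hL.upB r hr
    have k7 := hL.upA r' hr'
    have k8 := hP.tri (B r) (B (2 * h)) (A r')
    have k9 := hP.tri (B (2 * h)) (A (2 * h)) (A r')
    have k10 := hL.lipB r (2 * h) hr le_rfl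
    have k11 := hL.lipA r' (2 * h) hr' le_rfl
    have k12 := hP.symm (B (2 * h)) (A (2 * h))
    rw [hP.symm] at k11
    omega
  · rw [show -(r : ℤ) - -(r' : ℤ) = -((r : ℤ) - (r' : ℤ)) by ring, cyc_neg (by omega),
      cyc_same h0 hr hr']
    have k1 := hP.tri y (B r) y'
    have k2 := hP.tri (B r) (B r') y'
    have k3 := hP.symm y' (B r')
    have k4 : d (B r) (B r') ≤ (r - r') + (r' - r) := by
      rcases le_total r r' with g | g
      · have := hL.lipB r r' g hr'
        omega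
      · have := hL.lipB r' r g hr
        rw [hP.symm] at this
        omega
    have k5 : ((r - r' : ℕ) : ℤ) + ((r' - r : ℕ) : ℤ) ≤ |(r : ℤ) - (r' : ℤ)| := by
      rcases le_total r r' with g | g
      · rw [abs_of_nonpos (by omega)]
        omega
      · rw [abs_of_nonneg (by omega)]
        omega
    omega

theorem cpos_local (hP : PM V d) {h c : ℕ} {x : V} {A B : ℕ → V} (hL : Lng d h c x A B)
    (hX : ∀ s s', s ≤ h → s' ≤ h → s + s' ≤ d (A (2 * h - s)) (B (2 * h - s')) + (26 * c + 90))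
    (hh : 100 * c + 1000 ≤ h) (y y' : V) (hd : d y y' ≤ h / 4) :
    cyc (4 * h) (cpos d h c x A y - cpos d h c x A y') ≤ (d y y' : ℤ) + (28 * c + 90 : ℕ) := by
  have h0 : 0 < h := by omega
  have hr : min (d x y) (2 * h) ≤ 2 * h := min_le_right _ _
  have hr' : min (d x y') (2 * h) ≤ 2 * h := min_le_right _ _
  have k1 := hP.tri x y y'
  have k2 := hP.tri x y' y
  have k3 := hP.symm y' y
  have ks : |((min (d x y) (2 * h) : ℕ) : ℤ) - ((min (d x y') (2 * h) : ℕ) : ℤ)| ≤ (d y y' : ℤ) := by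
    rw [abs_le]
    omega
  rcases cpos_cases hL y with ⟨e1, e2⟩ | ⟨e1, e2⟩ <;> rcases cpos_cases hL y' with ⟨f1, f2⟩ | ⟨f1, f2⟩
  all_goals
    rw [e1, f1]
    clear e1 f1
    generalize min (d x y) (2 * h) = r at hr e2 ks ⊢
    generalize min (d x y') (2 * h) = r' at hr' f2 ks ⊢
  · rw [cyc_same h0 hr hr']
    omega
  · rw [sub_neg_eq_add, cyc_opp h0 hr hr']
    have m1 := hP.tri (A r) y (B r')
    have m2 := hP.tri y y' (B r')
    have m3 := hP.symm (A r) y
    have m4 := cross_pt hP hL hX hh hr hr' (by omega)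
    omega
  · rw [show -(r : ℤ) - (r' : ℤ) = -((r : ℤ) + (r' : ℤ)) by ring, cyc_neg (by omega),
      cyc_opp h0 hr hr']
    have m1 := hP.tri (A r') y' (B r)
    have m2 := hP.tri y' y (B r)
    have m3 := hP.symm (A r') y'
    have m4 := cross_pt hP hL hX hh hr' hr (by omega)
    omega
  · rw [show -(r : ℤ) - -(r' : ℤ) = -((r : ℤ) - (r' : ℤ)) by ring, cyc_neg (by omega),
      cyc_same h0 hr hr']
    omega

end Pool.Agent.WDB
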