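import Pool.Agent.WD.World
import Pool.Agent.WDB.Geo

set_option autoImplicit false

/-!
# WB-Rho: the distance of rows is a pseudometric; counting in a world

`level_count`: the set is `{lam ≤ s'} \ {lam ≤ s}`; `w1` twice. `ball_lower`: `w2` gives `{lam x z ≤ (r - ε) / K} ⊆ {rho x z ≤ r}`
and `(r - ε) / K ∈ [0, 1]` (`4 K ε ≤ r ≤ 1 ≤ K`), so there are at least `((r - ε) / K - ε) n ≥ r / (2 K) n` points.
-/

namespace Pool.Agent.WDB

open Finset Pool.Agent.WD

section

variable {V : Type} [Fintype V] (lam : V → V → ℝ)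

theorem rho_self (x : V) : rho lam x x = 0 := by
  simp [rho]

theorem rho_comm (x y : V) : rho lam x y = rho lam y x := by
  unfold rho
  rw [Finset.sum_congr rfl fun z _ => abs_sub_comm (lam x z) (lam y z)]

theorem rho_nonneg (x y : V) : 0 ≤ rho lam x y :=
  div_nonneg (Finset.sum_nonneg fun _ _ => abs_nonneg _) (Nat.cast_nonneg _)

theorem rho_tri (x y z : V) : rho lam x z ≤ rho lam x y + rho lam y z := by
  unfold rho
  rw [← add_div, ← Finset.sum_add_distrib]
  exact div_le_div_of_nonneg_right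
    (Finset.sum_le_sum fun u _ => abs_sub_le (lam x u) (lam y u) (lam z u)) (Nat.cast_nonneg _)

theorem rho_sum [Nonempty V] (x y : V) :
    ∑ z, |lam x z - lam y z| = rho lam x y * Fintype.card V := by
  unfold rho
  rw [div_mul_cancel₀]
  exact Nat.cast_ne_zero.2 Fintype.card_ne_zero

theorem iso_symm {g : Equiv.Perm V} {e : ℝ}
    (hg : ∀ p q, |rho lam (g p) (g q) - rho lam p q| ≤ e) (p q : V) :
    |rho lam (g.symm p) (g.symm q) - rho lam p q| ≤ e := by
  have h := hg (g.symm p) (g.symm q)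
  rw [Equiv.apply_symm_apply, Equiv.apply_symm_apply, abs_sub_comm] at h
  exact h

end

section

variable {V : Type} [Fintype V] [DecidableEq V] {K ε : ℝ} (w : World V K ε)

include w

theorem eps_nonneg : 0 ≤ ε := by
  obtain ⟨x, _⟩ := w.w6
  have : Nonempty V := ⟨x⟩
  have h1 : 0 ≤ ε * Fintype.card V := (abs_nonneg _).trans (w.w1 x 0 le_rfl zero_le_one)
  have h2 : (0 : ℝ) < Fintype.card V := Nat.cast_pos.2 Fintype.card_pos
  exact nonneg_of_mul_nonneg_left h1 h2

theorem level_count (x : V) {s s' : ℝ} (hs : 0 ≤ s) (hss : s ≤ s') (hs' : s' ≤ 1) :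
    (s' - s - 2 * ε) * Fintype.card V ≤ (univ.filter fun z => s < w.lam x z ∧ w.lam x z ≤ s').card := by
  have h1 := (abs_le.1 (w.w1 x s hs (hss.trans hs'))).2
  have h2 := (abs_le.1 (w.w1 x s' (hs.trans hss) hs')).1
  have h3 : (univ.filter fun z => w.lam x z ≤ s').card ≤
      (univ.filter fun z => w.lam x z ≤ s).card +
        (univ.filter fun z => s < w.lam x z ∧ w.lam x z ≤ s').card := by
    refine (Finset.card_le_card ?_).trans (Finset.card_union_le _ _)
    intro z hz
    have hz' := (Finset.mem_filter.1 hz).2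
    rw [Finset.mem_union, Finset.mem_filter, Finset.mem_filter]
    rcases le_or_gt (w.lam x z) s with h | h
    · exact Or.inl ⟨Finset.mem_univ _, h⟩
    · exact Or.inr ⟨Finset.mem_univ _, h, hz'⟩
  have h4 : ((univ.filter fun z => w.lam x z ≤ s').card : ℝ) ≤
      ((univ.filter fun z => w.lam x z ≤ s).card : ℝ) +
        ((univ.filter fun z => s < w.lam x z ∧ w.lam x z ≤ s').card : ℝ) := by
    exact_mod_cast h3
  linarith

theorem ball_lower (hK : 1 ≤ K) (x : V) {r : ℝ} (hr : 4 * K * ε ≤ r) (hr' : r ≤ 1) :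
    r / (2 * K) * Fintype.card V ≤ (univ.filter fun z => rho w.lam x z ≤ r).card := by
  have he := eps_nonneg w
  have hK0 : 0 < K := by linarith
  have hn : (0 : ℝ) ≤ Fintype.card V := Nat.cast_nonneg _
  have he4 : ε ≤ K * ε := le_mul_of_one_le_left he hK
  have hs0 : 0 ≤ (r - ε) / K := div_nonneg (by linarith) hK0.le
  have hs1 : (r - ε) / K ≤ 1 := by
    rw [div_le_one hK0]
    linarith
  have h1 := (abs_le.1 (w.w1 x _ hs0 hs1)).1
  have h2 : (univ.filter fun z => w.lam x z ≤ (r - ε) / K).card ≤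
      (univ.filter fun z => rho w.lam x z ≤ r).card := by
    refine Finset.card_le_card fun z hz => Finset.mem_filter.2 ⟨Finset.mem_univ _, ?_⟩
    have hz' := (Finset.mem_filter.1 hz).2
    rw [le_div_iff₀ hK0] at hz'
    have h3 := w.w2 x z
    linarith
  have h4 : ((univ.filter fun z => w.lam x z ≤ (r - ε) / K).card : ℝ) ≤
      ((univ.filter fun z => rho w.lam x z ≤ r).card : ℝ) := by
    exact_mod_cast h2
  have h5 : r / (2 * K) ≤ (r - ε) / K - ε := by
    have h6 : (r - ε) / K - ε - r / (2 * K) = (r - 2 * ε - 2 * K * ε) / (2 * K) := by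
      field_simp
      ring
    have h7 : 0 ≤ (r - 2 * ε - 2 * K * ε) / (2 * K) := div_nonneg (by linarith) (by linarith)
    linarith
  have h8 := mul_le_mul_of_nonneg_right h5 hn
  linarith

end

end Pool.Agent.WDB
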