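import Pool.Agent.WDB.Dia

set_option autoImplicit false

/-!
# WB-Sel: selection of a scale

A scale `η` between `η₀` and `2 η₀` at which the graph metrics of the scales `η` and `η + ε` differ
by at most `4`, found by counting the total decrease of the graph metric over all pairs.
-/

namespace Pool.Agent.WDB

open Finset Pool.Agent.WD

private theorem sel_pair {V : Type} [Fintype V] [DecidableEq V] {K ε : ℝ} (w : World V K ε)
    {η₀ η : ℝ} (hε : 0 < ε) (hη : ε ≤ η) (h0 : η₀ ≤ η) {x y x' y' : V}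
    (h : dG w.lam (η + ε) x y + 4 < dG w.lam η x y) (hx : rho w.lam x x' ≤ η₀)
    (hy : rho w.lam y y' ≤ η₀) : dG w.lam (η + ε) x' y' + 1 ≤ dG w.lam η x' y' := by
  have hη' : ε ≤ η + ε := by linarith
  have P1 := pm_dG w hη
  have P2 := pm_dG w hη'
  have h1 : dG w.lam η x x' ≤ 1 := (dG_le_one w hη x x').2 (hx.trans h0)
  have h2 : dG w.lam η y y' ≤ 1 := (dG_le_one w hη y y').2 (hy.trans h0)
  have h3 : dG w.lam (η + ε) x x' ≤ 1 := (dG_le_one w hη' x x').2 (by linarith)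
  have h4 : dG w.lam (η + ε) y y' ≤ 1 := (dG_le_one w hη' y y').2 (by linarith)
  have h5 := P1.tri x x' y
  have h6 := P1.tri x' y' y
  have h7 := P2.tri x' x y'
  have h8 := P2.tri x y y'
  have h9 := P1.symm y y'
  have h10 := P2.symm x x'
  omega

private theorem sel_step {V : Type} [Fintype V] [DecidableEq V] {K ε : ℝ} (w : World V K ε)
    (hK : 1 ≤ K) {η₀ η : ℝ} (hε : 0 < ε) (h₀ : 0 < η₀) (h₁ : η₀ ≤ 1 / 2) (h8 : 8 * K * ε ≤ η₀)
    (h0 : η₀ ≤ η) {x y : V} (h : dG w.lam (η + ε) x y + 4 < dG w.lam η x y) :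
    (∑ p : V × V, (dG w.lam (η + ε) p.1 p.2 : ℝ)) + (η₀ / (2 * K) * Fintype.card V) ^ 2 ≤
      ∑ p : V × V, (dG w.lam η p.1 p.2 : ℝ) := by
  classical
  have hη : ε ≤ η := by nlinarith
  obtain ⟨A, hA⟩ : ∃ A : Finset V, A = univ.filter fun z => rho w.lam x z ≤ η₀ := ⟨_, rfl⟩
  obtain ⟨B, hB⟩ : ∃ B : Finset V, B = univ.filter fun z => rho w.lam y z ≤ η₀ := ⟨_, rfl⟩
  have hA1 : η₀ / (2 * K) * Fintype.card V ≤ A.card := by
    rw [hA]
    exact ball_lower w hK x (by nlinarith) (by linarith)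
  have hB1 : η₀ / (2 * K) * Fintype.card V ≤ B.card := by
    rw [hB]
    exact ball_lower w hK y (by nlinarith) (by linarith)
  have hb : 0 ≤ η₀ / (2 * K) * Fintype.card V := by positivity
  have h1 : (η₀ / (2 * K) * Fintype.card V) ^ 2 ≤ (A.card : ℝ) * B.card := by
    rw [pow_two]
    exact mul_le_mul hA1 hB1 hb (hb.trans hA1)
  have h2 : (A.card : ℝ) * B.card ≤ ∑ p ∈ A ×ˢ B,
      ((dG w.lam η p.1 p.2 : ℝ) - dG w.lam (η + ε) p.1 p.2) := by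
    have h3 : (A.card : ℝ) * B.card = ∑ p ∈ A ×ˢ B, (1 : ℝ) := by
      rw [sum_const, card_product, nsmul_eq_mul, mul_one]
      push_cast
      rfl
    rw [h3]
    refine sum_le_sum fun p hp => ?_
    rw [mem_product, hA, hB, mem_filter, mem_filter] at hp
    have h4 := sel_pair w hε hη h0 h hp.1.2 hp.2.2
    have h5 : ((dG w.lam (η + ε) p.1 p.2 : ℕ) : ℝ) + 1 ≤ (dG w.lam η p.1 p.2 : ℕ) := by
      exact_mod_cast h4
    linarith
  have h3 : ∑ p ∈ A ×ˢ B, ((dG w.lam η p.1 p.2 : ℝ) - dG w.lam (η + ε) p.1 p.2) ≤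
      ∑ p : V × V, ((dG w.lam η p.1 p.2 : ℝ) - dG w.lam (η + ε) p.1 p.2) := by
    refine sum_le_sum_of_subset_of_nonneg (subset_univ _) fun p _ _ => ?_
    have h5 : ((dG w.lam (η + ε) p.1 p.2 : ℕ) : ℝ) ≤ (dG w.lam η p.1 p.2 : ℕ) := by
      exact_mod_cast dG_mono w hη (by linarith) p.1 p.2
    linarith
  have h4 : ∑ p : V × V, ((dG w.lam η p.1 p.2 : ℝ) - dG w.lam (η + ε) p.1 p.2) =
      (∑ p : V × V, (dG w.lam η p.1 p.2 : ℝ)) -
        ∑ p : V × V, (dG w.lam (η + ε) p.1 p.2 : ℝ) := sum_sub_distrib _ _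
  linarith

theorem exists_scale (K : ℝ) (hK : 1 ≤ K) (η₀ : ℝ) (h₀ : 0 < η₀) (h₁ : η₀ ≤ 1 / 2) :
    ∃ ε₁ : ℝ, 0 < ε₁ ∧ ∀ (V : Type) [Fintype V] [DecidableEq V] (ε : ℝ) (w : World V K ε),
      0 < ε → ε ≤ ε₁ → ∃ η, η₀ ≤ η ∧ η ≤ 2 * η₀ ∧
        ∀ x y, dG w.lam η x y ≤ dG w.lam (η + ε) x y + 4 := by
  have hK0 : 0 < K := by linarith
  refine ⟨min (η₀ / (8 * K)) (η₀ ^ 4 / (40 * K ^ 3)), lt_min (by positivity) (by positivity), ?_⟩
  intro V _ _ ε w hε hle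
  by_contra hcon
  push Not at hcon
  have ha : 8 * K * ε ≤ η₀ := by
    have h1 : ε ≤ η₀ / (8 * K) := hle.trans (min_le_left _ _)
    rw [le_div_iff₀ (by positivity)] at h1
    linarith
  have hb : ε * (40 * K ^ 3) ≤ η₀ ^ 4 := by
    have h1 : ε ≤ η₀ ^ 4 / (40 * K ^ 3) := hle.trans (min_le_right _ _)
    rwa [le_div_iff₀ (by positivity)] at h1
  obtain ⟨P, hP⟩ : ∃ P : ℕ, P = ⌊η₀ / ε⌋₊ := ⟨_, rfl⟩
  have hP1 : (P : ℝ) * ε ≤ η₀ := by
    have h1 : (P : ℝ) ≤ η₀ / ε := by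
      rw [hP]
      exact Nat.floor_le (by positivity)
    rwa [le_div_iff₀ hε] at h1
  have hP2 : η₀ < (P + 1) * ε := by
    have h1 : η₀ / ε < P + 1 := by
      rw [hP]
      exact Nat.lt_floor_add_one _
    rwa [div_lt_iff₀ hε] at h1
  have hne : Nonempty V := by
    obtain ⟨x, _⟩ := w.w6
    exact ⟨x⟩
  have hn : (0 : ℝ) < Fintype.card V := by exact_mod_cast Fintype.card_pos
  have htel : ∀ i : ℕ, i ≤ P → (∑ p : V × V, (dG w.lam (η₀ + i * ε) p.1 p.2 : ℝ)) +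
      i * (η₀ / (2 * K) * Fintype.card V) ^ 2 ≤ ∑ p : V × V, (dG w.lam η₀ p.1 p.2 : ℝ) := by
    intro i
    induction i with
    | zero =>
      intro _
      simp
    | succ i ih =>
      intro hi
      have h2 := ih (by omega)
      have h3 : (i : ℝ) * ε ≤ P * ε :=
        mul_le_mul_of_nonneg_right (by exact_mod_cast (by omega : i ≤ P)) hε.le
      have h4 : 0 ≤ (i : ℝ) * ε := by positivity
      obtain ⟨x, y, hxy⟩ := hcon (η₀ + i * ε) (by linarith) (by linarith)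
      have h5 := sel_step w hK hε h₀ h₁ ha (by linarith) hxy
      have h6 : η₀ + ((i + 1 : ℕ) : ℝ) * ε = η₀ + i * ε + ε := by
        push_cast
        ring
      rw [h6]
      push_cast
      linarith
  have h2 := htel P le_rfl
  have h3 : ∑ p : V × V, (dG w.lam η₀ p.1 p.2 : ℝ) ≤ (Fintype.card V : ℝ) ^ 2 * (8 * K / η₀) := by
    have h4 : ∀ p : V × V, (dG w.lam η₀ p.1 p.2 : ℝ) ≤ 8 * K / η₀ := by
      intro p
      rw [le_div_iff₀ h₀, mul_comm]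
      exact dG_diam w hK ha h₀ (by linarith) p.1 p.2
    refine (sum_le_sum fun p _ => h4 p).trans ?_
    rw [sum_const, card_univ, Fintype.card_prod, nsmul_eq_mul]
    push_cast
    exact le_of_eq (by ring)
  have h4 : 0 ≤ ∑ p : V × V, (dG w.lam (η₀ + P * ε) p.1 p.2 : ℝ) := by positivity
  have h5 : (P : ℝ) * (η₀ / (2 * K)) ^ 2 ≤ 8 * K / η₀ := by
    have h6 : (P : ℝ) * (η₀ / (2 * K)) ^ 2 * (Fintype.card V : ℝ) ^ 2 ≤
        8 * K / η₀ * (Fintype.card V : ℝ) ^ 2 := by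
      have h7 : (P : ℝ) * (η₀ / (2 * K) * Fintype.card V) ^ 2 =
        (P : ℝ) * (η₀ / (2 * K)) ^ 2 * (Fintype.card V : ℝ) ^ 2 := by ring
      rw [← h7]
      linarith
    exact le_of_mul_le_mul_right h6 (by positivity)
  have h6 : (P : ℝ) * η₀ ^ 3 ≤ 32 * K ^ 3 := by
    rw [le_div_iff₀ h₀] at h5
    have h7 : (P : ℝ) * (η₀ / (2 * K)) ^ 2 * η₀ = (P : ℝ) * η₀ ^ 3 / (4 * K ^ 2) := by
      field_simp
      ring
    rw [h7, div_le_iff₀ (by positivity)] at h5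
    linarith
  have h7 : η₀ ^ 3 ≤ 1 := pow_le_one₀ h₀.le (by linarith)
  have h8 : (1 : ℝ) ≤ K ^ 3 := one_le_pow₀ hK
  -- η₀ < (P + 1) ε, so η₀⁴ 40 K³ ≤ (P + 1) η₀³ ε 40 K³ ≤ (32 K³ + 1) η₀⁴
  have h9 : η₀ * η₀ ^ 3 * (40 * K ^ 3) < (P + 1) * η₀ ^ 3 * (ε * (40 * K ^ 3)) := by
    have h10 : (0 : ℝ) < η₀ ^ 3 * (40 * K ^ 3) := by positivity
    nlinarith
  have h10 : ((P : ℝ) + 1) * η₀ ^ 3 ≤ 33 * K ^ 3 := by nlinarith
  have h11 : ((P : ℝ) + 1) * η₀ ^ 3 * (ε * (40 * K ^ 3)) ≤ 33 * K ^ 3 * η₀ ^ 4 :=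
    mul_le_mul h10 hb (by positivity) (by positivity)
  have h12 : (0 : ℝ) < η₀ ^ 4 * K ^ 3 := by positivity
  nlinarith

end Pool.Agent.WDB
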