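import Pool.Agent.WDB.Sel
import Pool.Agent.WDB.GeoW
import Pool.Agent.WDB.Loop
import Pool.Agent.WDB.Lin
import Pool.Agent.WDB.Merge

set_option autoImplicit false

/-!
# WB-Seq: a good scale

`pigeon`: otherwise `L (j - 1) < 3 / 4 L j` for all `j` with `1 ≤ j ≤ J`, so `a ≤ L 0 < (3 / 4) ^ J b`.

`good_scale`: `C = max` of the constants of `exists_loop (82 K)` (`C_l, H_l`), `lin_of_loop (82 K) C_l` (`C_v, H_v`), `no_merge C_v`;
note that `Loop`, `Lin` are monotone in the constant (prove this here). For given `H`: let `J` with `(3 / 4) ^ J * 160 K < 1`,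
`η₀ = 1 / (40 (H + H_l + H_v + 1))` (`≤ 1 / 2`); for `j ≤ J` let `ε₁ j` be as in `exists_scale` for `η₀ / 32 ^ j`, and
`ε₁ = min (ε₁ j), 1 / 1000, η₀ / (32 ^ J * 200 K)`. For a world `w` with `0 < ε ≤ ε₁` choose `η j ∈ [η₀ / 32 ^ j, 2 η₀ / 32 ^ j]` selected,
`D j` the diameter (`exists_diam`). `D j ≥ 1 / (20 η j) ≥ H, H_l, H_v` (`diam_large`). `L j = η j D j` satisfies `1 / 20 ≤ L j ≤ 8 K`
(`diam_large`, `dG_diam`). `pigeon`: some `1 ≤ j ≤ J` with `L (j - 1) ≥ 3 / 4 L j`. Take `η = η j`. `θ = ⌊η (j - 1) / η j⌋₊`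
is between `16` and `64`, `dG_scale`, and `(θ + 1) D (j - 1) ≥ 3 / 4 D j`; `no_merge`: `rho p q ≤ 2 η j ≤ η (j - 1)` implies
`dG (η (j - 1)) p q ≤ 1` (`dG_le_one`) and so `dG (η j) p q ≤ C₁`. `ηmin = η₀ / 32 ^ J`.
-/

namespace Pool.Agent.WDB

open Finset Pool.Agent.WD

theorem pigeon (L : ℕ → ℝ) (J : ℕ) (a b : ℝ) (ha : a ≤ L 0) (hb : L J ≤ b)
    (h : (3 / 4 : ℝ) ^ J * b < a) : ∃ j, 1 ≤ j ∧ j ≤ J ∧ 3 / 4 * L j ≤ L (j - 1) := by
  by_contra hcon
  push Not at hcon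
  have h1 : ∀ j, j ≤ J → L 0 ≤ (3 / 4 : ℝ) ^ j * L j := by
    intro j
    induction j with
    | zero => intro _; simp
    | succ j ih =>
      intro hj
      have h2 := hcon (j + 1) (by omega) hj
      rw [Nat.add_sub_cancel] at h2
      have h3 := ih (by omega)
      have h4 : (3 / 4 : ℝ) ^ j * L j ≤ (3 / 4 : ℝ) ^ j * (3 / 4 * L (j + 1)) :=
        mul_le_mul_of_nonneg_left h2.le (by positivity)
      calc L 0 ≤ _ := h3
        _ ≤ _ := h4
        _ = _ := by rw [pow_succ]; ring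
  have h2 := h1 J le_rfl
  have h3 : (3 / 4 : ℝ) ^ J * L J ≤ (3 / 4 : ℝ) ^ J * b :=
    mul_le_mul_of_nonneg_left hb (by positivity)
  linarith

/-- what is used about the good scale -/
structure Good {V : Type} [Fintype V] [DecidableEq V] {K ε : ℝ} (w : World V K ε) (η : ℝ)
    (D C : ℕ) (pos : V → ℤ) : Prop where
  small : 200 * K * ε ≤ η
  le_one : η ≤ 1
  sel : ∀ x y, dG w.lam η x y ≤ dG w.lam (η + ε) x y + 4
  diam : IsDiam (dG w.lam η) D
  loop : Loop (dG w.lam η) (D / 2 - 5) C pos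
  lin : Lin (dG w.lam η) D C
  merge : ∀ p q, rho w.lam p q ≤ 2 * η → dG w.lam η p q ≤ C

private theorem exists_min_pos (e : ℕ → ℝ) (he : ∀ j, 0 < e j) (J : ℕ) :
    ∃ m : ℝ, 0 < m ∧ ∀ j, j ≤ J → m ≤ e j := by
  induction J with
  | zero => exact ⟨e 0, he 0, fun j hj => by rw [Nat.le_zero.mp hj]⟩
  | succ J ih =>
    obtain ⟨m, hm, hmj⟩ := ih
    refine ⟨min m (e (J + 1)), lt_min hm (he _), fun j hj => ?_⟩
    rcases Nat.lt_or_ge j (J + 1) with h | h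
    · exact (min_le_left _ _).trans (hmj j (by omega))
    · rw [show j = J + 1 by omega]
      exact min_le_right _ _

private theorem loop_mono {V : Type} {d : V → V → ℕ} {h C C' : ℕ} {pos : V → ℤ}
    (hL : Loop d h C pos) (hC : C ≤ C') : Loop d h C' pos := by
  have h1 : (C : ℤ) ≤ C' := by exact_mod_cast hC
  exact ⟨fun x y => (hL.upper x y).trans (by linarith), fun x y => (hL.lower x y).trans (by linarith),
    fun t => by
      obtain ⟨y, hy⟩ := hL.surj t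
      exact ⟨y, hy.trans h1⟩⟩

private theorem lin_mono {V : Type} [Fintype V] {d : V → V → ℕ} {D C C' : ℕ}
    (hL : Lin d D C) (hC : C ≤ C') : Lin d D C' :=
  ⟨fun x r => (hL.up x r).trans (Nat.mul_le_mul_right _ (by omega)),
    fun x r hr => (hL.lo x r hr).trans (Nat.add_le_add_left (Nat.mul_le_mul_right _ hC) _)⟩

theorem good_scale (K : ℝ) (hK : 1 ≤ K) : ∃ C : ℕ, ∀ H : ℕ, ∃ ηmin ε₁ : ℝ, 0 < ηmin ∧ 0 < ε₁ ∧
    ∀ (V : Type) [Fintype V] [DecidableEq V] (ε : ℝ) (w : World V K ε), 0 < ε → ε ≤ ε₁ →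
      ∃ η D pos, ηmin ≤ η ∧ H ≤ D ∧ Good w η D C pos := by
  obtain ⟨Cl, Hl, hloop⟩ := exists_loop (82 * K)
  obtain ⟨Cv, Hv, hlin⟩ := lin_of_loop (82 * K) Cl
  obtain ⟨C₁, hmer⟩ := no_merge Cv
  refine ⟨max Cl (max Cv C₁), fun H => ?_⟩
  obtain ⟨H', hH'⟩ : ∃ H', H' = H + Hl + Hv + 1 := ⟨_, rfl⟩
  have hH0 : (1 : ℝ) ≤ H' := by
    have : 1 ≤ H' := by omega
    exact_mod_cast this
  obtain ⟨η₀, hη₀⟩ : ∃ η₀ : ℝ, η₀ = 1 / (40 * H') := ⟨_, rfl⟩
  have hη₀0 : 0 < η₀ := by rw [hη₀]; positivity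
  have hη₀1 : 40 * η₀ * H' = 1 := by rw [hη₀]; field_simp
  have hη₀2 : η₀ ≤ 1 / 40 := by
    rw [hη₀]
    exact one_div_le_one_div_of_le (by norm_num) (by linarith)
  obtain ⟨J, hJ⟩ := exists_pow_lt_of_lt_one (show (0 : ℝ) < 1 / (160 * K) by positivity)
    (show (3 / 4 : ℝ) < 1 by norm_num)
  have hJ' : (3 / 4 : ℝ) ^ J * (8 * K) < 1 / 20 := by
    rw [lt_div_iff₀ (by positivity)] at hJ
    linarith
  -- the scales
  obtain ⟨f, hf⟩ : ∃ f : ℕ → ℝ, ∀ j, f j = η₀ / 32 ^ j := ⟨fun j => η₀ / 32 ^ j, fun _ => rfl⟩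
  have hf0 : ∀ j, 0 < f j := fun j => by rw [hf]; positivity
  have hfs : ∀ j, f j = 32 * f (j + 1) := fun j => by
    rw [hf, hf, pow_succ]
    field_simp
  have hfle : ∀ j k, j ≤ k → f k ≤ f j := by
    intro j k hjk
    induction k, hjk using Nat.le_induction with
    | base => exact le_rfl
    | succ k hk ih =>
      have h1 := hfs k
      have h2 := hf0 (k + 1)
      linarith
  have hf1 : ∀ j, f j ≤ 1 / 40 := fun j =>
    (hfle 0 j (Nat.zero_le _)).trans (by rw [hf]; simpa using hη₀2)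
  have hf40 : ∀ j, 40 * f j * H' ≤ 1 := fun j => by
    have h1 : f j ≤ η₀ := (hfle 0 j (Nat.zero_le _)).trans (by rw [hf]; simp)
    have h2 : 40 * f j * H' ≤ 40 * η₀ * H' := by
      have : (0 : ℝ) ≤ 40 * H' := by positivity
      nlinarith
    linarith
  have hsc : ∀ j, ∃ ε₁ : ℝ, 0 < ε₁ ∧ ∀ (V : Type) [Fintype V] [DecidableEq V] (ε : ℝ)
      (w : World V K ε), 0 < ε → ε ≤ ε₁ → ∃ η, f j ≤ η ∧ η ≤ 2 * f j ∧
        ∀ x y, dG w.lam η x y ≤ dG w.lam (η + ε) x y + 4 := fun j =>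
    exists_scale K hK (f j) (hf0 j) ((hf1 j).trans (by norm_num))
  choose e he hsc using hsc
  obtain ⟨m, hm, hmj⟩ := exists_min_pos e he J
  refine ⟨f J, min m (min (1 / 1000) (f J / (200 * K))), hf0 J, ?_, ?_⟩
  · have := hf0 J
    positivity
  intro V _ _ ε w hε hε1
  have e1 : ε ≤ m := hε1.trans (min_le_left _ _)
  have e2 : ε ≤ 1 / 1000 := hε1.trans ((min_le_right _ _).trans (min_le_left _ _))
  have e3 : ε ≤ f J / (200 * K) := hε1.trans ((min_le_right _ _).trans (min_le_right _ _))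
  have e4 : 200 * K * ε ≤ f J := by
    rw [le_div_iff₀ (by positivity)] at e3
    linarith
  have hsel : ∀ j, ∃ (η : ℝ) (D : ℕ), j ≤ J → f j ≤ η ∧ η ≤ 2 * f j ∧
      (∀ x y, dG w.lam η x y ≤ dG w.lam (η + ε) x y + 4) ∧ IsDiam (dG w.lam η) D := by
    intro j
    by_cases hj : j ≤ J
    · obtain ⟨η, h1, h2, h3⟩ := hsc j V ε w hε (e1.trans (hmj j hj))
      obtain ⟨D, hD⟩ := exists_diam w (η := η)
      exact ⟨η, D, fun _ => ⟨h1, h2, h3, hD⟩⟩
    · exact ⟨0, 0, fun h => absurd h hj⟩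
  choose η D hηD using hsel
  have hKε : K * ε ≥ ε := by nlinarith
  -- properties of each scale
  have key : ∀ j, j ≤ J → 200 * K * ε ≤ η j ∧ 0 < η j ∧ η j ≤ 1 ∧ ε ≤ η j ∧
      1 / 20 ≤ η j * D j ∧ η j * D j ≤ 8 * K ∧ H' ≤ D j := by
    intro j hj
    obtain ⟨h1, h2, h3, h4⟩ := hηD j hj
    have h5 := hfle j J hj
    have h6 := hf0 j
    have h7 := hf1 j
    have h8 : 200 * K * ε ≤ η j := by linarith
    have h9 : ε ≤ η j := by linarith
    have h10 := diam_large w e2 h9 (by linarith) h4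
    refine ⟨h8, by linarith, by linarith, h9, h10, ?_, ?_⟩
    · obtain ⟨p, q, hpq⟩ := h4.1
      have h11 := dG_diam w hK (η := η j) (by linarith) (by linarith) (by linarith) p q
      rwa [hpq] at h11
    · have h11 := hf40 j
      have h12 : (H' : ℝ) ≤ D j := by
        by_contra hcon
        push Not at hcon
        have h13 : η j * D j < η j * H' := mul_lt_mul_of_pos_left hcon (by linarith)
        have h14 : η j * H' ≤ 2 * f j * H' := mul_le_mul_of_nonneg_right h2 (by positivity)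
        linarith
      exact_mod_cast h12
  have key2 : ∀ j, j ≤ J → ∃ pos : V → ℤ, Loop (dG w.lam (η j)) (D j / 2 - 5) Cl pos ∧
      Lin (dG w.lam (η j)) (D j) Cv := by
    intro j hj
    obtain ⟨h1, h2, h3, h4, h5, h6, h7⟩ := key j hj
    obtain ⟨-, -, hs, hd⟩ := hηD j hj
    have hG := geo_world w hK hε h1 h3 hs
    obtain ⟨pos, hpos⟩ := hloop V _ _ _ hG hd (by omega)
    exact ⟨pos, hpos, hlin V _ _ _ pos hG hd (by omega) hpos⟩
  -- the pigeonhole principle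
  obtain ⟨j, hj1, hjJ, hj⟩ := pigeon (fun j => η j * D j) J (1 / 20) (8 * K)
    (key 0 (Nat.zero_le _)).2.2.2.2.1 (key J le_rfl).2.2.2.2.2.1 hJ'
  obtain ⟨k, rfl⟩ : ∃ k, j = k + 1 := ⟨j - 1, by omega⟩
  rw [Nat.add_sub_cancel] at hj
  have hkJ : k ≤ J := by omega
  obtain ⟨a1, a2, a3, a4, a5, a6, a7⟩ := key (k + 1) hjJ
  obtain ⟨b1, b2, b3, b4, b5, b6, b7⟩ := key k hkJ
  obtain ⟨a8, a9, a10, a11⟩ := hηD (k + 1) hjJ
  obtain ⟨b8, b9, b10, b11⟩ := hηD k hkJ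
  have hfk := hfs k
  have hfk0 := hf0 (k + 1)
  obtain ⟨pos, hpos, hlinj⟩ := key2 (k + 1) hjJ
  obtain ⟨-, -, hlink⟩ := key2 k hkJ
  obtain ⟨θ, hθ⟩ : ∃ θ : ℕ, θ = ⌊η k / η (k + 1)⌋₊ := ⟨_, rfl⟩
  have hq1 : (16 : ℝ) ≤ η k / η (k + 1) := by
    rw [le_div_iff₀ a2]
    linarith
  have hq2 : η k / η (k + 1) ≤ 64 := by
    rw [div_le_iff₀ a2]
    linarith
  have hθ1 : 16 ≤ θ := by
    rw [hθ]
    exact Nat.le_floor (by exact_mod_cast hq1)
  have hθ2 : θ ≤ 64 := by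
    rw [hθ]
    exact Nat.floor_le_of_le (by exact_mod_cast hq2)
  have hθ3 : θ * η (k + 1) ≤ η k := by
    have h1 := Nat.floor_le (show (0 : ℝ) ≤ η k / η (k + 1) by positivity)
    rw [← hθ, le_div_iff₀ a2] at h1
    exact h1
  have hθ4 : η k < (θ + 1) * η (k + 1) := by
    have h1 := Nat.lt_floor_add_one (η k / η (k + 1))
    rw [← hθ, div_lt_iff₀ a2] at h1
    exact h1
  have hD3 : 3 * D (k + 1) ≤ 4 * (θ + 1) * D k := by
    have h1 : (3 * D (k + 1) : ℝ) ≤ 4 * (θ + 1) * D k := by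
      have h2 : η k * D k ≤ (θ + 1) * η (k + 1) * D k :=
        mul_le_mul_of_nonneg_right hθ4.le (by positivity)
      have h3 : η (k + 1) * (3 * D (k + 1)) ≤ η (k + 1) * (4 * (θ + 1) * D k) := by
        have hj' : 3 / 4 * (η (k + 1) * D (k + 1)) ≤ η k * D k := hj
        linarith
      exact le_of_mul_le_mul_left h3 a2
    exact_mod_cast h1
  have hm' := hmer V (dG w.lam (η (k + 1))) (dG w.lam (η k)) (D (k + 1)) (D k) θ
    (pm_dG w a4) (pm_dG w b4) a11 hlinj hlink hθ1 hθ2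
    (fun x y => dG_scale w a4 (by omega) hθ3 x y) hD3
  refine ⟨η (k + 1), D (k + 1), pos, ?_, by omega, ⟨a1, a3, a10, a11,
    loop_mono hpos (le_max_left _ _), lin_mono hlinj ((le_max_left _ _).trans (le_max_right _ _)),
    fun p q hpq => ?_⟩⟩
  · exact (hfle (k + 1) J hjJ).trans a8
  · refine (hm' p q ((dG_le_one w b4 p q).mpr ?_)).trans
      ((le_max_right _ _).trans (le_max_right _ _))
    linarith

end Pool.Agent.WDB
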