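import Pool.Agent.WDB.Cyc
import Pool.Agent.WDB.Two

set_option autoImplicit false

/-!
# WB-Shell: the number of points of a shell

`m = 4 h > 0`. The points `z` with `r < d x z ≤ r + c` satisfy `r - C < cyc m (pos z - pos x) + ..`, precisely (`Loop.upper`,
`Loop.lower`, `cyc_neg`, symmetry of `d`) `r - C < cyc ≤ r + c + C`, and `cyc m u` is `u % m` or `m - u % m`: two classes; two points of the same class
have `|t - t'| ≤ c + 2 C` for `t = (pos z - pos x) % m`, and `pos z - pos z' = t - t' + k m`, so `d z z' ≤ |t - t'| + C ≤ c + 3 C`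
(`cyc_congr`, `cyc_le_abs`): each class is in the ball of radius `c + 3 C` around one of its points (or is empty), so
it has at most `A (c + 3 C + 1) β` points (`upper` for the radius `c + 3 C + 1`).
-/

namespace Pool.Agent.WDB

open Finset

variable {V : Type} [Fintype V] {d : V → V → ℕ}

theorem vol_mono (x : V) {k l : ℕ} (h : k ≤ l) : vol d x k ≤ vol d x l := by
  unfold vol
  refine card_le_card fun z hz => ?_
  rw [mem_filter] at hz ⊢
  exact ⟨hz.1, hz.2.trans h⟩

private theorem shell_ball {A β : ℝ} (hG : Geo V d A β) (x : V) (N : ℕ) (T : Finset V)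
    (hT : ∀ z ∈ T, ∀ z' ∈ T, d z z' ≤ N) : (T.card : ℝ) ≤ A * (N + 1) * β := by
  rcases T.eq_empty_or_nonempty with h | ⟨z, hz⟩
  · have h1 := hG.upper x (N + 1) (by omega)
    have h2 : (0 : ℝ) ≤ vol d x (N + 1) := Nat.cast_nonneg _
    rw [h, card_empty]
    push_cast at h1 ⊢
    linarith
  · have h1 := hG.upper z (N + 1) (by omega)
    have h2 : T.card ≤ vol d z (N + 1) := by
      unfold vol
      refine card_le_card fun w hw => ?_
      rw [mem_filter]
      exact ⟨mem_univ _, (hT z hz w hw).trans (Nat.le_succ _)⟩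
    have h3 : (T.card : ℝ) ≤ vol d z (N + 1) := by exact_mod_cast h2
    push_cast at h1
    linarith

omit [Fintype V] in
private theorem shell_close {h C : ℕ} (hh : 0 < h) {pos : V → ℤ} (hL : Loop d h C pos)
    (x z z' : V) {t t' : ℤ} (ht : t = (pos z - pos x) % (4 * h))
    (ht' : t' = (pos z' - pos x) % (4 * h)) {n : ℕ} (hn : |t - t'| ≤ n) : d z z' ≤ n + C := by
  have hm : (0 : ℤ) < 4 * h := by omega
  have h1 := hL.upper z z'
  have h2 : pos z - pos z' =
      (t - t') + ((pos z - pos x) / (4 * h) - (pos z' - pos x) / (4 * h)) * (4 * h) := by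
    have e1 := Int.emod_add_mul_ediv (pos z - pos x) (4 * h)
    have e2 := Int.emod_add_mul_ediv (pos z' - pos x) (4 * h)
    rw [ht, ht']
    linear_combination e2 - e1
  rw [cyc_congr hm h2] at h1
  have h3 := cyc_le_abs hm (t - t')
  have h4 : (d z z' : ℤ) ≤ n + C := by linarith
  exact_mod_cast h4

theorem shell {A β : ℝ} (hG : Geo V d A β) {h C : ℕ} (hh : 0 < h) {pos : V → ℤ}
    (hL : Loop d h C pos) (x : V) (r c : ℕ) :
    (vol d x (r + c) : ℝ) ≤ vol d x r + 2 * (A * (c + 3 * C + 1) * β) := by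
  classical
  have hm : (0 : ℤ) < 4 * h := by omega
  set u : V → ℤ := fun z => (pos z - pos x) % (4 * h) with hu
  set S := univ.filter fun z => r < d x z ∧ d x z ≤ r + c with hS
  set T1 := S.filter fun z => u z ≤ 4 * h - u z with hT1
  set T2 := S.filter fun z => ¬ u z ≤ 4 * h - u z with hT2
  have hcyc : ∀ z ∈ S, (r : ℤ) + 1 - C ≤ min (u z) (4 * h - u z) ∧
      min (u z) (4 * h - u z) ≤ r + c + C := by
    intro z hz
    rw [hS, mem_filter] at hz
    have h1 := hL.upper x z
    have h2 := hL.lower x z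
    have h3 : cyc (4 * h) (pos x - pos z) = min (u z) (4 * h - u z) := by
      rw [← cyc_neg hm, neg_sub]
      rfl
    rw [h3] at h1 h2
    have h4 : (r : ℤ) < d x z := by exact_mod_cast hz.2.1
    have h5 : (d x z : ℤ) ≤ r + c := by exact_mod_cast hz.2.2
    constructor <;> linarith
  have hc1 : (T1.card : ℝ) ≤ A * ((c + 3 * C : ℕ) + 1) * β := by
    refine shell_ball hG x (c + 3 * C) T1 ?_
    intro z hz z' hz'
    rw [hT1, mem_filter] at hz hz'
    have h1 := hcyc z hz.1
    have h2 := hcyc z' hz'.1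
    rw [min_eq_left hz.2] at h1
    rw [min_eq_left hz'.2] at h2
    have h3 : |u z - u z'| ≤ ((c + 2 * C : ℕ) : ℤ) := by
      rw [abs_le]
      push_cast
      constructor <;> linarith [h1.1, h1.2, h2.1, h2.2]
    have h4 := shell_close hh hL x z z' rfl rfl h3
    omega
  have hc2 : (T2.card : ℝ) ≤ A * ((c + 3 * C : ℕ) + 1) * β := by
    refine shell_ball hG x (c + 3 * C) T2 ?_
    intro z hz z' hz'
    rw [hT2, mem_filter] at hz hz'
    have h1 := hcyc z hz.1
    have h2 := hcyc z' hz'.1
    rw [min_eq_right (not_le.1 hz.2).le] at h1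
    rw [min_eq_right (not_le.1 hz'.2).le] at h2
    have h3 : |u z - u z'| ≤ ((c + 2 * C : ℕ) : ℤ) := by
      rw [abs_le]
      push_cast
      constructor <;> linarith [h1.1, h1.2, h2.1, h2.2]
    have h4 := shell_close hh hL x z z' rfl rfl h3
    omega
  have hsplit : T1.card + T2.card = S.card := by
    rw [hT1, hT2]
    exact card_filter_add_card_filter_not _
  have hvol : vol d x (r + c) ≤ vol d x r + S.card := by
    unfold vol
    rw [hS]
    refine (card_le_card ?_).trans (card_union_le _ _)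
    intro z hz
    rw [mem_filter] at hz
    rw [mem_union, mem_filter, mem_filter]
    by_cases h1 : d x z ≤ r
    · exact Or.inl ⟨mem_univ _, h1⟩
    · exact Or.inr ⟨mem_univ _, not_le.1 h1, hz.2⟩
  have h1 : (vol d x (r + c) : ℝ) ≤ vol d x r + (T1.card + T2.card : ℕ) := by
    rw [hsplit]
    exact_mod_cast hvol
  push_cast at h1 hc1 hc2
  linarith

end Pool.Agent.WDB
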