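import Pool.Agent.WDB.Fol

set_option autoImplicit false

/-!
# WB-Three: at every distance there are at most two directions

`three`: if `r < κ` then `d y₁ y₂ ≤ 2 r`. If `κ ≤ r ≤ 20 κ`: `NoTri`. If `r > 20 κ`: take geodesics from `x` to the `y i`
(`PM.geod`), apply `NoTri` to the points at distance `4 κ + 2` (`κ ≤ 4 κ + 2 ≤ 20 κ`), say the first two are within `κ`, and follow
them with `fol_long` from `s = 4 κ + 2` to `t = r` (`4 κ + 2 + 2 κ + 1 ≤ 20 κ < r`).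

`near_ray`: apply `three` to `y, a r, b r`, `r = d x y` (`d x (a r) = r`, as `a 0 = x`). If `d (a r) (b r) ≤ 2 κ` then
`2 r ≤ 2 κ + 14` and `d y (a r) ≤ 2 r`.
-/

namespace Pool.Agent.WDB

variable {V : Type} {d : V → V → ℕ}

private theorem three_ray {x : V} {h r : ℕ} {a : ℕ → V} (ha : Ray d x h a) (hr : r ≤ h) :
    d x (a r) = r := by
  have h1 := ha.dist 0 r (Nat.zero_le r) hr
  rw [ha.zero] at h1
  omega

theorem three (hP : PM V d) {κ : ℕ} (hκ : 1 ≤ κ) (hN : NoTri d κ) {x y₁ y₂ y₃ : V} {r : ℕ}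
    (h₁ : d x y₁ = r) (h₂ : d x y₂ = r) (h₃ : d x y₃ = r) :
    d y₁ y₂ ≤ 2 * κ ∨ d y₁ y₃ ≤ 2 * κ ∨ d y₂ y₃ ≤ 2 * κ := by
  by_cases hr1 : r < κ
  · left
    have h4 := hP.tri y₁ x y₂
    have h5 := hP.symm x y₁
    omega
  by_cases hr2 : r ≤ 20 * κ
  · have h4 := hN x r y₁ y₂ y₃ (by omega) hr2 h₁ h₂ h₃
    omega
  obtain ⟨g₁, hg₁, e₁⟩ := hP.geod x y₁
  obtain ⟨g₂, hg₂, e₂⟩ := hP.geod x y₂
  obtain ⟨g₃, hg₃, e₃⟩ := hP.geod x y₃
  rw [h₁] at hg₁ e₁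
  rw [h₂] at hg₂ e₂
  rw [h₃] at hg₃ e₃
  have hs : 4 * κ + 2 ≤ r := by omega
  have hst : 4 * κ + 2 + (2 * κ + 1) ≤ r := by omega
  rcases hN x (4 * κ + 2) (g₁ (4 * κ + 2)) (g₂ (4 * κ + 2)) (g₃ (4 * κ + 2)) (by omega) (by omega)
    (three_ray hg₁ hs) (three_ray hg₂ hs) (three_ray hg₃ hs) with h | h | h
  · left
    have h4 := fol_long hP hκ hN hg₁ hg₂ le_rfl hst le_rfl (by omega)
    rwa [e₁, e₂] at h4
  · right; left
    have h4 := fol_long hP hκ hN hg₁ hg₃ le_rfl hst le_rfl (by omega)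
    rwa [e₁, e₃] at h4
  · right; right
    have h4 := fol_long hP hκ hN hg₂ hg₃ le_rfl hst le_rfl (by omega)
    rwa [e₂, e₃] at h4

theorem near_ray (hP : PM V d) {κ : ℕ} (hκ : 1 ≤ κ) (hN : NoTri d κ) {x : V} {h : ℕ}
    {a b : ℕ → V} (hab : Pair d x h a b) {y : V} (hy : d x y ≤ h) :
    d y (a (d x y)) ≤ 2 * κ + 14 ∨ d y (b (d x y)) ≤ 2 * κ + 14 := by
  have h1 := three_ray hab.left hy
  have h2 := three_ray hab.right hy
  rcases three hP hκ hN (x := x) (y₁ := y) rfl h1 h2 with h3 | h3 | h3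
  · left; omega
  · right; omega
  · left
    have h4 := hab.cross (d x y) (d x y) hy hy
    have h5 := hP.tri y x (a (d x y))
    have h6 := hP.symm x y
    omega

end Pool.Agent.WDB
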