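import Pool.Agent.WDB.Ow

set_option autoImplicit false

/-!
# WB-Tra: cleanness at one point gives cleanness at all points

`changes`: if `2 c ≤ |u z - v z|` on a set `S` and `∑ z, |u z - v z| ≤ e n` then `|S| ≤ e n / (2 c)`.

`transfer`: let `g` be as in `hom` for `x₀, x`. `∑ y, |lam x (g y) - lam x₀ y| ≤ n rho (g x₀) x + n err g x₀ ≤ 2 ε n` (reindex the first sum
by `g`). For given `z₀` apply the hypothesis to `g⁻¹ z₀`. Let `z` be a point with `a + 5 ≤ d x z < b - 5`, `d z z₀ ≤ L`, `y = g⁻¹ z`. Then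
`a ≤ d x₀ y < b` (`d (g x₀) x ≤ 1`, `hom`) and `d y (g⁻¹ z₀) ≤ L + 4`. If `lam x z < s` but not `lam x₀ y < s`, then by the gap at both pairs
(`8 b ≤ 15 h`) `|lam x z - lam x₀ y| ≥ 2 c`; there are at most `2 ε n / (2 c) ≤ η n` such `y`. So the number of low (high) points of `x` near
`z₀` is at most the number of low (high) points of `x₀` near `g⁻¹ z₀` plus `η n`.
-/

namespace Pool.Agent.WDB

open Finset Pool.Agent.WD

variable {V : Type} [Fintype V] [DecidableEq V] {lam : V → V → ℝ} {d : V → V → ℕ}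
  {side : V → V → Bool} {K ε η : ℝ} {h C : ℕ}

omit [DecidableEq V] in
theorem changes (u v : V → ℝ) {c e : ℝ} (hc : 0 < c)
    (h : ∑ z, |u z - v z| ≤ e * Fintype.card V) (S : Finset V)
    (hS : ∀ z ∈ S, 2 * c ≤ |u z - v z|) : (S.card : ℝ) ≤ e / (2 * c) * Fintype.card V := by
  have h1 : (S.card : ℝ) * (2 * c) ≤ ∑ z, |u z - v z| := by
    calc (S.card : ℝ) * (2 * c) = ∑ z ∈ S, (2 * c) := by rw [Finset.sum_const, nsmul_eq_mul]
      _ ≤ ∑ z ∈ S, |u z - v z| := Finset.sum_le_sum hS
      _ ≤ ∑ z, |u z - v z| := Finset.sum_le_sum_of_subset_of_nonneg (Finset.subset_univ S)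
        fun z _ _ => abs_nonneg _
  have h2 : (0 : ℝ) < 2 * c := by linarith
  rw [div_mul_eq_mul_div, le_div_iff₀ h2]
  exact h1.trans h

private theorem tra_count (g : Equiv.Perm V) (S : Finset V) (P Q : V → Prop) [DecidablePred P]
    [DecidablePred Q] (h : ∀ z, P z → Q (g.symm z) ∨ g.symm z ∈ S) :
    ((univ.filter P).card : ℝ) ≤ (univ.filter Q).card + S.card := by
  have h1 : (univ.filter P).card ≤ (univ.filter Q).card + S.card := by
    calc (univ.filter P).card = ((univ.filter P).image g.symm).card :=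
          (Finset.card_image_of_injective _ g.symm.injective).symm
      _ ≤ (univ.filter Q ∪ S).card := by
          refine Finset.card_le_card ?_
          intro y hy
          obtain ⟨z, hz, rfl⟩ := Finset.mem_image.mp hy
          rcases h z (Finset.mem_filter.mp hz).2 with h2 | h2
          · exact Finset.mem_union_left _ (Finset.mem_filter.mpr ⟨Finset.mem_univ _, h2⟩)
          · exact Finset.mem_union_right _ h2
      _ ≤ (univ.filter Q).card + S.card := Finset.card_union_le _ _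
  exact_mod_cast h1

theorem transfer (hW : Ow V lam d side K ε η h C) {s c : ℝ} (hc : 0 < c)
    (hgap : ∀ x z, 8 * d x z ≤ 15 * h → c ≤ |lam x z - s|) (hε : ε ≤ c * η) {x₀ : V}
    {a b L : ℕ} (hb : 8 * b ≤ 15 * h) {t : ℝ} (hx₀ : Clean lam d s x₀ a b (L + 4) t) (x : V) :
    Clean lam d s x (a + 5) (b - 5) L (t + η * Fintype.card V) := by
  classical
  haveI : Nonempty V := ⟨x⟩
  obtain ⟨g, hg1, hg2, hg3⟩ := hW.hom x₀ x
  have hε0 := hW.heps
  have hK := hW.hK
  have hη := hW.heta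
  have hεη : ε ≤ η := by nlinarith
  have hgx : d (g x₀) x ≤ 1 := hW.near _ _ (hg1.trans hεη)
  have hn : (0 : ℝ) < Fintype.card V := by exact_mod_cast Fintype.card_pos
  -- the total change
  have hsum : ∑ y, |lam x (g y) - lam x₀ y| ≤ 2 * ε * Fintype.card V := by
    have h1 : ∑ y, |lam x (g y) - lam (g x₀) (g y)| = rho lam x (g x₀) * Fintype.card V := by
      rw [← rho_sum]
      exact Equiv.sum_comp g (fun z => |lam x z - lam (g x₀) z|)
    have h2 : ∑ y, |lam (g x₀) (g y) - lam x₀ y| = err lam g x₀ * Fintype.card V := by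
      unfold err
      rw [div_mul_cancel₀ _ hn.ne']
    have h3 : ∑ y, |lam x (g y) - lam x₀ y| ≤ ∑ y, |lam x (g y) - lam (g x₀) (g y)| +
        ∑ y, |lam (g x₀) (g y) - lam x₀ y| := by
      rw [← Finset.sum_add_distrib]
      exact Finset.sum_le_sum fun y _ => abs_sub_le _ _ _
    rw [h1, h2] at h3
    have h4 : rho lam x (g x₀) ≤ ε := by
      rw [rho_comm]
      exact hg1
    have h5 := mul_le_mul_of_nonneg_right h4 hn.le
    have h6 := mul_le_mul_of_nonneg_right (hg2 x₀) hn.le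
    linarith
  have hS : ((univ.filter fun y => 2 * c ≤ |lam x (g y) - lam x₀ y|).card : ℝ) ≤
      η * Fintype.card V := by
    refine (changes (fun y => lam x (g y)) (fun y => lam x₀ y) hc hsum _
      (fun z hz => (Finset.mem_filter.mp hz).2)).trans ?_
    refine mul_le_mul_of_nonneg_right ?_ hn.le
    rw [div_le_iff₀ (by linarith)]
    linarith
  -- comparison of the positions
  have hpos : ∀ z z₀, (a + 5 ≤ d x z ∧ d x z < b - 5 ∧ d z z₀ ≤ L) →
      (a ≤ d x₀ (g.symm z) ∧ d x₀ (g.symm z) < b ∧ d (g.symm z) (g.symm z₀) ≤ L + 4) := by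
    rintro z z₀ ⟨h1, h2, h3⟩
    have e1 := hg3 x₀ (g.symm z)
    have e2 := hg3 (g.symm z) (g.symm z₀)
    rw [Equiv.apply_symm_apply] at e1 e2
    rw [Equiv.apply_symm_apply] at e2
    have e3 := hW.pm.tri (g x₀) x z
    have e4 := hW.pm.tri x (g x₀) z
    have e5 := hW.pm.symm x (g x₀)
    refine ⟨?_, ?_, ?_⟩ <;> omega
  have hgap' : ∀ z, d x z < b - 5 → c ≤ |lam x z - s| := fun z hz => hgap x z (by omega)
  have hgap0 : ∀ y, d x₀ y < b → c ≤ |lam x₀ y - s| := fun y hy => hgap x₀ y (by omega)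
  intro z₀
  rcases hx₀ (g.symm z₀) with h1 | h1
  · left
    refine (tra_count g (univ.filter fun y => 2 * c ≤ |lam x (g y) - lam x₀ y|) _
      (fun y => (a ≤ d x₀ y ∧ d x₀ y < b ∧ d y (g.symm z₀) ≤ L + 4) ∧ lam x₀ y < s) ?_).trans
      (add_le_add h1 hS)
    rintro z ⟨h2, h3⟩
    have h4 := hpos z z₀ h2
    by_cases h5 : lam x₀ (g.symm z) < s
    · exact Or.inl ⟨h4, h5⟩
    · right
      rw [Finset.mem_filter]
      refine ⟨Finset.mem_univ _, ?_⟩
      rw [Equiv.apply_symm_apply]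
      have h6 := hgap' z h2.2.1
      have h7 := hgap0 (g.symm z) h4.2.1
      rw [abs_of_neg (by linarith)] at h6
      rw [abs_of_nonneg (by linarith)] at h7
      rw [abs_sub_comm, abs_of_nonneg (by linarith)]
      linarith
  · right
    refine (tra_count g (univ.filter fun y => 2 * c ≤ |lam x (g y) - lam x₀ y|) _
      (fun y => (a ≤ d x₀ y ∧ d x₀ y < b ∧ d y (g.symm z₀) ≤ L + 4) ∧ s < lam x₀ y) ?_).trans
      (add_le_add h1 hS)
    rintro z ⟨h2, h3⟩
    have h4 := hpos z z₀ h2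
    by_cases h5 : s < lam x₀ (g.symm z)
    · exact Or.inl ⟨h4, h5⟩
    · right
      rw [Finset.mem_filter]
      refine ⟨Finset.mem_univ _, ?_⟩
      rw [Equiv.apply_symm_apply]
      have h6 := hgap' z h2.2.1
      have h7 := hgap0 (g.symm z) h4.2.1
      rw [abs_of_pos (by linarith)] at h6
      rw [abs_of_nonpos (by linarith)] at h7
      rw [abs_of_nonneg (by linarith)]
      linarith

end Pool.Agent.WDB
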