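import Pool.Agent.WDB.Two

set_option autoImplicit false

/-!
# WB-Tri: a triod yields more volume

The `161` balls of radius `k` around `x` and around `a (i (2 k + 1))`, `b (i (2 k + 1))`, `1 ≤ i ≤ 80`, are pairwise disjoint:
on the same ray the centres are at distance at least `2 k + 1`; for different rays
`d (a s) (b t) ≥ s + t - 14 ≥ 4 k + 2 - 14 ≥ 2 k + 1` since `k ≥ 7` gives `2 k ≥ 13` (in fact `4 k + 2 - 14 > 2 k` iff `2 k > 12`).
Some `y i` is at distance more than `2 k` from all `a s`, `b s` with `s ≤ h`: otherwise `d (y i) (a s) ≤ 2 k` (or with `b`)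
implies `|s - l| ≤ 2 k`; two of the three `y i` are near the same ray, say `d (y 1) (a s) ≤ 2 k`, `d (y 2) (a s') ≤ 2 k`, hence
`d (y 1) (y 2) ≤ 2 k + |s - s'| + 2 k ≤ 8 k`: contradiction. So the ball of radius `k` around this `y i` is disjoint from the
other `161` balls (`x = a 0`). All `162` balls are contained in the ball of radius `161 k + 80` around `x`
(`80 (2 k + 1) + k` and `l + k ≤ 161 k`). Count: `Finset.card_biUnion` for a family indexed by `Fin 162` or
by `Option (Unit ⊕ Fin 80 ⊕ Fin 80)`, or in several steps. A convenient general lemma: if a finite index type `ι`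
and centres `c : ι → V` satisfy `2 k < d (c i) (c j)` for `i ≠ j` and `d x (c i) + k ≤ K` then
`Fintype.card ι * m ≤ vol d x K`.
-/

namespace Pool.Agent.WDB

open Finset

variable {V : Type} [Fintype V] {d : V → V → ℕ}

/-- disjoint balls -/
theorem vol_packing (hP : PM V d) {ι : Type} [Fintype ι] (c : ι → V) (k K m : ℕ) (x : V)
    (hc : ∀ i j, i ≠ j → 2 * k < d (c i) (c j)) (hK : ∀ i, d x (c i) + k ≤ K)
    (hm : ∀ z, m ≤ vol d z k) : Fintype.card ι * m ≤ vol d x K := by
  classical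
  have h1 : ((univ : Finset ι).biUnion fun i => univ.filter fun z => d (c i) z ≤ k).card =
      ∑ i : ι, vol d (c i) k := by
    refine card_biUnion ?_
    intro i _ j _ hij
    rw [Function.onFun, disjoint_left]
    intro z hz hz'
    have e1 := (mem_filter.1 hz).2
    have e2 := (mem_filter.1 hz').2
    have e3 := hP.tri (c i) z (c j)
    have e4 := hP.symm z (c j)
    have e5 := hc i j hij
    omega
  have h2 : ((univ : Finset ι).biUnion fun i => univ.filter fun z => d (c i) z ≤ k) ⊆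
      univ.filter fun z => d x z ≤ K := by
    intro z hz
    obtain ⟨i, _, hi⟩ := mem_biUnion.1 hz
    have e1 := (mem_filter.1 hi).2
    have e2 := hP.tri x (c i) z
    have e3 := hK i
    exact mem_filter.2 ⟨mem_univ _, by omega⟩
  have h3 : Fintype.card ι * m ≤ ∑ i : ι, vol d (c i) k := by
    calc Fintype.card ι * m = ∑ _i : ι, m := by
          rw [sum_const, card_univ, smul_eq_mul]
      _ ≤ ∑ i : ι, vol d (c i) k := sum_le_sum fun i _ => hm (c i)
  rw [← h1] at h3
  exact h3.trans (card_le_card h2)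

omit [Fintype V] in
private theorem tri_ray (hP : PM V d) {h k l : ℕ} {x y y' : V} {r : ℕ → V} (hr : Ray d x h r)
    (hy : d x y = l) (hy' : d x y' = l) (hn : ∃ s, s ≤ h ∧ d y (r s) ≤ 2 * k)
    (hn' : ∃ s, s ≤ h ∧ d y' (r s) ≤ 2 * k) : d y y' ≤ 8 * k := by
  obtain ⟨s, hs, h1⟩ := hn
  obtain ⟨t, ht, h2⟩ := hn'
  have e1 := hr.dist 0 s (Nat.zero_le _) hs
  have e2 := hr.dist 0 t (Nat.zero_le _) ht
  rw [hr.zero] at e1 e2
  have f1 := hP.tri x y (r s)
  have f2 := hP.tri x (r s) y
  have f3 := hP.symm y (r s)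
  have f4 := hP.tri x y' (r t)
  have f5 := hP.tri x (r t) y'
  have f6 := hP.symm y' (r t)
  have f7 := hP.tri y (r s) y'
  have f8 := hP.tri (r s) (r t) y'
  have f9 : d (r s) (r t) ≤ 4 * k := by
    rcases le_total s t with hst | hst
    · have := hr.dist s t hst ht
      omega
    · have h3 := hr.dist t s hst hs
      rw [hP.symm]
      omega
  omega

omit [Fintype V] in
private theorem tri_far (hP : PM V d) {h k l : ℕ} {x y₁ y₂ y₃ : V} {a b : ℕ → V}
    (hab : Pair d x h a b) (h₁ : d x y₁ = l) (h₂ : d x y₂ = l) (h₃ : d x y₃ = l)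
    (h₁₂ : 8 * k < d y₁ y₂) (h₁₃ : 8 * k < d y₁ y₃) (h₂₃ : 8 * k < d y₂ y₃) :
    ∃ y, d x y = l ∧ (∀ s, s ≤ h → 2 * k < d y (a s)) ∧ ∀ s, s ≤ h → 2 * k < d y (b s) := by
  by_contra hcon
  have hnear : ∀ y, d x y = l → (∃ s, s ≤ h ∧ d y (a s) ≤ 2 * k) ∨
      ∃ s, s ≤ h ∧ d y (b s) ≤ 2 * k := by
    intro y hy
    by_contra hn
    push Not at hn
    exact hcon ⟨y, hy, hn.1, hn.2⟩
  have n1 := hnear y₁ h₁
  have n2 := hnear y₂ h₂
  have n3 := hnear y₃ h₃
  have hA12 := fun u v => tri_ray (k := k) hP hab.left h₁ h₂ u v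
  have hA13 := fun u v => tri_ray (k := k) hP hab.left h₁ h₃ u v
  have hA23 := fun u v => tri_ray (k := k) hP hab.left h₂ h₃ u v
  have hB12 := fun u v => tri_ray (k := k) hP hab.right h₁ h₂ u v
  have hB13 := fun u v => tri_ray (k := k) hP hab.right h₁ h₃ u v
  have hB23 := fun u v => tri_ray (k := k) hP hab.right h₂ h₃ u v
  rcases n1 with n1 | n1 <;> rcases n2 with n2 | n2 <;> rcases n3 with n3 | n3
  · exact absurd (hA12 n1 n2) (by omega)
  · exact absurd (hA12 n1 n2) (by omega)
  · exact absurd (hA13 n1 n3) (by omega)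
  · exact absurd (hB23 n2 n3) (by omega)
  · exact absurd (hA23 n2 n3) (by omega)
  · exact absurd (hB13 n1 n3) (by omega)
  · exact absurd (hB12 n1 n2) (by omega)
  · exact absurd (hB12 n1 n2) (by omega)

/-- the centres -/
private def triC (x y : V) (a b : ℕ → V) (k : ℕ) : Option (Option (Bool × Fin 80)) → V
  | none => y
  | some none => x
  | some (some (true, i)) => a ((i.val + 1) * (2 * k + 1))
  | some (some (false, i)) => b ((i.val + 1) * (2 * k + 1))

private theorem tri_pos (k : ℕ) {i j : ℕ} (hij : i < j) :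
    (i + 1) * (2 * k + 1) + (2 * k + 1) ≤ (j + 1) * (2 * k + 1) := by
  have h1 : (i + 1 + 1) * (2 * k + 1) ≤ (j + 1) * (2 * k + 1) :=
    Nat.mul_le_mul_right _ (by omega)
  rw [Nat.add_mul (i + 1) 1, Nat.one_mul] at h1
  exact h1

private theorem tri_le (k : ℕ) (i : Fin 80) : (i.val + 1) * (2 * k + 1) ≤ 80 * (2 * k + 1) :=
  Nat.mul_le_mul_right _ (by have := i.isLt; omega)

private theorem tri_ge (k i : ℕ) : 2 * k + 1 ≤ (i + 1) * (2 * k + 1) := by
  rw [Nat.add_mul, Nat.one_mul]
  exact Nat.le_add_left _ _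

omit [Fintype V] in
private theorem tri_same (hP : PM V d) {h k : ℕ} {x : V} {r : ℕ → V} (hr : Ray d x h r)
    (hh : 80 * (2 * k + 1) ≤ h) (i j : Fin 80) (hij : i ≠ j) :
    2 * k < d (r ((i.val + 1) * (2 * k + 1))) (r ((j.val + 1) * (2 * k + 1))) := by
  have hi := (tri_le k i).trans hh
  have hj := (tri_le k j).trans hh
  rcases lt_or_gt_of_ne (fun hv => hij (Fin.ext hv)) with hlt | hlt
  · have h1 := tri_pos k hlt
    rw [hr.dist _ _ (by omega) hj]
    omega
  · have h1 := tri_pos k hlt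
    rw [hP.symm, hr.dist _ _ (by omega) hi]
    omega

theorem vol_step (hP : PM V d) {h : ℕ} (hT : Two d h) (k : ℕ) (hk : 7 ≤ k)
    (hh : 80 * (2 * k + 1) ≤ h) (x y₁ y₂ y₃ : V) (l : ℕ) (hl : l ≤ 160 * k)
    (h₁ : d x y₁ = l) (h₂ : d x y₂ = l) (h₃ : d x y₃ = l) (h₁₂ : 8 * k < d y₁ y₂)
    (h₁₃ : 8 * k < d y₁ y₃) (h₂₃ : 8 * k < d y₂ y₃) (m : ℕ) (hm : ∀ z, m ≤ vol d z k) :
    162 * m ≤ vol d x (161 * k + 80) := by
  obtain ⟨a, b, hab⟩ := hT x
  obtain ⟨y, hy, hya, hyb⟩ := tri_far hP hab h₁ h₂ h₃ h₁₂ h₁₃ h₂₃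
  have ha0 : ∀ i : Fin 80, d x (a ((i.val + 1) * (2 * k + 1))) = (i.val + 1) * (2 * k + 1) := by
    intro i
    have e := hab.left.dist 0 _ (Nat.zero_le _) ((tri_le k i).trans hh)
    rw [hab.left.zero] at e
    rw [e, Nat.sub_zero]
  have hb0 : ∀ i : Fin 80, d x (b ((i.val + 1) * (2 * k + 1))) = (i.val + 1) * (2 * k + 1) := by
    intro i
    have e := hab.right.dist 0 _ (Nat.zero_le _) ((tri_le k i).trans hh)
    rw [hab.right.zero] at e
    rw [e, Nat.sub_zero]
  have hyx : 2 * k < d y x := by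
    have e := hya 0 (Nat.zero_le _)
    rwa [hab.left.zero] at e
  have hcr : ∀ i j : Fin 80, 2 * k <
      d (a ((i.val + 1) * (2 * k + 1))) (b ((j.val + 1) * (2 * k + 1))) := by
    intro i j
    have e1 := hab.cross _ _ ((tri_le k i).trans hh) ((tri_le k j).trans hh)
    have e2 := tri_ge k i.val
    have e3 := tri_ge k j.val
    omega
  have hcard : Fintype.card (Option (Option (Bool × Fin 80))) = 162 := by
    simp
  have key := vol_packing hP (triC x y a b k) k (161 * k + 80) m x ?_ ?_ hm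
  · rwa [hcard] at key
  · rintro (_ | _ | ⟨_ | _, i⟩) (_ | _ | ⟨_ | _, j⟩) hij
    · exact absurd rfl hij
    · exact hyx
    · exact hyb _ ((tri_le k j).trans hh)
    · exact hya _ ((tri_le k j).trans hh)
    · show 2 * k < d x y
      rw [hP.symm]
      exact hyx
    · exact absurd rfl hij
    · show 2 * k < d x (b ((j.val + 1) * (2 * k + 1)))
      rw [hb0]
      have := tri_ge k j.val
      omega
    · show 2 * k < d x (a ((j.val + 1) * (2 * k + 1)))
      rw [ha0]
      have := tri_ge k j.val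
      omega
    · show 2 * k < d (b ((i.val + 1) * (2 * k + 1))) y
      rw [hP.symm]
      exact hyb _ ((tri_le k i).trans hh)
    · show 2 * k < d (b ((i.val + 1) * (2 * k + 1))) x
      rw [hP.symm, hb0]
      have := tri_ge k i.val
      omega
    · exact tri_same hP hab.right hh i j fun e => hij (by rw [e])
    · show 2 * k < d (b ((i.val + 1) * (2 * k + 1))) (a ((j.val + 1) * (2 * k + 1)))
      rw [hP.symm]
      exact hcr j i
    · show 2 * k < d (a ((i.val + 1) * (2 * k + 1))) y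
      rw [hP.symm]
      exact hya _ ((tri_le k i).trans hh)
    · show 2 * k < d (a ((i.val + 1) * (2 * k + 1))) x
      rw [hP.symm, ha0]
      have := tri_ge k i.val
      omega
    · exact hcr i j
    · exact tri_same hP hab.left hh i j fun e => hij (by rw [e])
  · rintro (_ | _ | ⟨_ | _, i⟩)
    · show d x y + k ≤ _
      rw [hy]
      omega
    · show d x x + k ≤ _
      rw [hP.self]
      omega
    · show d x (b ((i.val + 1) * (2 * k + 1))) + k ≤ _
      rw [hb0]
      have := tri_le k i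
      omega
    · show d x (a ((i.val + 1) * (2 * k + 1))) + k ≤ _
      rw [ha0]
      have := tri_le k i
      omega

end Pool.Agent.WDB
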