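import Pool.Agent.WDB.Far

set_option autoImplicit false

/-!
# WB-Up: upper bound for the number of points of a ball

`chain_point`: if `t ≤ 0` take `y = a`; else `w3` for the set of the `x` with `rho a x < t`.

`ball_upper`: let `a, b` be as in `far_pair`, `r' = r + 2 ε`, `q = 2 r' + 2 ε > 0`, `J = ⌊1 / (20 q)⌋₊`, `t j = j q` for `j ≤ J`
(`t j ≤ 1 / 20`), `x j` with `t j ≤ rho a (x j) ≤ t j + ε`. Then `rho (x i) (x j) ≥ q - ε > 2 r'` for `i ≠ j`: the balls of radius `r'`
around the `x j` are disjoint. Each has at least as many points as the ball of radius `r` around `x`: `w4` for `x, x j` gives `g` with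
`rho (g x) (x j) ≤ ε` and `rho (g x) (g z) ≤ rho x z + ε`. So `(J + 1) B ≤ n` and `J + 1 ≥ 1 / (20 q)`:
`B ≤ 20 q n = 40 (r + 3 ε) n`.
-/

namespace Pool.Agent.WDB

open Finset Pool.Agent.WD

variable {V : Type} [Fintype V] [DecidableEq V] {K ε : ℝ} (w : World V K ε)

include w

theorem chain_point (a : V) {t : ℝ} (ht : ∃ b, t ≤ rho w.lam a b) :
    ∃ y, t ≤ rho w.lam a y ∧ rho w.lam a y ≤ max t 0 + ε := by
  have hε := eps_nonneg w
  rcases le_or_gt t 0 with h0 | h0
  · refine ⟨a, ?_, ?_⟩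
    · rw [rho_self]; exact h0
    · rw [rho_self]
      have := le_max_right t 0
      linarith
  · obtain ⟨b, hb⟩ := ht
    obtain ⟨x, hx, y, hy, hxy⟩ := w.w3 (univ.filter fun x => rho w.lam a x < t)
      ⟨a, by simpa [rho_self] using h0⟩ (fun h => by
        have h1 : b ∈ (univ : Finset V) := mem_univ b
        rw [← h] at h1
        exact absurd (mem_filter.mp h1).2 (not_lt.mpr hb))
    rw [mem_filter] at hx
    have hy' : t ≤ rho w.lam a y := by
      by_contra hcon
      exact hy (mem_filter.mpr ⟨mem_univ _, not_le.mp hcon⟩)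
    refine ⟨y, hy', ?_⟩
    have h1 := rho_tri w.lam a x y
    have h2 := le_max_left t 0
    linarith [hx.2]

theorem ball_upper (hε : 0 < ε) (hε' : ε ≤ 1 / 1000) (x : V) {r : ℝ} (hr : 0 ≤ r) :
    ((univ.filter fun z => rho w.lam x z ≤ r).card : ℝ) ≤
      40 * (r + 4 * ε) * Fintype.card V := by
  obtain ⟨a, b, hab⟩ := far_pair w hε'
  obtain ⟨q, hq⟩ : ∃ q : ℝ, q = 2 * (r + 2 * ε) + 2 * ε := ⟨_, rfl⟩
  have hq0 : 0 < q := by rw [hq]; positivity
  obtain ⟨J, hJ⟩ : ∃ J : ℕ, J = ⌊1 / (20 * q)⌋₊ := ⟨_, rfl⟩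
  have hJ1 : (J : ℝ) * q ≤ 1 / 20 := by
    have h1 := Nat.floor_le (show (0 : ℝ) ≤ 1 / (20 * q) by positivity)
    rw [← hJ, le_div_iff₀ (by positivity)] at h1
    linarith
  have hJ2 : 1 / 20 ≤ ((J : ℝ) + 1) * q := by
    have h1 := Nat.lt_floor_add_one (1 / (20 * q))
    rw [← hJ, div_lt_iff₀ (by positivity)] at h1
    linarith
  have hch : ∀ j : Fin (J + 1), ∃ y, (j : ℕ) * q ≤ rho w.lam a y ∧
      rho w.lam a y ≤ (j : ℕ) * q + ε := by
    intro j
    have h1 : ((j : ℕ) : ℝ) ≤ J := by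
      have := j.2
      exact_mod_cast (by omega : (j : ℕ) ≤ J)
    have h2 : ((j : ℕ) : ℝ) * q ≤ 1 / 20 := (mul_le_mul_of_nonneg_right h1 hq0.le).trans hJ1
    obtain ⟨y, hy1, hy2⟩ := chain_point w a ⟨b, h2.trans hab⟩
    refine ⟨y, hy1, ?_⟩
    rwa [max_eq_left (by positivity)] at hy2
  choose y hy1 hy2 using hch
  have hdisj : Set.PairwiseDisjoint (↑(univ : Finset (Fin (J + 1))) : Set (Fin (J + 1)))
      fun j => univ.filter fun z => rho w.lam (y j) z ≤ r + 2 * ε := by
    intro i _ j _ hij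
    refine Finset.disjoint_left.mpr fun z hz1 hz2 => ?_
    rw [mem_filter] at hz1 hz2
    have h1 : rho w.lam (y i) (y j) ≤ 2 * (r + 2 * ε) := by
      have := rho_tri w.lam (y i) z (y j)
      rw [rho_comm w.lam z (y j)] at this
      linarith [hz1.2, hz2.2]
    have h2 := rho_tri w.lam a (y i) (y j)
    have h3 := rho_tri w.lam a (y j) (y i)
    rw [rho_comm w.lam (y j) (y i)] at h3
    have h4 : q ≤ |((i : ℕ) : ℝ) * q - (j : ℕ) * q| := by
      rw [← sub_mul, abs_mul, abs_of_pos hq0]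
      have h5 : (1 : ℝ) ≤ |((i : ℕ) : ℝ) - (j : ℕ)| := by
        have h6 : ((i : ℕ) : ℤ) - (j : ℕ) ≠ 0 := by
          intro h7
          exact hij (Fin.ext (by omega))
        have h7 := Int.one_le_abs h6
        have h8 : ((1 : ℤ) : ℝ) ≤ ((|((i : ℕ) : ℤ) - (j : ℕ)| : ℤ) : ℝ) := by exact_mod_cast h7
        simpa using h8
      nlinarith
    have h5 := hy1 i
    have h6 := hy2 i
    have h7 := hy1 j
    have h8 := hy2 j
    rcases abs_cases (((i : ℕ) : ℝ) * q - (j : ℕ) * q) with ⟨h9, -⟩ | ⟨h9, -⟩ <;> linarith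
  have hcard : ∀ j : Fin (J + 1), (univ.filter fun z => rho w.lam x z ≤ r).card ≤
      (univ.filter fun z => rho w.lam (y j) z ≤ r + 2 * ε).card := by
    intro j
    obtain ⟨g, hg1, hg2, -⟩ := w.w4 x (y j)
    refine Finset.card_le_card_of_injOn g (fun z hz => ?_) g.injective.injOn
    have hz' : rho w.lam x z ≤ r := by simpa using hz
    have h1 := rho_tri w.lam (y j) (g x) (g z)
    rw [rho_comm w.lam (y j) (g x)] at h1
    have h2 := (abs_le.mp (hg2 x z)).2
    have h3 : rho w.lam (y j) (g z) ≤ r + 2 * ε := by linarith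
    simpa using h3
  have hsum : (J + 1) * (univ.filter fun z => rho w.lam x z ≤ r).card ≤ Fintype.card V := by
    calc (J + 1) * (univ.filter fun z => rho w.lam x z ≤ r).card
        = ∑ _j : Fin (J + 1), (univ.filter fun z => rho w.lam x z ≤ r).card := by simp
      _ ≤ ∑ j : Fin (J + 1), (univ.filter fun z => rho w.lam (y j) z ≤ r + 2 * ε).card :=
          Finset.sum_le_sum fun j _ => hcard j
      _ = (univ.biUnion fun j : Fin (J + 1) =>
            univ.filter fun z => rho w.lam (y j) z ≤ r + 2 * ε).card :=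
          (Finset.card_biUnion hdisj).symm
      _ ≤ Fintype.card V := Finset.card_le_univ _
  have hsum' : ((J : ℝ) + 1) * (univ.filter fun z => rho w.lam x z ≤ r).card ≤
      Fintype.card V := by exact_mod_cast hsum
  set B : ℝ := ((univ.filter fun z => rho w.lam x z ≤ r).card : ℝ) with hB
  have hB0 : 0 ≤ B := by positivity
  have h1 : 1 / 20 * B ≤ ((J : ℝ) + 1) * q * B := mul_le_mul_of_nonneg_right hJ2 hB0
  have h2 : ((J : ℝ) + 1) * q * B ≤ q * Fintype.card V := by
    have := mul_le_mul_of_nonneg_left hsum' hq0.le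
    linarith
  have hn : (0 : ℝ) ≤ Fintype.card V := by positivity
  have h3 : B ≤ 20 * q * Fintype.card V := by linarith
  have h4 : 20 * q * Fintype.card V ≤ 40 * (r + 4 * ε) * Fintype.card V :=
    mul_le_mul_of_nonneg_right (by rw [hq]; linarith) hn
  linarith

end Pool.Agent.WDB
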